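import Pool.Agent.K7.H13.KX.Law2

/-! The convergence part of the zero-one law. -/

set_option autoImplicit false

namespace Pool.Agent.K7.H13.KX

open Finset Filter Topology MeasureTheory Pool.Agent.Helper894.Collatz Pool.Agent.H828R3.Exc
  Pool.Agent.W36.SL

attribute [local irreducible] Jn

variable {l : ℕ → ℝ} {c : ℝ}

theorem conv_one (hl : Lac l c) {ψ : ℕ → ℝ} (hψ : ∀ n, 1 ≤ ψ n) (hs : Summable fun n => 1 / ψ n)
    {a h θ : ℝ} (ha : 0 < a) (hh : 0 < h) (hθ : 0 < θ) (hθ1 : θ < 1) :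
    ∀ᵐ x ∂(volume.restrict (Set.Ico a (a + h))), ∀ᶠ n in atTop, ¬ ex l (ψ n) θ x n := by
  classical
  have := fin_rest a h
  have hC := C_pos
  obtain ⟨L0, hL0⟩ := upper_asym (θ := θ / 2) (v := θ / 84) (by linarith) (by linarith) (by linarith)
    one_pos le_rfl
  set K0 : ℝ := (C + 1) * (1 + 1) ^ 2 + 2 * 1 with hK0
  have hK00 : 0 < K0 := by positivity
  have hX : Tendsto (fun n => l n * (a + h)) atTop atTop := hl.l_tendsto.atTop_mul_const (by linarith)
  have hXv : Tendsto (fun n => (l n * (a + h)) ^ (θ / 84)) atTop atTop :=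
    (tendsto_rpow_atTop (by linarith)).comp hX
  have hψt : Tendsto ψ atTop atTop := by
    have h1 := hs.tendsto_atTop_zero
    have h2 : Tendsto (fun n => (1 / ψ n)⁻¹) atTop atTop := by
      apply Tendsto.inv_tendsto_nhdsGT_zero
      apply tendsto_nhdsWithin_of_tendsto_nhds_of_eventually_within _ h1
      exact Eventually.of_forall fun n => one_div_pos.2 (lt_of_lt_of_le one_pos (hψ n))
    refine h2.congr fun n => ?_
    rw [one_div, inv_inv]
  have hu : Summable fun n : ℕ => K0 * (a + h) * (1 / ψ n +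
      (a + h) ^ (-(θ / 84)) * (l n) ^ (-(θ / 84))) := by
    apply Summable.mul_left
    apply Summable.add hs
    exact (hl.rpow_summable (by linarith)).mul_left _
  have hbc := bc (μ := volume.restrict (Set.Ico a (a + h)))
    (S := fun n => {x | x ∈ Set.Ico a (a + h) ∧ ex l (ψ n) θ x n}) hu (by
    filter_upwards [hX.eventually hL0, scale hl ha hh hθ, hψt.eventually_ge_atTop L0,
      hXv.eventually_ge_atTop L0] with n hn hsc h1 h2
    obtain ⟨hsc1, hsc2, hsc3⟩ := hsc
    have hln := hl.lpos n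
    have hX0 : 0 < l n * (a + h) := by positivity
    set Y0 : ℝ := (l n * (a + h)) ^ (θ / 2) with hY0
    set la : ℝ := min (ψ n) ((l n * (a + h)) ^ (θ / 84)) with hla
    have hψ0 : 0 < ψ n := lt_of_lt_of_le one_pos (hψ n)
    have hXv0 : 0 < (l n * (a + h)) ^ (θ / 84) := by positivity
    have hla0 : 0 < la := lt_min hψ0 hXv0
    have hc1 := hn Y0 la le_rfl (le_min h1 h2) (min_le_right _ _)
    have hsub : {x | x ∈ Set.Ico a (a + h) ∧ ex l (ψ n) θ x n} ⊆
        Set.Ico a (a + h) ∩ fl (l n) (Exc la Y0) := by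
      rintro x ⟨hx1, hx2⟩
      exact ⟨hx1, Exc_anti (min_le_left _ _) (hsc3 x hx1).2.2 hx2⟩
    have hv := vol_cnt (h := h) hln hsc1 (Exc la Y0)
    have hinv : 1 / la ≤ 1 / ψ n + (a + h) ^ (-(θ / 84)) * (l n) ^ (-(θ / 84)) := by
      have e : (a + h) ^ (-(θ / 84)) * (l n) ^ (-(θ / 84)) = 1 / (l n * (a + h)) ^ (θ / 84) := by
        rw [mul_comm (l n), Real.mul_rpow (by positivity) hln.le, Real.rpow_neg (by positivity),
          Real.rpow_neg hln.le, one_div, mul_inv]
      rw [e]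
      have p1 : 0 < 1 / ψ n := by positivity
      have p2 : 0 < 1 / (l n * (a + h)) ^ (θ / 84) := by positivity
      rcases min_choice (ψ n) ((l n * (a + h)) ^ (θ / 84)) with h3 | h3
      · rw [hla, h3]; linarith
      · rw [hla, h3]; linarith
    have hm : MeasurableSet (Set.Ico a (a + h) ∩ fl (l n) (Exc la Y0)) :=
      measurableSet_Ico.inter (fl_meas _ _)
    calc _ ≤ (volume.restrict (Set.Ico a (a + h))).real (Set.Ico a (a + h) ∩ fl (l n) (Exc la Y0)) :=
          measureReal_mono hsub (measure_ne_top _ _)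
      _ ≤ volume.real (Set.Ico a (a + h) ∩ fl (l n) (Exc la Y0)) := by
          rw [measureReal_restrict_apply hm]
          exact measureReal_mono Set.inter_subset_left (fin_I _)
      _ ≤ _ := hv
      _ ≤ (K0 * (l n * (a + h) / la)) / l n := by
          apply div_le_div_of_nonneg_right _ hln.le
          refine le_trans (le_of_eq ?_) hc1
          congr!
      _ = K0 * (a + h) * (1 / la) := by field_simp
      _ ≤ _ := mul_le_mul_of_nonneg_left hinv (by positivity))
  filter_upwards [hbc, ae_restrict_mem measurableSet_Ico] with x hx hxI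
  filter_upwards [hx] with n hn hE
  exact hn ⟨hxI, hE⟩

/-- the convergence part -/
theorem conv (hl : Lac l c) {ψ : ℕ → ℝ} (hψ : ∀ n, 1 ≤ ψ n) (hs : Summable fun n => 1 / ψ n) :
    ∀ᵐ x : ℝ, 0 < x → ∀ θ : ℝ, 0 < θ → ∀ᶠ n in atTop, ¬ ex l (ψ n) θ x n := by
  have h1 : ∀ᵐ x : ℝ, 0 < x → ∀ k : ℕ, ∀ᶠ n in atTop, ¬ ex l (ψ n) (1 / ((k : ℝ) + 2)) x n :=
    ae_pos fun a h ha hh => ae_all_iff.2 fun k =>
      conv_one hl hψ hs ha hh (by positivity) (by
        rw [div_lt_one (by positivity)]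
        have : (0 : ℝ) ≤ k := Nat.cast_nonneg k
        linarith)
  filter_upwards [h1] with x hx hx0 θ hθ
  obtain ⟨k, hk⟩ := exists_nat_one_div_lt hθ
  filter_upwards [hx hx0 k, one_le_xn hl hx0] with n hn hn1 hE
  apply hn
  refine Exc_anti le_rfl ?_ hE
  apply Real.rpow_le_rpow_of_exponent_le (by exact_mod_cast hn1)
  refine le_trans ?_ hk.le
  apply one_div_le_one_div_of_le (by positivity)
  linarith

end Pool.Agent.K7.H13.KX
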