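import Mathlib

/-! The inequality of Chung and Erdos, the lemma of Kochen and Stone, and the passage from a local
lower bound to almost everywhere. -/

set_option autoImplicit false

namespace Pool.Agent.K7.H13.KX

open Finset MeasureTheory Filter Topology

theorem chung {μ : Measure ℝ} [IsFiniteMeasure μ] {E : ℕ → Set ℝ} (hE : ∀ n, MeasurableSet (E n))
    (s : Finset ℕ) : (∑ n ∈ s, μ.real (E n)) ^ 2 ≤
      μ.real (⋃ n ∈ s, E n) * ∑ m ∈ s, ∑ n ∈ s, μ.real (E m ∩ E n) := by
  set U : Set ℝ := ⋃ n ∈ s, E n with hU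
  have hUm : MeasurableSet U := Finset.measurableSet_biUnion s fun n _ => hE n
  set Z : ℝ → ℝ := fun x => ∑ n ∈ s, (E n).indicator (fun _ => (1 : ℝ)) x with hZ
  have hind : ∀ S : Set ℝ, MeasurableSet S → Integrable (S.indicator fun _ => (1 : ℝ)) μ :=
    fun S hS => (integrable_const (1 : ℝ)).indicator hS
  have hval : ∀ S : Set ℝ, MeasurableSet S → ∫ x, S.indicator (fun _ => (1 : ℝ)) x ∂μ = μ.real S := by
    intro S hS
    rw [integral_indicator_const _ hS, smul_eq_mul, mul_one]
  have hZi : Integrable Z μ := integrable_finsetSum _ fun n _ => hind _ (hE n)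
  have hZ1 : ∫ x, Z x ∂μ = ∑ n ∈ s, μ.real (E n) := by
    rw [hZ, integral_finsetSum _ fun n _ => hind _ (hE n)]
    exact sum_congr rfl fun n _ => hval _ (hE n)
  have hZsq : ∀ x, Z x ^ 2 = ∑ m ∈ s, ∑ n ∈ s, (E m ∩ E n).indicator (fun _ => (1 : ℝ)) x := by
    intro x
    rw [sq, hZ, sum_mul_sum]
    refine sum_congr rfl fun m _ => sum_congr rfl fun n _ => ?_
    rw [← Set.inter_indicator_mul]; simp
  have hZ2i : Integrable (fun x => Z x ^ 2) μ := by
    simp_rw [hZsq]
    exact integrable_finsetSum _ fun m _ => integrable_finsetSum _ fun n _ =>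
      hind _ ((hE m).inter (hE n))
  have hZ2 : ∫ x, Z x ^ 2 ∂μ = ∑ m ∈ s, ∑ n ∈ s, μ.real (E m ∩ E n) := by
    simp_rw [hZsq]
    rw [integral_finsetSum _ fun m _ => integrable_finsetSum _ fun n _ =>
      hind _ ((hE m).inter (hE n))]
    refine sum_congr rfl fun m _ => ?_
    rw [integral_finsetSum _ fun n _ => hind _ ((hE m).inter (hE n))]
    exact sum_congr rfl fun n _ => hval _ ((hE m).inter (hE n))
  have hquad : ∀ t : ℝ, 0 ≤ μ.real U * (t * t) + (-2 * ∑ n ∈ s, μ.real (E n)) * t +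
      ∑ m ∈ s, ∑ n ∈ s, μ.real (E m ∩ E n) := by
    intro t
    have e : (fun x => (t * U.indicator (fun _ => (1 : ℝ)) x - Z x) ^ 2) =
        fun x => (t * t * U.indicator (fun _ => (1 : ℝ)) x - 2 * t * Z x) + Z x ^ 2 := by
      funext x
      by_cases hx : x ∈ U
      · rw [Set.indicator_of_mem hx]; ring
      · rw [Set.indicator_of_notMem hx]
        have : Z x = 0 := by
          simp only [hZ]
          apply sum_eq_zero
          intro n hn
          rw [Set.indicator_of_notMem]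
          intro hxn
          apply hx
          rw [hU, Set.mem_iUnion₂]
          exact ⟨n, hn, hxn⟩
        rw [this]; ring
    have h0 : 0 ≤ ∫ x, (t * U.indicator (fun _ => (1 : ℝ)) x - Z x) ^ 2 ∂μ :=
      integral_nonneg fun x => sq_nonneg _
    have i1 := (hind U hUm).const_mul (t * t)
    have i2 := hZi.const_mul (2 * t)
    have i12 : Integrable (fun x => t * t * U.indicator (fun _ => (1 : ℝ)) x - 2 * t * Z x) μ :=
      i1.sub i2
    rw [e, integral_add i12 hZ2i, integral_sub i1 i2, integral_const_mul, integral_const_mul,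
      hval U hUm, hZ1, hZ2] at h0
    linarith
  have hd := discrim_le_zero hquad
  unfold discrim at hd
  nlinarith

/-- the lemma of Kochen and Stone, in a form with weights -/
theorem ks {μ : Measure ℝ} [IsFiniteMeasure μ] {E : ℕ → Set ℝ} (hE : ∀ n, MeasurableSet (E n))
    {w : ℕ → ℝ} (hw : ∀ n, 0 ≤ w n) (hns : ¬ Summable w) {c K : ℝ} (hc : 0 < c) (hK : 0 < K) {n0 : ℕ}
    (h1 : ∀ n, n0 ≤ n → c * w n ≤ μ.real (E n))
    (h2 : ∀ n1, n0 ≤ n1 → ∀ N, ∑ m ∈ Ico n1 N, ∑ n ∈ Ico n1 N, μ.real (E m ∩ E n) ≤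
      K * (∑ n ∈ Ico n1 N, w n + (∑ n ∈ Ico n1 N, w n) ^ 2)) :
    c ^ 2 / K ≤ μ.real {x | ∃ᶠ n in atTop, x ∈ E n} := by
  have hdiv : ∀ n1, Tendsto (fun N => ∑ n ∈ Ico n1 N, w n) atTop atTop := by
    intro n1
    have h3 := (not_summable_iff_tendsto_nat_atTop_of_nonneg hw).1 hns
    have h4 : Tendsto (fun N => -(∑ n ∈ range n1, w n) + ∑ n ∈ range N, w n) atTop atTop :=
      tendsto_atTop_add_const_left _ _ h3
    refine h4.congr' ?_
    filter_upwards [eventually_ge_atTop n1] with N hN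
    rw [sum_Ico_eq_sub _ hN]; ring
  have hun : ∀ n1, n0 ≤ n1 → c ^ 2 / K ≤ μ.real (⋃ n ≥ n1, E n) := by
    intro n1 hn1
    have hlim : Tendsto (fun N => c ^ 2 / K * (1 - 1 / (1 + ∑ n ∈ Ico n1 N, w n))) atTop
        (𝓝 (c ^ 2 / K * (1 - 0))) := by
      apply Tendsto.const_mul
      apply Tendsto.const_sub
      simp_rw [one_div]
      exact tendsto_inv_atTop_zero.comp (tendsto_atTop_add_const_left _ _ (hdiv n1))
    rw [sub_zero, mul_one] at hlim
    refine le_of_tendsto hlim ?_
    filter_upwards [(hdiv n1).eventually_gt_atTop 0] with N hN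
    set A := ∑ n ∈ Ico n1 N, w n with hA
    have h3 := chung (μ := μ) hE (Ico n1 N)
    have h4 := h2 n1 hn1 N
    have h5 : c * A ≤ ∑ n ∈ Ico n1 N, μ.real (E n) := by
      rw [hA, mul_sum]
      exact sum_le_sum fun n hn => h1 n (hn1.trans (mem_Ico.1 hn).1)
    have h6 : μ.real (⋃ n ∈ Ico n1 N, E n) ≤ μ.real (⋃ n ≥ n1, E n) := by
      apply measureReal_mono _ (measure_ne_top _ _)
      intro x hx
      rw [Set.mem_iUnion₂] at hx ⊢
      obtain ⟨n, hn, hx⟩ := hx
      exact ⟨n, (mem_Ico.1 hn).1, hx⟩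
    have h7 : (c * A) ^ 2 ≤ μ.real (⋃ n ≥ n1, E n) * (K * (A + A ^ 2)) := by
      calc (c * A) ^ 2 ≤ (∑ n ∈ Ico n1 N, μ.real (E n)) ^ 2 :=
            pow_le_pow_left₀ (by positivity) h5 2
        _ ≤ _ := h3
        _ ≤ _ := mul_le_mul h6 h4 (sum_nonneg fun _ _ => sum_nonneg fun _ _ => measureReal_nonneg)
            measureReal_nonneg
    have h8 : (0 : ℝ) < K * (A + A ^ 2) := by positivity
    rw [← div_le_iff₀ h8] at h7
    refine le_trans (le_of_eq ?_) h7
    field_simp
    ring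
  have hset : {x | ∃ᶠ n in atTop, x ∈ E n} = ⋂ n1 : ℕ, ⋃ n ≥ n1, E n := by
    ext x
    simp only [Set.mem_ofPred_eq, frequently_atTop, Set.mem_iInter, Set.mem_iUnion, exists_prop]
  have hmeas : ∀ n1, MeasurableSet (⋃ n ≥ n1, E n) := fun n1 =>
    MeasurableSet.iUnion fun n => MeasurableSet.iUnion fun _ => hE n
  have hanti : Antitone fun n1 : ℕ => ⋃ n ≥ n1, E n := by
    intro a b hab x hx
    rw [Set.mem_iUnion₂] at hx ⊢
    obtain ⟨n, hn, hx⟩ := hx
    exact ⟨n, le_trans hab hn, hx⟩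
  have hlim := tendsto_measure_iInter_atTop (μ := μ) (fun n1 => (hmeas n1).nullMeasurableSet) hanti
    ⟨0, measure_ne_top _ _⟩
  have hlim2 := (ENNReal.tendsto_toReal (measure_ne_top μ _)).comp hlim
  rw [hset]
  refine ge_of_tendsto hlim2 ?_
  filter_upwards [eventually_ge_atTop n0] with n1 hn1
  exact hun n1 hn1

theorem meas_freq {E : ℕ → Set ℝ} (hE : ∀ n, MeasurableSet (E n)) :
    MeasurableSet {x | ∃ᶠ n in atTop, x ∈ E n} := by
  have hset : {x | ∃ᶠ n in atTop, x ∈ E n} = ⋂ n1 : ℕ, ⋃ n ≥ n1, E n := by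
    ext x
    simp only [Set.mem_ofPred_eq, frequently_atTop, Set.mem_iInter, Set.mem_iUnion, exists_prop]
  rw [hset]
  exact MeasurableSet.iInter fun n1 => MeasurableSet.iUnion fun n => MeasurableSet.iUnion fun _ => hE n

/-- a set with a proportion at least `κ` of each interval of positive numbers contains almost all
positive numbers -/
theorem ae_of_local {S : Set ℝ} (hS : MeasurableSet S) {κ : ℝ} (hκ : 0 < κ)
    (h : ∀ a h : ℝ, 0 < a → 0 < h → κ * h ≤ volume.real (Set.Ico a (a + h) ∩ S)) :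
    ∀ᵐ x : ℝ, 0 < x → x ∈ S := by
  have h1 := Besicovitch.ae_tendsto_measure_inter_div_of_measurableSet (volume : Measure ℝ) hS.compl
  filter_upwards [h1] with x hx hx0
  by_contra hcon
  rw [Set.indicator_of_mem hcon] at hx
  have hx2 := (ENNReal.tendsto_toReal (by simp)).comp hx
  simp only [Pi.one_apply, ENNReal.toReal_one] at hx2
  have h2 : ∀ᶠ r in 𝓝[>] (0 : ℝ), (volume (Sᶜ ∩ Metric.closedBall x r) /
      volume (Metric.closedBall x r)).toReal ≤ 1 - κ := by
    filter_upwards [Ioo_mem_nhdsGT hx0] with r hr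
    have hr0 : 0 < r := hr.1
    have h3 := h (x - r) (2 * r) (by linarith [hr.2]) (by linarith)
    have e1 : x - r + 2 * r = x + r := by ring
    rw [e1] at h3
    have h4 : volume.real (Metric.closedBall x r) = 2 * r := by
      rw [measureReal_def, Real.volume_closedBall, ENNReal.toReal_ofReal (by linarith)]
    have hfin : volume (Metric.closedBall x r) ≠ ⊤ := by
      rw [Real.volume_closedBall]; exact ENNReal.ofReal_ne_top
    rw [ENNReal.toReal_div]
    change volume.real (Sᶜ ∩ Metric.closedBall x r) / volume.real (Metric.closedBall x r) ≤ 1 - κ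
    rw [h4, div_le_iff₀ (by linarith)]
    have h5 : volume.real (Metric.closedBall x r ∩ S) + volume.real (Metric.closedBall x r \ S) =
        volume.real (Metric.closedBall x r) := measureReal_inter_add_sdiff hS hfin
    have h6 : volume.real (Set.Ico (x - r) (x + r) ∩ S) ≤ volume.real (Metric.closedBall x r ∩ S) := by
      apply measureReal_mono
      · rintro y ⟨hy, hy2⟩
        refine ⟨?_, hy2⟩
        rw [Real.closedBall_eq_Icc]
        exact ⟨hy.1, hy.2.le⟩
      · exact ne_top_of_le_ne_top hfin (measure_mono Set.inter_subset_left)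
    have e2 : Sᶜ ∩ Metric.closedBall x r = Metric.closedBall x r \ S := by
      rw [Set.inter_comm]; rfl
    rw [e2]
    rw [h4] at h5
    nlinarith
  have h3 : (1 : ℝ) ≤ 1 - κ := le_of_tendsto hx2 h2
  linarith

end Pool.Agent.K7.H13.KX
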