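import Pool.Agent.K7.H13.KX.Law2
import Pool.Agent.K7.H13.KX.Gen2

/-! The divergence part of the zero-one law. -/

set_option autoImplicit false

namespace Pool.Agent.K7.H13.KX

open Finset Filter Topology MeasureTheory Pool.Agent.Helper894.Collatz Pool.Agent.H828R3.Exc
  Pool.Agent.W36.SL

attribute [local irreducible] Jn

variable {l : ℕ → ℝ} {c : ℝ}

theorem p_lower : ∃ c' : ℝ, 0 < c' ∧ ∀ mu : ℝ, 1 ≤ mu → c' / mu ≤ p mu := by
  have hC := C_pos
  obtain ⟨L0, hL0, hp⟩ := p_ev (show 0 < C / 2 by linarith)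
  have e : C - C / 2 = C / 2 := by ring
  refine ⟨(C / 2) / L0, by positivity, fun mu hmu => ?_⟩
  have hL00 : 0 < L0 := by linarith
  have hmu0 : 0 < mu := by linarith
  rcases le_total L0 mu with h | h
  · have h1 := (hp mu h).1
    rw [e] at h1
    refine le_trans ?_ h1
    apply div_le_div_of_nonneg_right _ hmu0.le
    exact div_le_self (by linarith) hL0
  · have h1 := (hp L0 le_rfl).1
    rw [e] at h1
    refine le_trans ?_ (h1.trans (p_anti h))
    exact div_le_self (by positivity) hmu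

theorem pn_lower : ∃ c' : ℝ, 0 < c' ∧ ∀ᶠ n : ℕ in atTop, ∀ mu : ℝ, 1 ≤ mu → mu ≤ 2 * ((n : ℝ) + 2) ^ 2 →
    c' / mu ≤ pn mu n := by
  obtain ⟨c', hc', hp⟩ := p_lower
  obtain ⟨N, hN⟩ := exists_nat_gt (4 / c')
  refine ⟨c' / 2, by positivity, ?_⟩
  filter_upwards [eventually_ge_atTop N] with n hn mu h1 h2
  have hmu0 : 0 < mu := by linarith
  have hnN : (N : ℝ) ≤ n := by exact_mod_cast hn
  have hn2 : 4 / c' ≤ (n : ℝ) + 2 := by linarith
  have hn0 : (0 : ℝ) < (n : ℝ) + 2 := by positivity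
  rw [div_le_iff₀ hc'] at hn2
  have h3 := s_sub_q (Jn n) mu hmu0
  have h4 := hp mu h1
  have h5 := b_Jn n
  have hs : 0 < Real.sqrt mu := Real.sqrt_pos.2 hmu0
  have hs2 : Real.sqrt mu ≤ 2 * ((n : ℝ) + 2) := by
    rw [Real.sqrt_le_left (by positivity)]
    nlinarith
  have h6 : b ^ Jn n / Real.sqrt mu ≤ c' / 2 / mu := by
    rw [div_le_div_iff₀ hs hmu0]
    have e : mu = Real.sqrt mu * Real.sqrt mu := (Real.mul_self_sqrt hmu0.le).symm
    have h7 : b ^ Jn n * Real.sqrt mu ≤ c' / 2 := by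
      calc b ^ Jn n * Real.sqrt mu ≤ (1 / ((n : ℝ) + 2) ^ 3) * (2 * ((n : ℝ) + 2)) :=
            mul_le_mul h5 hs2 hs.le (by positivity)
        _ = 2 / ((n : ℝ) + 2) ^ 2 := by field_simp
        _ ≤ c' / 2 := by
            rw [div_le_iff₀ (by positivity)]
            have : (1 : ℝ) ≤ (n : ℝ) + 2 := by
              have : (0 : ℝ) ≤ n := Nat.cast_nonneg n
              linarith
            nlinarith
    calc b ^ Jn n * mu = (b ^ Jn n * Real.sqrt mu) * Real.sqrt mu := by
          rw [mul_assoc, Real.mul_self_sqrt hmu0.le]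
      _ ≤ c' / 2 * Real.sqrt mu := mul_le_mul_of_nonneg_right h7 hs.le
  unfold pn
  unfold p at h4
  have h8 : c' / mu = c' / 2 / mu + c' / 2 / mu := by ring
  linarith

/-- the decay of the correlations is summable -/
theorem b_div {M : ℕ} (hM : 0 < M) : Summable fun d : ℕ => b ^ (d / M) := by
  have hb := b_pos
  have hb1 := b_lt_one
  set r : ℝ := b ^ ((1 : ℝ) / M) with hr
  have hMR : (0 : ℝ) < M := by exact_mod_cast hM
  have hr0 : 0 < r := by positivity
  have hr1 : r < 1 := Real.rpow_lt_one hb.le hb1 (by positivity)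
  have hrM : r ^ M = b := by
    rw [hr, ← Real.rpow_natCast, ← Real.rpow_mul hb.le, one_div_mul_cancel hMR.ne', Real.rpow_one]
  refine Summable.of_nonneg_of_le (fun d => by positivity) (fun d => ?_)
    ((summable_geometric_of_lt_one hr0.le hr1).mul_left (1 / b))
  have h1 : r ^ (M * (d / M) + M) ≤ r ^ d := by
    apply pow_le_pow_of_le_one hr0.le hr1.le
    have := Nat.div_add_mod d M
    have := Nat.mod_lt d hM
    omega
  rw [pow_add, pow_mul, hrM] at h1
  rw [one_div_mul_eq_div, le_div_iff₀ hb]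
  exact h1

theorem corr_sum {M : ℕ} (hM : 0 < M) : ∃ B : ℝ, 0 < B ∧ ∀ (m : ℕ) (t : Finset ℕ),
    ∑ n ∈ t, b ^ ((max m n - min m n) / M) ≤ B := by
  have hb := b_pos
  have hsum := b_div hM
  refine ⟨2 * ∑' d : ℕ, b ^ (d / M) + 1, ?_, fun m t => ?_⟩
  · have : 0 ≤ ∑' d : ℕ, b ^ (d / M) := tsum_nonneg fun d => by positivity
    linarith
  · have h1 : ∑ n ∈ t.filter (fun n => m ≤ n), b ^ ((max m n - min m n) / M) ≤ ∑' d : ℕ, b ^ (d / M) := by
      have e : ∑ n ∈ t.filter (fun n => m ≤ n), b ^ ((max m n - min m n) / M) =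
          ∑ d ∈ (t.filter (fun n => m ≤ n)).image (fun n => n - m), b ^ (d / M) := by
        rw [sum_image]
        · refine sum_congr rfl fun n hn => ?_
          have := (mem_filter.1 hn).2
          rw [max_eq_right this, min_eq_left this]
        · intro x hx y hy hxy
          have h1 := (mem_filter.1 (mem_coe.1 hx)).2
          have h2 := (mem_filter.1 (mem_coe.1 hy)).2
          simp only at hxy
          omega
      rw [e]
      exact hsum.sum_le_tsum _ fun d _ => by positivity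
    have h2 : ∑ n ∈ t.filter (fun n => ¬ m ≤ n), b ^ ((max m n - min m n) / M) ≤ ∑' d : ℕ, b ^ (d / M) := by
      have e : ∑ n ∈ t.filter (fun n => ¬ m ≤ n), b ^ ((max m n - min m n) / M) =
          ∑ d ∈ (t.filter (fun n => ¬ m ≤ n)).image (fun n => m - n), b ^ (d / M) := by
        rw [sum_image]
        · refine sum_congr rfl fun n hn => ?_
          have := (mem_filter.1 hn).2
          rw [max_eq_left (by omega), min_eq_right (by omega)]
        · intro x hx y hy hxy
          have h1 := (mem_filter.1 (mem_coe.1 hx)).2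
          have h2 := (mem_filter.1 (mem_coe.1 hy)).2
          simp only at hxy
          omega
      rw [e]
      exact hsum.sum_le_tsum _ fun d _ => by positivity
    rw [← sum_filter_add_sum_filter_not t (fun n => m ≤ n)]
    linarith

theorem cube_sum : ∃ Z : ℝ, 0 < Z ∧ ∀ (m : ℕ) (t : Finset ℕ),
    ∑ n ∈ t, 1 / (((max m n : ℕ) : ℝ) + 2) ^ 3 ≤ Z := by
  have h1 : Summable fun n : ℕ => 1 / ((n : ℝ) + 2) ^ 3 := by
    have h2 : Summable fun n : ℕ => 1 / (n : ℝ) ^ 3 := Real.summable_one_div_nat_pow.2 (by norm_num)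
    refine ((summable_nat_add_iff 2).2 h2).congr fun n => ?_
    push_cast; rfl
  have h3 : 0 ≤ ∑' n : ℕ, 1 / ((n : ℝ) + 2) ^ 3 := tsum_nonneg fun n => by positivity
  refine ⟨∑' n : ℕ, 1 / ((n : ℝ) + 2) ^ 3 + 1, by linarith, fun m t => ?_⟩
  have h4 : ∑ n ∈ t, 1 / (((max m n : ℕ) : ℝ) + 2) ^ 3 ≤ ∑ n ∈ t, 1 / ((n : ℝ) + 2) ^ 3 := by
    apply sum_le_sum
    intro n _
    apply one_div_le_one_div_of_le (by positivity)
    apply pow_le_pow_left₀ (by positivity)
    have : (n : ℝ) ≤ ((max m n : ℕ) : ℝ) := by exact_mod_cast le_max_right _ _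
    linarith
  have h5 := h1.sum_le_tsum t fun n _ => by positivity
  linarith

/-- the correlation of the events -/
theorem Ev_near (hl : Lac l c) {M : ℕ} (hM : 2 ≤ c ^ M) {a h : ℝ} (ha : 0 ≤ a) (hh : 0 < h)
    {lam mu : ℝ} (hlam : 0 < lam) (hmu : 0 < mu) {m n : ℕ} (hmn : m < n) (hm : dl l m ≤ h)
    (hn : dl l n ≤ h) : volume.real (Set.Ico a (a + h) ∩ Ev l lam m ∩ Ev l mu n) ≤
      h * (8 * (1 / lam * (1 / mu)) + 2 * (1 / lam + 1 / mu) * (1 / ((n : ℝ) + 2) ^ 3 + b ^ ((n - m) / M))) := by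
  have hc : 0 < c := by linarith [hl.one]
  have hb := b_pos
  have hb1 := b_lt_one
  have hlm := hl.lpos m
  have hln := hl.lpos n
  set k := min (Jn n) ((n - m) / M) with hk
  have hkL : 2 ^ k * l m ≤ l n := by
    have h1 : (2 : ℝ) ^ k ≤ c ^ (n - m) := by
      calc (2 : ℝ) ^ k ≤ (c ^ M) ^ k := pow_le_pow_left₀ (by norm_num) hM k
        _ = c ^ (M * k) := (pow_mul c M k).symm
        _ ≤ c ^ (n - m) := by
            apply pow_le_pow_right₀ hl.one.le
            calc M * k ≤ M * ((n - m) / M) := Nat.mul_le_mul_left _ (min_le_right _ _)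
              _ ≤ n - m := Nat.mul_div_le _ _
    have h2 := hl.ge m (n - m)
    rw [Nat.add_sub_cancel' hmn.le] at h2
    exact (mul_le_mul_of_nonneg_right h1 hlm.le).trans h2
  have hD : ∀ i, dl l i ≤ h → (l i * h + 2 + 2 ^ Jn i) / l i ≤ 2 * h := by
    intro i hi
    have := hl.lpos i
    unfold dl at hi
    have e : (l i * h + 2 + 2 ^ Jn i) / l i = h + (2 + 2 ^ Jn i) / l i := by field_simp; ring
    rw [e]; linarith
  have h1 := near ha hh hlm (min_le_left (Jn n) ((n - m) / M)) hkL hlam hmu (hD m hm) (hD n hn)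
  have h2 : b ^ k ≤ 1 / ((n : ℝ) + 2) ^ 3 + b ^ ((n - m) / M) := by
    have h3 := b_Jn n
    have p1 : 0 < b ^ ((n - m) / M) := by positivity
    have p2 : (0 : ℝ) < 1 / ((n : ℝ) + 2) ^ 3 := by positivity
    rcases min_choice (Jn n) ((n - m) / M) with h4 | h4
    · rw [hk, h4]; linarith
    · rw [hk, h4]; linarith
  have h3 : Real.sqrt (2 * h * (2 * h) / (lam * mu)) ≤ h * (1 / lam + 1 / mu) := by
    rw [Real.sqrt_le_left (by positivity)]
    have e : 2 * h * (2 * h) / (lam * mu) = h ^ 2 * (4 * (1 / lam) * (1 / mu)) := by field_simp; ring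
    rw [e, mul_pow]
    apply mul_le_mul_of_nonneg_left _ (by positivity)
    nlinarith [sq_nonneg (1 / lam - 1 / mu)]
  calc _ ≤ _ := h1
    _ ≤ 4 * (2 * h) / (lam * mu) + 2 * (h * (1 / lam + 1 / mu)) *
        (1 / ((n : ℝ) + 2) ^ 3 + b ^ ((n - m) / M)) := by gcongr
    _ = _ := by field_simp; ring

section

variable (l) (ψ : ℕ → ℝ)

/-- the weights -/
noncomputable def wt (n : ℕ) : ℝ := if max (ψ n) 2 ≤ ((n : ℝ) + 2) ^ 2 then 1 / max (ψ n) 2 else 0

/-- the events -/
def EE (n : ℕ) : Set ℝ := {x | max (ψ n) 2 ≤ ((n : ℝ) + 2) ^ 2 ∧ x ∈ Ev l (2 * max (ψ n) 2) n}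

theorem EE_meas (n : ℕ) : MeasurableSet (EE l ψ n) := by
  by_cases h : max (ψ n) 2 ≤ ((n : ℝ) + 2) ^ 2
  · have : EE l ψ n = Ev l (2 * max (ψ n) 2) n := by
      ext x; simp only [EE, Set.mem_ofPred_eq]; tauto
    rw [this]; exact Ev_meas _ _ _
  · have : EE l ψ n = ∅ := by
      ext x; simp only [EE, Set.mem_ofPred_eq, Set.mem_empty_iff_false]; tauto
    rw [this]; exact MeasurableSet.empty

theorem wt_nonneg (n : ℕ) : 0 ≤ wt ψ n := by
  unfold wt
  split_ifs
  · have : (0 : ℝ) < max (ψ n) 2 := lt_of_lt_of_le two_pos (le_max_right _ _)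
    positivity
  · exact le_rfl

theorem wt_not {ψ : ℕ → ℝ} (hψ : ∀ n, 1 ≤ ψ n) (hs : ¬ Summable fun n => 1 / ψ n) :
    ¬ Summable (wt ψ) := by
  intro h
  apply hs
  have h1 : Summable fun n : ℕ => 1 / ((n : ℝ) + 2) ^ 2 := by
    have h2 : Summable fun n : ℕ => 1 / (n : ℝ) ^ 2 := Real.summable_one_div_nat_pow.2 (by norm_num)
    refine ((summable_nat_add_iff 2).2 h2).congr fun n => ?_
    push_cast; rfl
  refine Summable.of_nonneg_of_le (fun n => ?_) (fun n => ?_) ((h.add h1).mul_left 2)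
  · have := lt_of_lt_of_le one_pos (hψ n); positivity
  · have h0 : 0 < ψ n := lt_of_lt_of_le one_pos (hψ n)
    have h2 : (0 : ℝ) < max (ψ n) 2 := lt_of_lt_of_le two_pos (le_max_right _ _)
    have h3 : max (ψ n) 2 ≤ 2 * ψ n := max_le (by linarith) (by linarith [hψ n])
    have h4 : 1 / ψ n ≤ 2 * (1 / max (ψ n) 2) := by
      rw [mul_one_div, div_le_div_iff₀ h0 h2]; linarith
    have h5 : 1 / max (ψ n) 2 ≤ wt ψ n + 1 / ((n : ℝ) + 2) ^ 2 := by
      unfold wt
      split_ifs with h6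
      · have : (0 : ℝ) < 1 / ((n : ℝ) + 2) ^ 2 := by positivity
        linarith
      · rw [zero_add]
        exact one_div_le_one_div_of_le (by positivity) (not_le.1 h6).le
    linarith

end

/-- the local lower bound -/
theorem local_lower (hl : Lac l c) {ψ : ℕ → ℝ} (hψ : ∀ n, 1 ≤ ψ n)
    (hs : ¬ Summable fun n => 1 / ψ n) : ∃ κ : ℝ, 0 < κ ∧ ∀ a h : ℝ, 0 < a → 0 < h →
      κ * h ≤ volume.real (Set.Ico a (a + h) ∩ {x | ∃ᶠ n in atTop, x ∈ EE l ψ n}) := by
  obtain ⟨M, hM⟩ := pow_unbounded_of_one_lt 2 hl.one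
  have hM0 : 0 < M := by
    rcases Nat.eq_zero_or_pos M with h | h
    · rw [h, pow_zero] at hM; norm_num at hM
    · exact h
  obtain ⟨B, hB0, hB⟩ := corr_sum hM0
  obtain ⟨Z, hZ0, hZ⟩ := cube_sum
  obtain ⟨c', hc', hpn⟩ := pn_lower
  have hb := b_pos
  refine ⟨(c' / 4) ^ 2 / (2 + 2 * (Z + B)), by positivity, fun a h ha hh => ?_⟩
  have := fin_rest a h
  have hr : ∀ S : Set ℝ, MeasurableSet S →
      (volume.restrict (Set.Ico a (a + h))).real S = volume.real (Set.Ico a (a + h) ∩ S) := by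
    intro S hS
    rw [measureReal_restrict_apply hS, Set.inter_comm]
  have hψ2 : ∀ n, (2 : ℝ) ≤ max (ψ n) 2 := fun n => le_max_right _ _
  obtain ⟨n0, hn0⟩ := eventually_atTop.1 (hpn.and
    (hl.dl_tendsto.eventually (gt_mem_nhds (show 0 < h / 2 by linarith))))
  have hks := ks (μ := volume.restrict (Set.Ico a (a + h))) (E := EE l ψ) (EE_meas l ψ)
    (w := wt ψ) (wt_nonneg ψ) (wt_not hψ hs) (c := c' / 4 * h) (K := h * (2 + 2 * (Z + B)))
    (by positivity) (by positivity) (n0 := n0) ?_ ?_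
  · rw [hr _ (meas_freq (EE_meas l ψ))] at hks
    refine le_trans (le_of_eq ?_) hks
    field_simp
  · intro n hn
    obtain ⟨h1, h2⟩ := hn0 n hn
    rw [hr _ (EE_meas l ψ n)]
    have h3 := hψ2 n
    unfold wt
    split_ifs with h4
    · have e : EE l ψ n = Ev l (2 * max (ψ n) 2) n := by
        ext x; simp only [EE, Set.mem_ofPred_eq]; tauto
      rw [e]
      have h5 := h1 (2 * max (ψ n) 2) (by linarith) (by linarith)
      have h6 := Ev_lo hl ha.le hh (2 * max (ψ n) 2) n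
      have h7 : h / 2 * (c' / (2 * max (ψ n) 2)) ≤ (h - dl l n) * pn (2 * max (ψ n) 2) n := by
        apply mul_le_mul (by linarith) h5 (by positivity) (by linarith)
      refine le_trans (le_of_eq ?_) (h7.trans h6)
      field_simp
      ring
    · rw [mul_zero]; exact measureReal_nonneg
  · intro n1 hn1 N
    set A := ∑ n ∈ Ico n1 N, wt ψ n with hA
    have hterm : ∀ m ∈ Ico n1 N, ∀ n ∈ Ico n1 N,
        (volume.restrict (Set.Ico a (a + h))).real (EE l ψ m ∩ EE l ψ n) ≤
          h * (2 * (wt ψ m * wt ψ n) + (wt ψ m + wt ψ n) *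
            (1 / (((max m n : ℕ) : ℝ) + 2) ^ 3 + b ^ ((max m n - min m n) / M))) := by
      have hlt : ∀ m n : ℕ, n1 ≤ m → n1 ≤ n → m < n →
          (volume.restrict (Set.Ico a (a + h))).real (EE l ψ m ∩ EE l ψ n) ≤
          h * (2 * (wt ψ m * wt ψ n) + (wt ψ m + wt ψ n) *
            (1 / (((max m n : ℕ) : ℝ) + 2) ^ 3 + b ^ ((max m n - min m n) / M))) := by
        intro m n hm hn hmn
        rw [hr _ ((EE_meas l ψ m).inter (EE_meas l ψ n)), max_eq_right hmn.le, min_eq_left hmn.le]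
        have hw1 := wt_nonneg ψ m
        have hw2 := wt_nonneg ψ n
        have hRHS : 0 ≤ h * (2 * (wt ψ m * wt ψ n) + (wt ψ m + wt ψ n) *
            (1 / ((n : ℝ) + 2) ^ 3 + b ^ ((n - m) / M))) := by positivity
        by_cases h1 : max (ψ m) 2 ≤ ((m : ℝ) + 2) ^ 2
        swap
        · have : Set.Ico a (a + h) ∩ (EE l ψ m ∩ EE l ψ n) = ∅ := by
            rw [Set.eq_empty_iff_forall_notMem]
            rintro x ⟨_, ⟨hx, _⟩, _⟩
            exact h1 hx
          rw [this, measureReal_empty]; exact hRHS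
        by_cases h2 : max (ψ n) 2 ≤ ((n : ℝ) + 2) ^ 2
        swap
        · have : Set.Ico a (a + h) ∩ (EE l ψ m ∩ EE l ψ n) = ∅ := by
            rw [Set.eq_empty_iff_forall_notMem]
            rintro x ⟨_, _, ⟨hx, _⟩⟩
            exact h2 hx
          rw [this, measureReal_empty]; exact hRHS
        have e : Set.Ico a (a + h) ∩ (EE l ψ m ∩ EE l ψ n) =
            Set.Ico a (a + h) ∩ Ev l (2 * max (ψ m) 2) m ∩ Ev l (2 * max (ψ n) 2) n := by
          ext x
          simp only [EE, Set.mem_inter_iff, Set.mem_ofPred_eq]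
          tauto
        have d1 := (hn0 m (hn1.trans hm)).2
        have d2 := (hn0 n (hn1.trans hn)).2
        have g1 := hψ2 m
        have g2 := hψ2 n
        have h3 := Ev_near hl hM.le ha.le hh (lam := 2 * max (ψ m) 2) (mu := 2 * max (ψ n) 2)
          (by linarith) (by linarith) hmn (by linarith) (by linarith)
        rw [e]
        refine h3.trans (le_of_eq ?_)
        unfold wt
        rw [if_pos h1, if_pos h2]
        have g3 : (0 : ℝ) < max (ψ m) 2 := by linarith
        have g4 : (0 : ℝ) < max (ψ n) 2 := by linarith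
        have e1 : (1 : ℝ) / (2 * max (ψ m) 2) = 1 / 2 * (1 / max (ψ m) 2) := by field_simp
        have e2 : (1 : ℝ) / (2 * max (ψ n) 2) = 1 / 2 * (1 / max (ψ n) 2) := by field_simp
        rw [e1, e2]
        ring
      intro m hm n hn
      rw [mem_Ico] at hm hn
      rcases lt_trichotomy m n with hmn | hmn | hmn
      · exact hlt m n hm.1 hn.1 hmn
      · subst hmn
        rw [Set.inter_self, max_self, min_self, Nat.sub_self, Nat.zero_div, pow_zero,
          hr _ (EE_meas l ψ m)]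
        have hw := wt_nonneg ψ m
        have d1 := (hn0 m (hn1.trans hm.1)).2
        have g1 := hψ2 m
        have hdp := hl.dl_pos m
        have hbound : volume.real (Set.Ico a (a + h) ∩ EE l ψ m) ≤ h * wt ψ m := by
          by_cases h1 : max (ψ m) 2 ≤ ((m : ℝ) + 2) ^ 2
          swap
          · have : Set.Ico a (a + h) ∩ EE l ψ m = ∅ := by
              rw [Set.eq_empty_iff_forall_notMem]
              rintro x ⟨_, ⟨hx, _⟩⟩
              exact h1 hx
            rw [this, measureReal_empty]; positivity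
          have e : EE l ψ m = Ev l (2 * max (ψ m) 2) m := by
            ext x; simp only [EE, Set.mem_ofPred_eq]; tauto
          rw [e]
          have h2 := Ev_up hl ha.le hh (2 * max (ψ m) 2) m
          have h3 : pn (2 * max (ψ m) 2) m ≤ 1 / (2 * max (ψ m) 2) := by
            unfold pn
            exact one_sub_s_le _ (by linarith)
          have h4 := pn_nonneg (2 * max (ψ m) 2) m
          refine h2.trans ?_
          unfold wt
          rw [if_pos h1]
          calc (h + dl l m) * pn (2 * max (ψ m) 2) m ≤ (2 * h) * (1 / (2 * max (ψ m) 2)) :=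
                mul_le_mul (by linarith) h3 h4 (by linarith)
            _ = _ := by field_simp
        refine hbound.trans ?_
        apply mul_le_mul_of_nonneg_left _ hh.le
        have p1 : (0 : ℝ) ≤ 1 / ((m : ℝ) + 2) ^ 3 := by positivity
        have p2 : 0 ≤ wt ψ m * wt ψ m := by positivity
        have p3 : 0 ≤ wt ψ m * (1 / ((m : ℝ) + 2) ^ 3) := by positivity
        nlinarith
      · rw [Set.inter_comm, max_comm, min_comm]
        refine (hlt n m hn.1 hm.1 hmn).trans (le_of_eq ?_)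
        ring
    have hG : ∀ m, ∑ n ∈ Ico n1 N, (1 / (((max m n : ℕ) : ℝ) + 2) ^ 3 + b ^ ((max m n - min m n) / M)) ≤
        Z + B := by
      intro m
      rw [sum_add_distrib]
      exact add_le_add (hZ m _) (hB m _)
    have hS1 : ∑ m ∈ Ico n1 N, ∑ n ∈ Ico n1 N, wt ψ m *
        (1 / (((max m n : ℕ) : ℝ) + 2) ^ 3 + b ^ ((max m n - min m n) / M)) ≤ (Z + B) * A := by
      rw [hA, mul_sum]
      apply sum_le_sum
      intro m _
      rw [← mul_sum, mul_comm]
      exact mul_le_mul_of_nonneg_right (hG m) (wt_nonneg ψ m)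
    have hS2 : ∑ m ∈ Ico n1 N, ∑ n ∈ Ico n1 N, wt ψ n *
        (1 / (((max m n : ℕ) : ℝ) + 2) ^ 3 + b ^ ((max m n - min m n) / M)) ≤ (Z + B) * A := by
      rw [sum_comm]
      refine le_trans (le_of_eq ?_) hS1
      refine sum_congr rfl fun m _ => sum_congr rfl fun n _ => ?_
      rw [max_comm, min_comm]
    have hS3 : ∑ m ∈ Ico n1 N, ∑ n ∈ Ico n1 N, wt ψ m * wt ψ n = A ^ 2 := by
      rw [sq, hA, sum_mul_sum]
    calc ∑ m ∈ Ico n1 N, ∑ n ∈ Ico n1 N,
          (volume.restrict (Set.Ico a (a + h))).real (EE l ψ m ∩ EE l ψ n)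
        ≤ ∑ m ∈ Ico n1 N, ∑ n ∈ Ico n1 N, h * (2 * (wt ψ m * wt ψ n) + (wt ψ m + wt ψ n) *
            (1 / (((max m n : ℕ) : ℝ) + 2) ^ 3 + b ^ ((max m n - min m n) / M))) :=
          sum_le_sum fun m hm => sum_le_sum fun n hn => hterm m hm n hn
      _ = h * (2 * ∑ m ∈ Ico n1 N, ∑ n ∈ Ico n1 N, wt ψ m * wt ψ n +
          ∑ m ∈ Ico n1 N, ∑ n ∈ Ico n1 N, wt ψ m *
            (1 / (((max m n : ℕ) : ℝ) + 2) ^ 3 + b ^ ((max m n - min m n) / M)) +
          ∑ m ∈ Ico n1 N, ∑ n ∈ Ico n1 N, wt ψ n *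
            (1 / (((max m n : ℕ) : ℝ) + 2) ^ 3 + b ^ ((max m n - min m n) / M))) := by
          simp only [mul_sum, ← sum_add_distrib]
          refine sum_congr rfl fun m _ => sum_congr rfl fun n _ => ?_
          ring
      _ ≤ h * (2 * A ^ 2 + (Z + B) * A + (Z + B) * A) := by
          rw [hS3]
          apply mul_le_mul_of_nonneg_left _ hh.le
          linarith
      _ ≤ h * (2 + 2 * (Z + B)) * (A + A ^ 2) := by
          have hA0 : 0 ≤ A := sum_nonneg fun n _ => wt_nonneg ψ n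
          rw [mul_assoc]
          apply mul_le_mul_of_nonneg_left _ hh.le
          have : 0 ≤ (Z + B) * A ^ 2 := by positivity
          nlinarith

/-- the divergence part -/
theorem diverg (hl : Lac l c) {ψ : ℕ → ℝ} (hψ : ∀ n, 1 ≤ ψ n) (hs : ¬ Summable fun n => 1 / ψ n) :
    ∀ᵐ x : ℝ, 0 < x → ∀ θ : ℝ, θ < 1 → ∃ᶠ n in atTop, ex l (ψ n) θ x n := by
  obtain ⟨κ, hκ, h⟩ := local_lower hl hψ hs
  have h1 := ae_of_local (meas_freq (EE_meas l ψ)) hκ h
  filter_upwards [h1] with x hx hx0 θ hθ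
  have h2 : ∃ᶠ n in atTop, x ∈ EE l ψ n := hx hx0
  have h3 := h2.and_eventually (hl.above hx0 hθ)
  refine h3.mono fun n hn => ?_
  obtain ⟨⟨_, hn1⟩, hn2, hn3⟩ := hn
  have h4 : (2 : ℝ) ≤ max (ψ n) 2 := le_max_right _ _
  have h5 : ψ n ≤ max (ψ n) 2 := le_max_left _ _
  exact Exc_anti (by linarith) le_rfl (PP_Exc (by linarith) hn1 hn3)

end Pool.Agent.K7.H13.KX
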