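import Mathlib

/-! General tools: Borel-Cantelli, the strong law from variances, the inequality of Chung and
Erdos, and the passage from a local lower bound to almost everywhere. -/

set_option autoImplicit false

namespace Pool.Agent.K7.H13.KX

open Finset MeasureTheory Filter Topology

theorem bc {μ : Measure ℝ} [IsFiniteMeasure μ] {S : ℕ → Set ℝ} {u : ℕ → ℝ} (hu : Summable u)
    (h : ∀ᶠ n in atTop, μ.real (S n) ≤ u n) : ∀ᵐ x ∂μ, ∀ᶠ n in atTop, x ∉ S n := by
  obtain ⟨N, hN⟩ := eventually_atTop.1 h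
  have hs : Summable fun n => u (n + N) := (summable_nat_add_iff N).2 hu
  have h1 : (∑' n, μ (S (n + N))) ≠ ⊤ := by
    have h2 : (∑' n, μ (S (n + N))) ≤ ∑' n, ENNReal.ofReal (u (n + N)) := by
      apply ENNReal.tsum_le_tsum
      intro n
      have h3 := hN (n + N) (by omega)
      rw [← ENNReal.ofReal_toReal (measure_ne_top μ (S (n + N)))]
      exact ENNReal.ofReal_le_ofReal h3
    exact ne_top_of_le_ne_top hs.tsum_ofReal_ne_top h2
  filter_upwards [ae_eventually_notMem h1] with x hx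
  obtain ⟨M, hM⟩ := eventually_atTop.1 hx
  rw [eventually_atTop]
  refine ⟨M + N, fun n hn => ?_⟩
  have h4 := hM (n - N) (by omega)
  rwa [Nat.sub_add_cancel (by omega)] at h4

theorem tz {μ : Measure ℝ} [IsFiniteMeasure μ] {g : ℕ → ℝ → ℝ} (hm : ∀ k, Measurable (g k))
    (h0 : ∀ k x, 0 ≤ g k x) (hi : ∀ k, Integrable (g k) μ) {u : ℕ → ℝ} (hu : Summable u)
    (h : ∀ᶠ k in atTop, ∫ x, g k x ∂μ ≤ u k) : ∀ᵐ x ∂μ, Tendsto (fun k => g k x) atTop (𝓝 0) := by
  obtain ⟨N, hN⟩ := eventually_atTop.1 h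
  have hs : Summable fun n => u (n + N) := (summable_nat_add_iff N).2 hu
  have h1 : (∫⁻ x, ∑' n, ENNReal.ofReal (g (n + N) x) ∂μ) ≠ ⊤ := by
    rw [lintegral_tsum fun n => ((hm _).ennreal_ofReal).aemeasurable]
    have h2 : (∑' n, ∫⁻ x, ENNReal.ofReal (g (n + N) x) ∂μ) ≤ ∑' n, ENNReal.ofReal (u (n + N)) := by
      apply ENNReal.tsum_le_tsum
      intro n
      rw [← ofReal_integral_eq_lintegral_ofReal (hi _) (Eventually.of_forall fun x => h0 _ x)]
      exact ENNReal.ofReal_le_ofReal (hN _ (by omega))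
    exact ne_top_of_le_ne_top hs.tsum_ofReal_ne_top h2
  have hmeas : Measurable fun x => ∑' n, ENNReal.ofReal (g (n + N) x) :=
    Measurable.tsum fun n => (hm _).ennreal_ofReal
  filter_upwards [ae_lt_top hmeas h1] with x hx
  have h3 := ENNReal.tendsto_atTop_zero_of_tsum_ne_top hx.ne
  have h4 : Tendsto (fun n => g (n + N) x) atTop (𝓝 0) := by
    have h5 := (ENNReal.tendsto_toReal (ENNReal.zero_ne_top)).comp h3
    rw [ENNReal.toReal_zero] at h5
    refine h5.congr fun n => ?_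
    simp only [Function.comp_apply]
    exact ENNReal.toReal_ofReal (h0 _ x)
  exact (tendsto_add_atTop_iff_nat N).1 h4

/-- interpolation between the fourth powers -/
theorem interp {S : ℕ → ℝ} (hS : ∀ n, |S (n + 1) - S n| ≤ 1)
    (h : Tendsto (fun k : ℕ => S (k ^ 4) / (k : ℝ) ^ 4) atTop (𝓝 0)) :
    Tendsto (fun N : ℕ => S N / N) atTop (𝓝 0) := by
  have hS2 : ∀ m d, |S (m + d) - S m| ≤ d := by
    intro m d
    induction d with
    | zero => simp
    | succ d ih =>
      have h1 := hS (m + d)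
      have e : S (m + (d + 1)) - S m = (S (m + d + 1) - S (m + d)) + (S (m + d) - S m) := by
        rw [← add_assoc]; ring
      rw [e]
      refine (abs_add_le _ _).trans ?_
      push_cast
      linarith
  rw [Metric.tendsto_atTop] at h ⊢
  intro ε hε
  obtain ⟨K0, hK0⟩ := h (ε / 2) (by linarith)
  obtain ⟨K1, hK1⟩ := exists_nat_gt (30 / ε)
  refine ⟨(max K0 (max K1 1)) ^ 4, fun N hN => ?_⟩
  obtain ⟨k, h1, h2⟩ : ∃ k : ℕ, k ^ 4 ≤ N ∧ N < (k + 1) ^ 4 := by
    refine ⟨Nat.sqrt (Nat.sqrt N), ?_, ?_⟩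
    · set k := Nat.sqrt (Nat.sqrt N) with hk
      have a1 : k * k ≤ Nat.sqrt N := Nat.sqrt_le _
      have a2 : Nat.sqrt N * Nat.sqrt N ≤ N := Nat.sqrt_le _
      calc k ^ 4 = (k * k) * (k * k) := by ring
        _ ≤ Nat.sqrt N * Nat.sqrt N := Nat.mul_le_mul a1 a1
        _ ≤ N := a2
    · set k := Nat.sqrt (Nat.sqrt N) with hk
      have a1 : Nat.sqrt N < (k + 1) * (k + 1) := Nat.lt_succ_sqrt _
      have a2 : N < (Nat.sqrt N + 1) * (Nat.sqrt N + 1) := Nat.lt_succ_sqrt _
      calc N < (Nat.sqrt N + 1) * (Nat.sqrt N + 1) := a2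
        _ ≤ ((k + 1) * (k + 1)) * ((k + 1) * (k + 1)) := Nat.mul_le_mul a1 a1
        _ = _ := by ring
  have hkK : max K0 (max K1 1) ≤ k := by
    by_contra hcon
    have : (k + 1) ^ 4 ≤ (max K0 (max K1 1)) ^ 4 := Nat.pow_le_pow_left (by omega) 4
    omega
  have hk0 : K0 ≤ k := (le_max_left _ _).trans hkK
  have hk1 : K1 ≤ k := (le_trans (le_max_left _ _) (le_max_right _ _)).trans hkK
  have hk2 : 1 ≤ k := (le_trans (le_max_right _ _) (le_max_right _ _)).trans hkK
  have hkR : (1 : ℝ) ≤ k := by exact_mod_cast hk2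
  have hk4 : (0 : ℝ) < (k : ℝ) ^ 4 := by positivity
  have h3 := hK0 k hk0
  rw [Real.dist_eq, sub_zero] at h3 ⊢
  obtain ⟨d, rfl⟩ := Nat.exists_eq_add_of_le h1
  have h4 := hS2 (k ^ 4) d
  have hd : (d : ℝ) ≤ 15 * (k : ℝ) ^ 3 := by
    have h5 : k ^ 4 + d ≤ (k + 1) ^ 4 := h2.le
    have h6 : (k : ℝ) ^ 4 + d ≤ ((k : ℝ) + 1) ^ 4 := by exact_mod_cast h5
    have h7 : ((k : ℝ) + 1) ^ 4 = (k : ℝ) ^ 4 + 4 * (k : ℝ) ^ 3 + 6 * (k : ℝ) ^ 2 + 4 * k + 1 := by ring
    have h8 : (k : ℝ) ^ 2 ≤ (k : ℝ) ^ 3 := pow_le_pow_right₀ hkR (by norm_num)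
    have h9 : (k : ℝ) ≤ (k : ℝ) ^ 3 := by
      calc (k : ℝ) = (k : ℝ) ^ 1 := (pow_one _).symm
        _ ≤ _ := pow_le_pow_right₀ hkR (by norm_num)
    have h10 : (1 : ℝ) ≤ (k : ℝ) ^ 3 := one_le_pow₀ hkR
    linarith
  have hN0 : (0 : ℝ) < ((k ^ 4 + d : ℕ) : ℝ) := by push_cast; positivity
  have hNk : (k : ℝ) ^ 4 ≤ ((k ^ 4 + d : ℕ) : ℝ) := by
    push_cast
    have : (0 : ℝ) ≤ d := Nat.cast_nonneg d
    linarith
  rw [abs_div, abs_of_pos hN0, div_lt_iff₀ hN0]
  rw [abs_div, abs_of_pos hk4, div_lt_iff₀ hk4] at h3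
  have h11 : |S (k ^ 4 + d)| ≤ |S (k ^ 4)| + d := by
    have e : S (k ^ 4 + d) = (S (k ^ 4 + d) - S (k ^ 4)) + S (k ^ 4) := by ring
    rw [e]
    refine (abs_add_le _ _).trans ?_
    linarith
  have h12 : 15 * (k : ℝ) ^ 3 < ε / 2 * (k : ℝ) ^ 4 := by
    have h13 : 30 / ε < k := hK1.trans_le (by exact_mod_cast hk1)
    rw [div_lt_iff₀ hε] at h13
    have h14 : (0 : ℝ) < (k : ℝ) ^ 3 := by positivity
    nlinarith
  have h15 : ε * (k : ℝ) ^ 4 ≤ ε * ((k ^ 4 + d : ℕ) : ℝ) := mul_le_mul_of_nonneg_left hNk hε.le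
  linarith

/-- the strong law from variances -/
theorem slln {μ : Measure ℝ} [IsFiniteMeasure μ] {E : ℕ → Set ℝ} (hE : ∀ n, MeasurableSet (E n))
    {p : ℕ → ℝ} (hp : ∀ n, 0 ≤ p n ∧ p n ≤ 1) {C : ℝ}
    (h : ∀ᶠ k : ℕ in atTop, ∑ m ∈ range (k ^ 4), ∑ n ∈ range (k ^ 4),
      (μ.real (E m ∩ E n) - p m * μ.real (E n) - p n * μ.real (E m) +
        p m * p n * μ.real Set.univ) ≤ C * (k : ℝ) ^ 6) :
    ∀ᵐ x ∂μ, Tendsto (fun N : ℕ => (∑ n ∈ range N, ((E n).indicator (fun _ => (1 : ℝ)) x - p n)) / N)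
      atTop (𝓝 0) := by
  set f : ℕ → ℝ → ℝ := fun n x => (E n).indicator (fun _ => (1 : ℝ)) x - p n with hf
  have hfm : ∀ n, Measurable (f n) := fun n => (measurable_const.indicator (hE n)).sub_const _
  have hf1 : ∀ n x, |f n x| ≤ 1 := by
    intro n x
    simp only [hf]
    by_cases hx : x ∈ E n
    · rw [Set.indicator_of_mem hx, abs_le]
      constructor <;> linarith [(hp n).1, (hp n).2]
    · rw [Set.indicator_of_notMem hx, abs_le]
      constructor <;> linarith [(hp n).1, (hp n).2]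
  have hffi : ∀ m n, Integrable (fun x => f m x * f n x) μ := by
    intro m n
    refine Integrable.of_bound ((hfm m).mul (hfm n)).aestronglyMeasurable 1
      (Eventually.of_forall fun x => ?_)
    rw [Real.norm_eq_abs, abs_mul]
    exact mul_le_one₀ (hf1 m x) (abs_nonneg _) (hf1 n x)
  have hind : ∀ S : Set ℝ, MeasurableSet S → Integrable (S.indicator fun _ => (1 : ℝ)) μ :=
    fun S hS => (integrable_const (1 : ℝ)).indicator hS
  have hff : ∀ m n, ∫ x, f m x * f n x ∂μ = μ.real (E m ∩ E n) - p m * μ.real (E n) -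
      p n * μ.real (E m) + p m * p n * μ.real Set.univ := by
    intro m n
    have e : (fun x => f m x * f n x) = fun x => ((E m ∩ E n).indicator (fun _ => (1 : ℝ)) x -
        p m * (E n).indicator (fun _ => (1 : ℝ)) x - p n * (E m).indicator (fun _ => (1 : ℝ)) x) +
        p m * p n := by
      funext x
      simp only [hf]
      have e2 : (E m ∩ E n).indicator (fun _ => (1 : ℝ)) x =
          (E m).indicator (fun _ => (1 : ℝ)) x * (E n).indicator (fun _ => (1 : ℝ)) x := by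
        rw [← Set.inter_indicator_mul]; simp
      rw [e2]
      ring
    have i1 := hind _ ((hE m).inter (hE n))
    have i2 := (hind _ (hE n)).const_mul (p m)
    have i3 := (hind _ (hE m)).const_mul (p n)
    have i12 : Integrable (fun x => (E m ∩ E n).indicator (fun _ => (1 : ℝ)) x -
        p m * (E n).indicator (fun _ => (1 : ℝ)) x) μ := i1.sub i2
    have i123 : Integrable (fun x => (E m ∩ E n).indicator (fun _ => (1 : ℝ)) x -
        p m * (E n).indicator (fun _ => (1 : ℝ)) x - p n * (E m).indicator (fun _ => (1 : ℝ)) x) μ :=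
      i12.sub i3
    rw [e, integral_add i123 (integrable_const _), integral_sub i12 i3, integral_sub i1 i2,
      integral_const_mul, integral_const_mul, integral_indicator_const _ ((hE m).inter (hE n)),
      integral_indicator_const _ (hE m), integral_indicator_const _ (hE n), integral_const]
    simp only [smul_eq_mul, mul_one]
    ring
  set S : ℕ → ℝ → ℝ := fun N x => ∑ n ∈ range N, f n x with hSdef
  have hSm : ∀ N, Measurable (S N) := fun N => Finset.measurable_sum _ fun n _ => hfm n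
  have hSsq : ∀ N x, S N x ^ 2 = ∑ m ∈ range N, ∑ n ∈ range N, f m x * f n x := by
    intro N x
    rw [sq, hSdef, sum_mul_sum]
  have hSi : ∀ N, Integrable (fun x => S N x ^ 2) μ := by
    intro N
    simp_rw [hSsq]
    exact integrable_finsetSum _ fun m _ => integrable_finsetSum _ fun n _ => hffi m n
  have hint : ∀ N, ∫ x, S N x ^ 2 ∂μ = ∑ m ∈ range N, ∑ n ∈ range N,
      (μ.real (E m ∩ E n) - p m * μ.real (E n) - p n * μ.real (E m) +
        p m * p n * μ.real Set.univ) := by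
    intro N
    simp_rw [hSsq]
    rw [integral_finsetSum _ fun m _ => integrable_finsetSum _ fun n _ => hffi m n]
    refine sum_congr rfl fun m _ => ?_
    rw [integral_finsetSum _ fun n _ => hffi m n]
    exact sum_congr rfl fun n _ => hff m n
  have hkey := tz (μ := μ) (g := fun k x => S (k ^ 4) x ^ 2 / ((k : ℝ) ^ 4) ^ 2)
    (u := fun k : ℕ => C * (1 / (k : ℝ) ^ 2))
    (fun k => ((hSm _).pow_const 2).div_const _) (fun k x => by positivity)
    (fun k => (hSi _).div_const _) ((Real.summable_one_div_nat_pow.2 (by norm_num)).mul_left C)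
    (by
      filter_upwards [h, eventually_ge_atTop 1] with k hk hk1
      have hkR : (0 : ℝ) < k := by exact_mod_cast hk1
      rw [integral_div, hint, div_le_iff₀ (by positivity)]
      refine hk.trans (le_of_eq ?_)
      field_simp)
  filter_upwards [hkey] with x hx
  refine interp (S := fun N => S N x) ?_ ?_
  · intro n
    have : S (n + 1) x - S n x = f n x := by
      rw [hSdef]; simp only; rw [sum_range_succ]; ring
    rw [this]
    exact hf1 n x
  · have h1 : Tendsto (fun k : ℕ => |S (k ^ 4) x / (k : ℝ) ^ 4|) atTop (𝓝 0) := by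
      have h2 := (Real.continuous_sqrt.tendsto 0).comp hx
      rw [Real.sqrt_zero] at h2
      refine h2.congr fun k => ?_
      simp only [Function.comp_apply]
      rw [← div_pow, Real.sqrt_sq_eq_abs]
    exact (tendsto_zero_iff_abs_tendsto_zero _).2 h1

end Pool.Agent.K7.H13.KX
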