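import Pool.Agent.K7.H13.KX.Seq
import Pool.Agent.K7.H13.KX.Gen

/-! The frequency of the periodic events of growing depth. -/

set_option autoImplicit false

namespace Pool.Agent.K7.H13.KX

open Finset Filter Topology MeasureTheory Pool.Agent.Helper894.Collatz Pool.Agent.H828R3.Exc
  Pool.Agent.W36.SL

variable {l : ℕ → ℝ} {c : ℝ}

theorem Jn_tendsto : Tendsto Jn atTop atTop := by
  rw [tendsto_atTop]
  intro B
  filter_upwards [eventually_ge_atTop (2 ^ B)] with n hn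
  unfold Jn
  have : B ≤ Nat.log 2 (n + 2) := Nat.le_log_of_pow_le (by norm_num) (by omega)
  omega

attribute [local irreducible] Jn

/-- the event -/
def Ev (l : ℕ → ℝ) (lam : ℝ) (n : ℕ) : Set ℝ := fl (l n) (PP lam (Jn n))

theorem Ev_meas (l : ℕ → ℝ) (lam : ℝ) (n : ℕ) : MeasurableSet (Ev l lam n) := fl_meas _ _

theorem mem_Ev {l : ℕ → ℝ} {lam : ℝ} {n : ℕ} {x : ℝ} : x ∈ Ev l lam n ↔ PP lam (Jn n) ⌊l n * x⌋₊ := Iff.rfl

/-- its probability -/
noncomputable def pn (lam : ℝ) (n : ℕ) : ℝ := 1 - s (Jn n) lam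

theorem pn_nonneg (lam : ℝ) (n : ℕ) : 0 ≤ pn lam n := by
  unfold pn; have := s_le_one (Jn n) lam; linarith

theorem pn_le_one (lam : ℝ) (n : ℕ) : pn lam n ≤ 1 := by
  unfold pn; have := s_nonneg (Jn n) lam; linarith

theorem pn_eq (lam : ℝ) (n : ℕ) : dn (Jn n) (PP lam (Jn n)) = pn lam n := dn_PP _ _

theorem pn_tendsto (lam : ℝ) : Tendsto (pn lam) atTop (𝓝 (p lam)) := by
  have h := ((s_tendsto lam).comp Jn_tendsto).const_sub 1
  exact h

attribute [local irreducible] pn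

theorem Ev_up (hl : Lac l c) {a h : ℝ} (ha : 0 ≤ a) (hh : 0 < h) (lam : ℝ) (n : ℕ) :
    volume.real (Set.Ico a (a + h) ∩ Ev l lam n) ≤ (h + dl l n) * pn lam n := by
  have h1 := up1 ha hh (hl.lpos n) (PP_per lam (Jn n))
  rw [pn_eq] at h1
  refine h1.trans (le_of_eq ?_)
  have := hl.lpos n
  unfold dl
  field_simp
  ring

theorem Ev_lo (hl : Lac l c) {a h : ℝ} (ha : 0 ≤ a) (hh : 0 < h) (lam : ℝ) (n : ℕ) :
    (h - dl l n) * pn lam n ≤ volume.real (Set.Ico a (a + h) ∩ Ev l lam n) := by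
  have h1 := lo1 ha hh (hl.lpos n) (PP_per lam (Jn n))
  rw [pn_eq] at h1
  refine le_trans (le_of_eq ?_) h1
  have := hl.lpos n
  unfold dl
  field_simp
  ring

theorem Ev_pair (hl : Lac l c) {a h : ℝ} (ha : 0 ≤ a) (hh : 0 < h) (lam mu : ℝ) (m n : ℕ) :
    volume.real (Set.Ico a (a + h) ∩ Ev l lam m ∩ Ev l mu n) ≤
      (h + dl l m) * pn lam m * ((1 + (2 + 2 ^ Jn n) * l m / l n) * pn mu n) := by
  have h1 := pair ha hh (hl.lpos m) (hl.lpos n) (PP_per lam (Jn m)) (PP_per mu (Jn n))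
  rw [pn_eq, pn_eq] at h1
  refine h1.trans (le_of_eq ?_)
  have := hl.lpos m
  unfold dl
  congr 2
  field_simp
  ring

/-- the covariance -/
noncomputable def cv (l : ℕ → ℝ) (lam : ℝ) (I : Set ℝ) (m n : ℕ) : ℝ :=
  volume.real (I ∩ (Ev l lam m ∩ Ev l lam n)) - pn lam m * volume.real (I ∩ Ev l lam n) -
    pn lam n * volume.real (I ∩ Ev l lam m) + pn lam m * pn lam n * volume.real I

theorem cv_comm (l : ℕ → ℝ) (lam : ℝ) (I : Set ℝ) (m n : ℕ) : cv l lam I m n = cv l lam I n m := by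
  unfold cv
  rw [Set.inter_comm (Ev l lam m)]
  ring

theorem vol_I {a h : ℝ} (hh : 0 < h) : volume.real (Set.Ico a (a + h)) = h := by
  rw [Real.volume_real_Ico_of_le (by linarith)]; ring

theorem fin_I {a h : ℝ} (S : Set ℝ) : volume (Set.Ico a (a + h) ∩ S) ≠ ⊤ := by
  apply ne_of_lt
  refine (measure_mono Set.inter_subset_left).trans_lt ?_
  rw [Real.volume_Ico]
  exact ENNReal.ofReal_lt_top

theorem cv_triv {a h : ℝ} (hh : 0 < h) (lam : ℝ) (m n : ℕ) :
    cv l lam (Set.Ico a (a + h)) m n ≤ 2 * h := by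
  unfold cv
  rw [vol_I hh]
  have h1 : volume.real (Set.Ico a (a + h) ∩ (Ev l lam m ∩ Ev l lam n)) ≤ h := by
    refine (measureReal_mono Set.inter_subset_left ?_).trans (vol_I hh).le
    rw [Real.volume_Ico]; exact ENNReal.ofReal_ne_top
  have a1 := pn_nonneg lam m
  have a2 := pn_nonneg lam n
  have a3 := pn_le_one lam m
  have a4 := pn_le_one lam n
  have h2 : pn lam m * pn lam n * h ≤ h := by
    calc pn lam m * pn lam n * h ≤ 1 * 1 * h := by gcongr
      _ = h := by ring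
  have h3 : 0 ≤ pn lam m * volume.real (Set.Ico a (a + h) ∩ Ev l lam n) :=
    mul_nonneg a1 measureReal_nonneg
  have h4 : 0 ≤ pn lam n * volume.real (Set.Ico a (a + h) ∩ Ev l lam m) :=
    mul_nonneg a2 measureReal_nonneg
  linarith

theorem cv_far (hl : Lac l c) {a h D : ℝ} (ha : 0 ≤ a) (hh : 0 < h) (lam : ℝ) (m n : ℕ)
    (hD : dl l m ≤ D) {η : ℝ} (hη : (2 + 2 ^ Jn n) * l m / l n ≤ η) :
    cv l lam (Set.Ico a (a + h)) m n ≤ 2 * dl l m + dl l n + (h + D) * η := by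
  have h1 := Ev_pair hl ha hh lam lam m n
  have h2 := Ev_lo hl ha hh lam n
  have h3 := Ev_lo hl ha hh lam m
  unfold cv
  rw [vol_I hh, ← Set.inter_assoc]
  set P := pn lam m with hP
  set Q := pn lam n with hQ
  have a1 : 0 ≤ P := pn_nonneg lam m
  have a2 : 0 ≤ Q := pn_nonneg lam n
  have a3 : P ≤ 1 := pn_le_one lam m
  have a4 : Q ≤ 1 := pn_le_one lam n
  set e := (2 + 2 ^ Jn n) * l m / l n with he
  have he0 : 0 ≤ e := by
    have := hl.lpos m
    have := hl.lpos n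
    rw [he]; positivity
  have d1 := hl.dl_pos m
  have d2 := hl.dl_pos n
  have h4 := mul_le_mul_of_nonneg_left h2 a1
  have h5 := mul_le_mul_of_nonneg_left h3 a2
  have h6 : (h + dl l m) * P * ((1 + e) * Q) - P * ((h - dl l n) * Q) - Q * ((h - dl l m) * P) +
      P * Q * h = (P * Q) * (2 * dl l m + dl l n + (h + dl l m) * e) := by ring
  have h7 : P * Q ≤ 1 := mul_le_one₀ a3 a2 a4
  have h8 : 2 * dl l m + dl l n + (h + dl l m) * e ≤ 2 * dl l m + dl l n + (h + D) * η := by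
    have hD0 : 0 ≤ h + D := by linarith
    have : (h + dl l m) * e ≤ (h + D) * η := mul_le_mul (by linarith) hη he0 hD0
    linarith
  have h9 : 0 ≤ 2 * dl l m + dl l n + (h + dl l m) * e := by positivity
  have h10 : (P * Q) * (2 * dl l m + dl l n + (h + dl l m) * e) ≤
      1 * (2 * dl l m + dl l n + (h + dl l m) * e) := mul_le_mul_of_nonneg_right h7 h9
  linarith

theorem card_near (m k N : ℕ) :
    (((range N).filter fun n => m < n + k ^ 2 ∧ n < m + k ^ 2).card : ℝ) ≤ 2 * (k : ℝ) ^ 2 := by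
  have h1 : ((range N).filter fun n => m < n + k ^ 2 ∧ n < m + k ^ 2) ⊆ Ico (m + 1 - k ^ 2) (m + k ^ 2) := by
    intro n hn
    rw [mem_filter] at hn
    rw [mem_Ico]
    omega
  have h2 := card_le_card h1
  rw [Nat.card_Ico] at h2
  have h3 : ((range N).filter fun n => m < n + k ^ 2 ∧ n < m + k ^ 2).card ≤ 2 * k ^ 2 := by omega
  exact_mod_cast h3

theorem cv_sum (hl : Lac l c) {a h : ℝ} (ha : 0 ≤ a) (hh : 0 < h) (lam : ℝ) : ∃ C : ℝ,
    ∀ᶠ k : ℕ in atTop, ∑ m ∈ range (k ^ 4), ∑ n ∈ range (k ^ 4), cv l lam (Set.Ico a (a + h)) m n ≤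
      C * (k : ℝ) ^ 6 := by
  obtain ⟨D, hD⟩ := hl.dl_tendsto.bddAbove_range
  have hD' : ∀ n, dl l n ≤ D := fun n => hD ⟨n, rfl⟩
  have hD0 : 0 < D := (hl.dl_pos 0).trans_le (hD' 0)
  obtain ⟨T0, hT0⟩ : ∃ T0, T0 = ∑' n, dl l n := ⟨_, rfl⟩
  have hsum : ∀ N, ∑ n ∈ range N, dl l n ≤ T0 := by
    intro N
    rw [hT0]
    exact hl.dl_summable.sum_le_tsum _ fun n _ => (hl.dl_pos n).le
  have hT00 : 0 ≤ T0 := by have := hsum 0; simpa using this
  refine ⟨4 * h + 4 * T0 + (h + D), ?_⟩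
  filter_upwards [hl.far, eventually_ge_atTop 1] with k hk hk1
  have hkR : (1 : ℝ) ≤ k := by exact_mod_cast hk1
  have hbd : ∀ m ∈ range (k ^ 4), ∀ n ∈ range (k ^ 4), cv l lam (Set.Ico a (a + h)) m n ≤
      2 * h * (if m < n + k ^ 2 ∧ n < m + k ^ 2 then 1 else 0) + 2 * (dl l m + dl l n) +
      (h + D) * (1 / (k : ℝ) ^ 2) := by
    intro m hm n hn
    rw [mem_range] at hm hn
    have d1 := hl.dl_pos m
    have d2 := hl.dl_pos n
    have e0 : 0 ≤ (h + D) * (1 / (k : ℝ) ^ 2) := by positivity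
    by_cases hc : m < n + k ^ 2 ∧ n < m + k ^ 2
    · rw [if_pos hc]
      have := cv_triv (l := l) (a := a) hh lam m n
      linarith
    · rw [if_neg hc]
      rcases Nat.lt_or_ge m n with hmn | hmn
      · have := cv_far hl ha hh lam m n (hD' m) (hk m n hn (by omega))
        linarith
      · have := cv_far hl ha hh lam n m (hD' n) (hk n m hm (by omega))
        rw [cv_comm]
        linarith
  have hk2 : (1 : ℝ) ≤ (k : ℝ) ^ 2 := one_le_pow₀ hkR
  have hin : ∀ m ∈ range (k ^ 4), ∑ n ∈ range (k ^ 4), cv l lam (Set.Ico a (a + h)) m n ≤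
      4 * h * (k : ℝ) ^ 2 + 2 * (k : ℝ) ^ 4 * dl l m + 2 * T0 + (h + D) * (k : ℝ) ^ 2 := by
    intro m hm
    refine (sum_le_sum (hbd m hm)).trans ?_
    rw [sum_add_distrib, sum_add_distrib, ← mul_sum, ← mul_sum, sum_const, card_range,
      sum_boole, sum_add_distrib, sum_const, card_range, nsmul_eq_mul, nsmul_eq_mul]
    have h1 := card_near m k (k ^ 4)
    have h2 := hsum (k ^ 4)
    have h3 : 2 * h * (((range (k ^ 4)).filter fun n => m < n + k ^ 2 ∧ n < m + k ^ 2).card : ℝ) ≤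
        2 * h * (2 * (k : ℝ) ^ 2) := mul_le_mul_of_nonneg_left h1 (by linarith)
    have h4 : ((k ^ 4 : ℕ) : ℝ) * ((h + D) * (1 / (k : ℝ) ^ 2)) = (h + D) * (k : ℝ) ^ 2 := by
      push_cast; field_simp
    rw [h4]
    push_cast
    linarith
  calc ∑ m ∈ range (k ^ 4), ∑ n ∈ range (k ^ 4), cv l lam (Set.Ico a (a + h)) m n
      ≤ ∑ m ∈ range (k ^ 4), (4 * h * (k : ℝ) ^ 2 + 2 * (k : ℝ) ^ 4 * dl l m + 2 * T0 +
        (h + D) * (k : ℝ) ^ 2) := sum_le_sum hin
    _ = (k : ℝ) ^ 4 * (4 * h * (k : ℝ) ^ 2) + 2 * (k : ℝ) ^ 4 * ∑ m ∈ range (k ^ 4), dl l m +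
        (k : ℝ) ^ 4 * (2 * T0) + (k : ℝ) ^ 4 * ((h + D) * (k : ℝ) ^ 2) := by
        simp only [sum_add_distrib, ← mul_sum, sum_const, card_range, nsmul_eq_mul]
        push_cast
        ring
    _ ≤ _ := by
        have h2 := mul_le_mul_of_nonneg_left (hsum (k ^ 4)) (show (0 : ℝ) ≤ 2 * (k : ℝ) ^ 4 by positivity)
        have h5 : (k : ℝ) ^ 4 * T0 ≤ (k : ℝ) ^ 6 * T0 :=
          mul_le_mul_of_nonneg_right (pow_le_pow_right₀ hkR (by norm_num)) hT00
        have h6 : (k : ℝ) ^ 4 * (4 * h * (k : ℝ) ^ 2) = 4 * h * (k : ℝ) ^ 6 := by ring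
        have h7 : (k : ℝ) ^ 4 * ((h + D) * (k : ℝ) ^ 2) = (h + D) * (k : ℝ) ^ 6 := by ring
        rw [h6, h7]
        linarith

open Classical in
/-- almost every `x` has the expected frequency -/
theorem freq (hl : Lac l c) {a h : ℝ} (ha : 0 ≤ a) (hh : 0 < h) (lam : ℝ) :
    ∀ᵐ x ∂(volume.restrict (Set.Ico a (a + h))),
      Tendsto (fun N : ℕ => (((range N).filter fun n => PP lam (Jn n) ⌊l n * x⌋₊).card : ℝ) / N) atTop
        (𝓝 (p lam)) := by
  obtain ⟨C, hC⟩ := cv_sum hl ha hh lam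
  have : IsFiniteMeasure (volume.restrict (Set.Ico a (a + h))) :=
    ⟨by rw [Measure.restrict_apply_univ, Real.volume_Ico]; exact ENNReal.ofReal_lt_top⟩
  have hr : ∀ S : Set ℝ, MeasurableSet S →
      (volume.restrict (Set.Ico a (a + h))).real S = volume.real (Set.Ico a (a + h) ∩ S) := by
    intro S hS
    rw [measureReal_restrict_apply hS, Set.inter_comm]
  have h1 := slln (μ := volume.restrict (Set.Ico a (a + h))) (E := Ev l lam) (Ev_meas l lam)
    (p := pn lam) (fun n => ⟨pn_nonneg lam n, pn_le_one lam n⟩) (C := C) (by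
      filter_upwards [hC] with k hk
      refine le_trans (le_of_eq ?_) hk
      refine sum_congr rfl fun m _ => sum_congr rfl fun n _ => ?_
      unfold cv
      rw [hr _ ((Ev_meas l lam m).inter (Ev_meas l lam n)), hr _ (Ev_meas l lam m),
        hr _ (Ev_meas l lam n), hr _ MeasurableSet.univ, Set.inter_univ])
  have hpn := pn_tendsto lam
  have hces := hpn.cesaro
  filter_upwards [h1] with x hx
  have h2 := hx.add hces
  rw [zero_add] at h2
  refine h2.congr fun N => ?_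
  rw [sum_sub_distrib]
  have e : ∑ n ∈ range N, (Ev l lam n).indicator (fun _ => (1 : ℝ)) x =
      (((range N).filter fun n => PP lam (Jn n) ⌊l n * x⌋₊).card : ℝ) := by
    rw [card_filter]
    push_cast
    refine sum_congr rfl fun n _ => ?_
    rw [Set.indicator_apply]
    rfl
  rw [e, sub_div, div_eq_inv_mul (∑ i ∈ range N, pn lam i), sub_add_cancel]

end Pool.Agent.K7.H13.KX
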