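import Pool.Agent.K7.H13.KX.Gen

/-! A quantitative Borel-Cantelli lemma. -/

set_option autoImplicit false

namespace Pool.Agent.K7.H13.KX

open Finset MeasureTheory Filter Topology

theorem interp2 {Z W : ℕ → ℝ} (hZ : Monotone Z) (hZ0 : ∀ n, 0 ≤ Z n) (hW : Monotone W)
    (hWt : Tendsto W atTop atTop) {Nk : ℕ → ℕ} (h1 : ∀ k : ℕ, (k : ℝ) ^ 2 ≤ W (Nk k))
    (h2 : ∀ k N : ℕ, (k : ℝ) ^ 2 ≤ W N → Nk k ≤ N) {v : ℝ}
    (h : Tendsto (fun k : ℕ => Z (Nk k) / (k : ℝ) ^ 2) atTop (𝓝 v)) :
    Tendsto (fun N => Z N / W N) atTop (𝓝 v) := by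
  set kk : ℕ → ℕ := fun N => ⌊Real.sqrt (W N)⌋₊ with hkk
  have hkt : Tendsto kk atTop atTop := tendsto_nat_floor_atTop.comp (Real.tendsto_sqrt_atTop.comp hWt)
  have hr : Tendsto (fun k : ℕ => ((k : ℝ) / (k + 1)) ^ 2) atTop (𝓝 1) := by
    have := (tendsto_natCast_div_add_atTop (1 : ℝ)).pow 2
    rwa [one_pow] at this
  have hlow : Tendsto (fun k : ℕ => Z (Nk k) / ((k : ℝ) + 1) ^ 2) atTop (𝓝 v) := by
    have h3 := h.mul hr
    rw [mul_one] at h3
    refine h3.congr' ?_
    filter_upwards [eventually_ge_atTop 1] with k hk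
    have : (0 : ℝ) < k := by exact_mod_cast hk
    field_simp
  have hup : Tendsto (fun k : ℕ => Z (Nk (k + 1)) / (k : ℝ) ^ 2) atTop (𝓝 v) := by
    have h3 := (h.comp (tendsto_add_atTop_nat 1)).div hr one_ne_zero
    rw [div_one] at h3
    refine h3.congr' ?_
    filter_upwards [eventually_ge_atTop 1] with k hk
    have : (0 : ℝ) < k := by exact_mod_cast hk
    simp only [Pi.div_apply, Function.comp_apply]
    push_cast
    field_simp
  refine tendsto_of_tendsto_of_tendsto_of_le_of_le' (hlow.comp hkt) (hup.comp hkt) ?_ ?_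
  · filter_upwards [hWt.eventually_ge_atTop 1] with N hN
    simp only [Function.comp_apply]
    have hs1 : (kk N : ℝ) ≤ Real.sqrt (W N) := Nat.floor_le (Real.sqrt_nonneg _)
    have hs2 : Real.sqrt (W N) < (kk N : ℝ) + 1 := Nat.lt_floor_add_one _
    have hW0 : 0 < W N := by linarith
    have hsq : Real.sqrt (W N) ^ 2 = W N := Real.sq_sqrt hW0.le
    have e1 : (kk N : ℝ) ^ 2 ≤ W N := by
      rw [← hsq]; exact pow_le_pow_left₀ (Nat.cast_nonneg _) hs1 2
    have e2 : W N ≤ ((kk N : ℝ) + 1) ^ 2 := by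
      rw [← hsq]; exact pow_le_pow_left₀ (Real.sqrt_nonneg _) hs2.le 2
    calc Z (Nk (kk N)) / ((kk N : ℝ) + 1) ^ 2 ≤ Z N / ((kk N : ℝ) + 1) ^ 2 :=
          div_le_div_of_nonneg_right (hZ (h2 _ _ e1)) (by positivity)
      _ ≤ Z N / W N := div_le_div_of_nonneg_left (hZ0 N) hW0 e2
  · filter_upwards [hWt.eventually_ge_atTop 1] with N hN
    simp only [Function.comp_apply]
    have hs1 : (kk N : ℝ) ≤ Real.sqrt (W N) := Nat.floor_le (Real.sqrt_nonneg _)
    have hs2 : Real.sqrt (W N) < (kk N : ℝ) + 1 := Nat.lt_floor_add_one _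
    have hW0 : 0 < W N := by linarith
    have hsq : Real.sqrt (W N) ^ 2 = W N := Real.sq_sqrt hW0.le
    have hk1 : 1 ≤ kk N := (Nat.one_le_floor_iff _).2 (by rw [Real.one_le_sqrt]; exact hN)
    have hkR : (1 : ℝ) ≤ kk N := by exact_mod_cast hk1
    have e1 : (kk N : ℝ) ^ 2 ≤ W N := by
      rw [← hsq]; exact pow_le_pow_left₀ (Nat.cast_nonneg _) hs1 2
    have e2 : W N < ((kk N : ℝ) + 1) ^ 2 := by
      rw [← hsq]; exact pow_lt_pow_left₀ hs2 (Real.sqrt_nonneg _) (by norm_num)
    have e3 : N ≤ Nk (kk N + 1) := by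
      by_contra hcon
      have h3 := hW (not_le.1 hcon).le
      have h4 := h1 (kk N + 1)
      push_cast at h4
      linarith
    calc Z N / W N ≤ Z N / (kk N : ℝ) ^ 2 := div_le_div_of_nonneg_left (hZ0 N) (by positivity) e1
      _ ≤ Z (Nk (kk N + 1)) / (kk N : ℝ) ^ 2 :=
          div_le_div_of_nonneg_right (hZ e3) (by positivity)

/-- the variance of a sum of indicators -/
theorem var_eq {μ : Measure ℝ} [IsFiniteMeasure μ] {E : ℕ → Set ℝ} (hE : ∀ n, MeasurableSet (E n))
    {p : ℕ → ℝ} (hp : ∀ n, 0 ≤ p n ∧ p n ≤ 1) (N : ℕ) :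
    Integrable (fun x => (∑ n ∈ range N, ((E n).indicator (fun _ => (1 : ℝ)) x - p n)) ^ 2) μ ∧
    ∫ x, (∑ n ∈ range N, ((E n).indicator (fun _ => (1 : ℝ)) x - p n)) ^ 2 ∂μ =
      ∑ m ∈ range N, ∑ n ∈ range N, (μ.real (E m ∩ E n) - p m * μ.real (E n) - p n * μ.real (E m) +
        p m * p n * μ.real Set.univ) := by
  set f : ℕ → ℝ → ℝ := fun n x => (E n).indicator (fun _ => (1 : ℝ)) x - p n with hf
  have hfm : ∀ n, Measurable (f n) := fun n => (measurable_const.indicator (hE n)).sub_const _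
  have hf1 : ∀ n x, |f n x| ≤ 1 := by
    intro n x
    simp only [hf]
    by_cases hx : x ∈ E n
    · rw [Set.indicator_of_mem hx, abs_le]
      constructor <;> linarith [(hp n).1, (hp n).2]
    · rw [Set.indicator_of_notMem hx, abs_le]
      constructor <;> linarith [(hp n).1, (hp n).2]
  have hffi : ∀ m n, Integrable (fun x => f m x * f n x) μ := by
    intro m n
    refine Integrable.of_bound ((hfm m).mul (hfm n)).aestronglyMeasurable 1
      (Eventually.of_forall fun x => ?_)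
    rw [Real.norm_eq_abs, abs_mul]
    exact mul_le_one₀ (hf1 m x) (abs_nonneg _) (hf1 n x)
  have hind : ∀ S : Set ℝ, MeasurableSet S → Integrable (S.indicator fun _ => (1 : ℝ)) μ :=
    fun S hS => (integrable_const (1 : ℝ)).indicator hS
  have hff : ∀ m n, ∫ x, f m x * f n x ∂μ = μ.real (E m ∩ E n) - p m * μ.real (E n) -
      p n * μ.real (E m) + p m * p n * μ.real Set.univ := by
    intro m n
    have e : (fun x => f m x * f n x) = fun x => ((E m ∩ E n).indicator (fun _ => (1 : ℝ)) x -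
        p m * (E n).indicator (fun _ => (1 : ℝ)) x - p n * (E m).indicator (fun _ => (1 : ℝ)) x) +
        p m * p n := by
      funext x
      simp only [hf]
      have e2 : (E m ∩ E n).indicator (fun _ => (1 : ℝ)) x =
          (E m).indicator (fun _ => (1 : ℝ)) x * (E n).indicator (fun _ => (1 : ℝ)) x := by
        rw [← Set.inter_indicator_mul]; simp
      rw [e2]
      ring
    have i1 := hind _ ((hE m).inter (hE n))
    have i2 := (hind _ (hE n)).const_mul (p m)
    have i3 := (hind _ (hE m)).const_mul (p n)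
    have i12 : Integrable (fun x => (E m ∩ E n).indicator (fun _ => (1 : ℝ)) x -
        p m * (E n).indicator (fun _ => (1 : ℝ)) x) μ := i1.sub i2
    have i123 : Integrable (fun x => (E m ∩ E n).indicator (fun _ => (1 : ℝ)) x -
        p m * (E n).indicator (fun _ => (1 : ℝ)) x - p n * (E m).indicator (fun _ => (1 : ℝ)) x) μ :=
      i12.sub i3
    rw [e, integral_add i123 (integrable_const _), integral_sub i12 i3, integral_sub i1 i2,
      integral_const_mul, integral_const_mul, integral_indicator_const _ ((hE m).inter (hE n)),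
      integral_indicator_const _ (hE m), integral_indicator_const _ (hE n), integral_const]
    simp only [smul_eq_mul, mul_one]
    ring
  have hSsq : ∀ x, (∑ n ∈ range N, f n x) ^ 2 = ∑ m ∈ range N, ∑ n ∈ range N, f m x * f n x := by
    intro x
    rw [sq, sum_mul_sum]
  constructor
  · change Integrable (fun x => (∑ n ∈ range N, f n x) ^ 2) μ
    simp_rw [hSsq]
    exact integrable_finsetSum _ fun m _ => integrable_finsetSum _ fun n _ => hffi m n
  · change ∫ x, (∑ n ∈ range N, f n x) ^ 2 ∂μ = _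
    simp_rw [hSsq]
    rw [integral_finsetSum _ fun m _ => integrable_finsetSum _ fun n _ => hffi m n]
    refine sum_congr rfl fun m _ => ?_
    rw [integral_finsetSum _ fun n _ => hffi m n]
    exact sum_congr rfl fun n _ => hff m n

/-- the quantitative Borel-Cantelli lemma -/
theorem qbc {μ : Measure ℝ} [IsFiniteMeasure μ] {E : ℕ → Set ℝ} (hE : ∀ n, MeasurableSet (E n))
    {p w : ℕ → ℝ} (hp : ∀ n, 0 ≤ p n ∧ p n ≤ 1) (hw : ∀ n, 0 ≤ w n ∧ w n ≤ 1)
    (hns : ¬ Summable w) {K : ℝ} (hK : 0 < K)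
    (h : ∀ N : ℕ, ∑ m ∈ range N, ∑ n ∈ range N,
      (μ.real (E m ∩ E n) - p m * μ.real (E n) - p n * μ.real (E m) +
        p m * p n * μ.real Set.univ) ≤ K * ∑ n ∈ range N, w n) {v : ℝ}
    (hv : Tendsto (fun N => (∑ n ∈ range N, p n) / ∑ n ∈ range N, w n) atTop (𝓝 v)) :
    ∀ᵐ x ∂μ, Tendsto (fun N : ℕ => (∑ n ∈ range N, (E n).indicator (fun _ => (1 : ℝ)) x) /
      ∑ n ∈ range N, w n) atTop (𝓝 v) := by
  classical
  set W : ℕ → ℝ := fun N => ∑ n ∈ range N, w n with hWdef
  have hWmono : Monotone W := by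
    apply monotone_nat_of_le_succ
    intro n
    simp only [hWdef]
    rw [sum_range_succ]
    linarith [(hw n).1]
  have hWt : Tendsto W atTop atTop := (not_summable_iff_tendsto_nat_atTop_of_nonneg fun n => (hw n).1).1 hns
  have hWle : ∀ N, W N ≤ N := by
    intro N
    calc W N ≤ ∑ n ∈ range N, (1 : ℝ) := sum_le_sum fun n _ => (hw n).2
      _ = N := by simp
  have hex : ∀ k : ℕ, ∃ N, (k : ℝ) ^ 2 ≤ W N := fun k => (hWt.eventually_ge_atTop ((k : ℝ) ^ 2)).exists
  set Nk : ℕ → ℕ := fun k => Nat.find (hex k) with hNk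
  have h1 : ∀ k : ℕ, (k : ℝ) ^ 2 ≤ W (Nk k) := fun k => Nat.find_spec (hex k)
  have h2 : ∀ k N : ℕ, (k : ℝ) ^ 2 ≤ W N → Nk k ≤ N := fun k N hN => Nat.find_min' (hex k) hN
  have h3 : ∀ k : ℕ, W (Nk k) ≤ (k : ℝ) ^ 2 + 1 := by
    intro k
    rcases Nat.eq_zero_or_pos (Nk k) with h0 | h0
    · rw [h0]
      simp only [hWdef, range_zero, sum_empty]
      positivity
    · obtain ⟨j, hj⟩ := Nat.exists_eq_succ_of_ne_zero (Nat.pos_iff_ne_zero.1 h0)
      have h4 : ¬ (k : ℝ) ^ 2 ≤ W j := Nat.find_min (hex k) (by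
        have : Nk k = j.succ := hj
        simp only [hNk] at this
        omega)
      rw [hj]
      simp only [hWdef, Nat.succ_eq_add_one, sum_range_succ] at h4 ⊢
      linarith [(hw j).2, not_le.1 h4]
  have hNt : Tendsto Nk atTop atTop := by
    rw [tendsto_atTop]
    intro B
    filter_upwards [eventually_ge_atTop (B + 1)] with k hk
    have h4 := (h1 k).trans (hWle _)
    have h5 : k ^ 2 ≤ Nk k := by exact_mod_cast h4
    have h6 : k ≤ k ^ 2 := Nat.le_self_pow (by norm_num) k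
    omega
  have hWk : Tendsto (fun k : ℕ => W (Nk k) / (k : ℝ) ^ 2) atTop (𝓝 1) := by
    have h5 : Tendsto (fun k : ℕ => 1 + 1 / (k : ℝ) ^ 2) atTop (𝓝 (1 + 0)) := by
      apply Tendsto.const_add
      exact (Real.summable_one_div_nat_pow.2 (by norm_num)).tendsto_atTop_zero
    rw [add_zero] at h5
    refine tendsto_of_tendsto_of_tendsto_of_le_of_le' tendsto_const_nhds h5 ?_ ?_
    · filter_upwards [eventually_ge_atTop 1] with k hk
      have : (0 : ℝ) < k := by exact_mod_cast hk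
      rw [le_div_iff₀ (by positivity), one_mul]
      exact h1 k
    · filter_upwards [eventually_ge_atTop 1] with k hk
      have : (0 : ℝ) < k := by exact_mod_cast hk
      rw [div_le_iff₀ (by positivity)]
      have h6 : (1 + 1 / (k : ℝ) ^ 2) * (k : ℝ) ^ 2 = (k : ℝ) ^ 2 + 1 := by field_simp
      rw [h6]
      exact h3 k
  have hPk : Tendsto (fun k : ℕ => (∑ n ∈ range (Nk k), p n) / (k : ℝ) ^ 2) atTop (𝓝 v) := by
    have h5 := (hv.comp hNt).mul hWk
    rw [mul_one] at h5
    refine h5.congr' ?_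
    filter_upwards [eventually_ge_atTop 1] with k hk
    have hk0 : (0 : ℝ) < k := by exact_mod_cast hk
    have h6 : 0 < W (Nk k) := lt_of_lt_of_le (by positivity) (h1 k)
    simp only [Function.comp_apply]
    change (∑ n ∈ range (Nk k), p n) / W (Nk k) * (W (Nk k) / (k : ℝ) ^ 2) = _
    field_simp
  have hve := fun N => var_eq (μ := μ) hE hp N
  have hfm : ∀ n, Measurable fun x => (E n).indicator (fun _ => (1 : ℝ)) x - p n :=
    fun n => (measurable_const.indicator (hE n)).sub_const _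
  have hkey := tz (μ := μ) (g := fun k x =>
      (∑ n ∈ range (Nk k), ((E n).indicator (fun _ => (1 : ℝ)) x - p n)) ^ 2 / ((k : ℝ) ^ 2) ^ 2)
    (u := fun k : ℕ => 2 * K * (1 / (k : ℝ) ^ 2))
    (fun k => ((Finset.measurable_sum _ fun n _ => hfm n).pow_const 2).div_const _)
    (fun k x => by positivity)
    (fun k => (hve _).1.div_const _) ((Real.summable_one_div_nat_pow.2 (by norm_num)).mul_left _)
    (by
      filter_upwards [eventually_ge_atTop 1] with k hk1
      have hkR : (1 : ℝ) ≤ k := by exact_mod_cast hk1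
      have hk2 : (1 : ℝ) ≤ (k : ℝ) ^ 2 := one_le_pow₀ hkR
      rw [integral_div, (hve _).2, div_le_iff₀ (by positivity)]
      refine (h _).trans ?_
      have h6 : K * W (Nk k) ≤ K * ((k : ℝ) ^ 2 + 1) := mul_le_mul_of_nonneg_left (h3 k) hK.le
      have h7 : 2 * K * (1 / (k : ℝ) ^ 2) * ((k : ℝ) ^ 2) ^ 2 = 2 * K * (k : ℝ) ^ 2 := by field_simp
      rw [h7]
      refine h6.trans ?_
      nlinarith)
  filter_upwards [hkey] with x hx
  refine interp2 (Z := fun N => ∑ n ∈ range N, (E n).indicator (fun _ => (1 : ℝ)) x) (W := W) ?_ ?_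
    hWmono hWt h1 h2 ?_
  · apply monotone_nat_of_le_succ
    intro n
    rw [sum_range_succ]
    have : 0 ≤ (E n).indicator (fun _ => (1 : ℝ)) x := Set.indicator_nonneg (fun _ _ => zero_le_one) x
    linarith
  · intro n
    exact sum_nonneg fun n _ => Set.indicator_nonneg (fun _ _ => zero_le_one) x
  · have h5 : Tendsto (fun k : ℕ => |(∑ n ∈ range (Nk k), ((E n).indicator (fun _ => (1 : ℝ)) x - p n)) /
        (k : ℝ) ^ 2|) atTop (𝓝 0) := by
      have h6 := (Real.continuous_sqrt.tendsto 0).comp hx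
      rw [Real.sqrt_zero] at h6
      refine h6.congr fun k => ?_
      simp only [Function.comp_apply]
      rw [← div_pow, Real.sqrt_sq_eq_abs]
    have h6 := ((tendsto_zero_iff_abs_tendsto_zero _).2 h5).add hPk
    rw [zero_add] at h6
    refine h6.congr fun k => ?_
    rw [← add_div]
    congr 1
    rw [sum_sub_distrib]; ring

end Pool.Agent.K7.H13.KX
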