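import Pool.Agent.K7.H13.KX.Late

/-! The limit law along a lacunary sequence. -/

set_option autoImplicit false

namespace Pool.Agent.K7.H13.KX

open Finset Filter Topology MeasureTheory Pool.Agent.Helper894.Collatz Pool.Agent.H828R3.Exc
  Pool.Agent.W36.SL

attribute [local irreducible] Jn

variable {l : ℕ → ℝ} {c : ℝ}

theorem er_pos (k x : ℕ) : 0 < od k x → 0 < er k x := by
  induction k with
  | zero => intro h; simp [od] at h
  | succ k ih =>
    intro h
    rw [od_succ] at h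
    rw [er_succ]
    split_ifs with h2
    · apply ih; omega
    · positivity

theorem iter_gt {lam : ℝ} (hlam : 1 < lam) {j x : ℕ} (h : lam ≤ MM j x) : lam * x < (T^[j] x : ℕ) := by
  have hod : 0 < od j x := by
    by_contra hcon
    have h0 : od j x = 0 := by omega
    unfold MM at h
    rw [h0, pow_zero] at h
    have : (1 : ℝ) / 2 ^ j ≤ 1 := by
      rw [div_le_one (by positivity)]; exact one_le_pow₀ (by norm_num)
    linarith
  have h1 := er_pos j x hod
  have h2 := iter_eq j x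
  have h3 : (3 : ℝ) ^ od j x * x < 2 ^ j * (T^[j] x : ℕ) := by
    have : 3 ^ od j x * x < 2 ^ j * T^[j] x := by omega
    exact_mod_cast this
  calc lam * x ≤ MM j x * x := mul_le_mul_of_nonneg_right h (Nat.cast_nonneg _)
    _ < _ := by
      unfold MM
      rw [div_mul_eq_mul_div, div_lt_iff₀ (by positivity)]
      linarith

theorem Exc_anti {lam lam' Y Y' : ℝ} {x : ℕ} (h1 : lam' ≤ lam) (h2 : Y' ≤ Y) (h : Exc lam Y x) :
    Exc lam' Y' x := by
  obtain ⟨k, hk1, hk2⟩ := h
  exact ⟨k, lt_of_le_of_lt (mul_le_mul_of_nonneg_right h1 (Nat.cast_nonneg _)) hk1,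
    fun j hj => lt_of_le_of_lt h2 (hk2 j hj)⟩

theorem PP_Exc {lam Y : ℝ} (hlam : 1 < lam) {J x : ℕ} (h : PP lam J x) (hY : 2 ^ J * Y < x) :
    Exc lam Y x := by
  obtain ⟨j, hj, h⟩ := h
  rw [ge_iff] at h
  refine ⟨j, iter_gt hlam h, fun i hi => ?_⟩
  have h1 := iter_ge i x
  have h2 : (1 : ℝ) / 2 ^ J ≤ MM i x := by
    unfold MM
    apply div_le_div₀ (by positivity) (one_le_pow₀ (by norm_num)) (by positivity)
    exact pow_le_pow_right₀ (by norm_num) (by omega)
  have h3 : (1 : ℝ) / 2 ^ J * x ≤ MM i x * x := mul_le_mul_of_nonneg_right h2 (Nat.cast_nonneg _)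
  have h4 : Y < (1 : ℝ) / 2 ^ J * x := by
    rw [div_mul_eq_mul_div, one_mul, lt_div_iff₀ (by positivity)]
    linarith
  linarith

/-- the integer part -/
noncomputable def xn (l : ℕ → ℝ) (α : ℝ) (n : ℕ) : ℕ := ⌊l n * α⌋₊

theorem scale (hl : Lac l c) {a h θ : ℝ} (ha : 0 < a) (hh : 0 < h) (hθ : 0 < θ) :
    ∀ᶠ n in atTop, 1 ≤ l n * a ∧ 2 / l n ≤ 1 ∧ ∀ x ∈ Set.Ico a (a + h),
      1 ≤ xn l x n ∧ xn l x n ≤ ⌊l n * (a + h)⌋₊ ∧ (l n * (a + h)) ^ (θ / 2) ≤ ((xn l x n : ℕ) : ℝ) ^ θ := by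
  filter_upwards [hl.l_tendsto.eventually_ge_atTop (2 / a), hl.l_tendsto.eventually_ge_atTop 2,
    hl.l_tendsto.eventually_ge_atTop (4 * (a + h) / a ^ 2)] with n h1 h0 h2
  have hln := hl.lpos n
  rw [div_le_iff₀ ha] at h1
  rw [div_le_iff₀ (by positivity)] at h2
  refine ⟨by linarith, by rw [div_le_one hln]; exact h0, fun x hx => ?_⟩
  have h3 : l n * a ≤ l n * x := mul_le_mul_of_nonneg_left hx.1 hln.le
  have h4 : l n * x ≤ l n * (a + h) := mul_le_mul_of_nonneg_left hx.2.le hln.le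
  have h5 : l n * a / 2 ≤ ((xn l x n : ℕ) : ℝ) := by
    have := Nat.lt_floor_add_one (l n * x)
    unfold xn
    linarith
  refine ⟨(Nat.one_le_floor_iff _).2 (by linarith), Nat.floor_le_floor h4, ?_⟩
  have h6 : l n * (a + h) ≤ (l n * a / 2) ^ 2 := by nlinarith
  have h7 : 0 < l n * a / 2 := by positivity
  calc (l n * (a + h)) ^ (θ / 2) ≤ ((l n * a / 2) ^ 2) ^ (θ / 2) :=
        Real.rpow_le_rpow (by positivity) h6 (by positivity)
    _ = (l n * a / 2) ^ θ := by
        rw [← Real.rpow_natCast, ← Real.rpow_mul h7.le]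
        congr 1
        push_cast; ring
    _ ≤ _ := Real.rpow_le_rpow h7.le h5 hθ.le

open Classical in
theorem vol_cnt {a h l : ℝ} (hl : 0 < l) (ha : 1 ≤ l * a) (P : ℕ → Prop) :
    volume.real (Set.Ico a (a + h) ∩ fl l P) ≤ (((Icc 1 ⌊l * (a + h)⌋₊).filter P).card : ℝ) / l := by
  have ha0 : 0 < a := by
    by_contra hcon
    have : l * a ≤ 0 := mul_nonpos_of_nonneg_of_nonpos hl.le (not_lt.1 hcon)
    linarith
  have hsub : Set.Ico a (a + h) ∩ fl l P ⊆ ⋃ m ∈ (Icc 1 ⌊l * (a + h)⌋₊).filter P, cell l m := by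
    rintro x ⟨hx1, hx2⟩
    rw [Set.mem_iUnion₂]
    refine ⟨⌊l * x⌋₊, ?_, (mem_cell hl (ha0.le.trans hx1.1) _).2 rfl⟩
    rw [mem_filter, mem_Icc]
    have h3 : l * a ≤ l * x := mul_le_mul_of_nonneg_left hx1.1 hl.le
    have h4 : l * x ≤ l * (a + h) := mul_le_mul_of_nonneg_left hx1.2.le hl.le
    exact ⟨⟨(Nat.one_le_floor_iff _).2 (by linarith), Nat.floor_le_floor h4⟩, hx2⟩
  have h1 : volume.real (Set.Ico a (a + h) ∩ fl l P) ≤
      volume.real (⋃ m ∈ (Icc 1 ⌊l * (a + h)⌋₊).filter P, cell l m) := by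
    refine measureReal_mono hsub (ne_of_lt ?_)
    refine (measure_biUnion_finset_le _ _).trans_lt ?_
    apply ENNReal.sum_lt_top.2
    intro i _
    unfold cell
    rw [Real.volume_Ico]
    exact ENNReal.ofReal_lt_top
  have h2 := real_union_le ((Icc 1 ⌊l * (a + h)⌋₊).filter P) (cell l) (X := 1 / l)
    (fun i _ => (vol_cell hl i).le)
  refine (h1.trans h2).trans (le_of_eq ?_)
  ring

theorem fin_rest (a h : ℝ) : IsFiniteMeasure ((volume : Measure ℝ).restrict (Set.Ico a (a + h))) :=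
  ⟨by rw [Measure.restrict_apply_univ, Real.volume_Ico]; exact ENNReal.ofReal_lt_top⟩

/-- almost surely the excursions are visible in the first steps, eventually -/
theorem late_ae (hl : Lac l c) {a h θ lam lam' : ℝ} (ha : 0 < a) (hh : 0 < h) (hθ : 0 < θ)
    (hlam : 1 ≤ lam) (hlam0 : 0 < lam') (hlam' : lam' < lam) :
    ∀ᵐ x ∂(volume.restrict (Set.Ico a (a + h))), ∀ᶠ n in atTop,
      Exc lam (((xn l x n : ℕ) : ℝ) ^ θ) (xn l x n) → PP lam' (Jn n) (xn l x n) := by
  classical
  have := fin_rest a h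
  set e : ℝ := lam / lam' - 1 with he
  have he0 : 0 < e := by
    rw [he, sub_pos, lt_div_iff₀ hlam0]; linarith
  have hle : lam / (1 + e) = lam' := by
    have h1 : 1 + e = lam / lam' := by rw [he]; ring
    rw [h1, div_div_cancel₀ (by linarith)]
  obtain ⟨ε, hε, hlate⟩ := late_asym (show 0 < θ / 2 by linarith) he0
  have hX : Tendsto (fun n => l n * (a + h)) atTop atTop := hl.l_tendsto.atTop_mul_const (by linarith)
  set B : ℝ := (2 * h + a + 1) / Real.sqrt lam' with hB
  have hs : 0 < Real.sqrt lam' := Real.sqrt_pos.2 hlam0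
  -- the summable bound
  have hu : Summable fun n : ℕ => (a + h) * ((a + h) ^ (-ε) * (l n) ^ (-ε)) + B * (1 / ((n : ℝ) + 2) ^ 3) := by
    apply Summable.add
    · exact ((hl.rpow_summable hε).mul_left _).mul_left _
    · apply Summable.mul_left
      have h1 : Summable fun n : ℕ => 1 / (n : ℝ) ^ 3 := Real.summable_one_div_nat_pow.2 (by norm_num)
      refine ((summable_nat_add_iff 2).2 h1).congr fun n => ?_
      push_cast; rfl
  have hbc := bc (μ := volume.restrict (Set.Ico a (a + h)))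
    (S := fun n => {x | x ∈ Set.Ico a (a + h) ∧ Exc lam (((xn l x n : ℕ) : ℝ) ^ θ) (xn l x n) ∧
      ¬ PP lam' (Jn n) (xn l x n)}) hu (by
    filter_upwards [hX.eventually hlate, scale hl ha hh hθ] with n hn hsc
    obtain ⟨J, hJ, hcnt⟩ := hn
    obtain ⟨hsc1, hsc2, hsc3⟩ := hsc
    have hln := hl.lpos n
    have hX0 : 0 < l n * (a + h) := by positivity
    set Y0 : ℝ := (l n * (a + h)) ^ (θ / 2) with hY0
    have hc1 := hcnt Y0 lam le_rfl hlam
    rw [hle] at hc1
    set A1 := Set.Ico a (a + h) ∩ fl (l n) (fun y => Exc lam Y0 y ∧ ¬ PP lam' J y) with hA1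
    set A2 := Set.Ico a (a + h) ∩ fl (l n) (fun y => PP lam' J y ∧ ¬ PP lam' (Jn n) y) with hA2
    have hsub : {x | x ∈ Set.Ico a (a + h) ∧ Exc lam (((xn l x n : ℕ) : ℝ) ^ θ) (xn l x n) ∧
        ¬ PP lam' (Jn n) (xn l x n)} ⊆ A1 ∪ A2 := by
      rintro x ⟨hx1, hx2, hx3⟩
      by_cases hPP : PP lam' J (xn l x n)
      · right; exact ⟨hx1, hPP, hx3⟩
      · left; exact ⟨hx1, Exc_anti le_rfl (hsc3 x hx1).2.2 hx2, hPP⟩
    have hv1 : volume.real A1 ≤ (a + h) * ((a + h) ^ (-ε) * (l n) ^ (-ε)) := by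
      refine (vol_cnt hln hsc1 _).trans ?_
      rw [div_le_iff₀ hln]
      refine le_trans ?_ (hc1.trans (le_of_eq ?_))
      · apply le_of_eq
        congr!
      · rw [Real.mul_rpow hln.le (by positivity)]; ring
    have hv2 : volume.real A2 ≤ B * (1 / ((n : ℝ) + 2) ^ 3) := by
      have hB0 : 0 ≤ B := by positivity
      rcases Nat.lt_or_ge (Jn n) J with hJJ | hJJ
      · have h1 := up1 ha.le hh hln (((PP_per lam' J)).and ((PP_per lam' (Jn n)).mono hJJ.le).not)
        have h2 := dn_mid hJJ.le hlam0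
        have h3 := b_Jn n
        have hb := b_pos
        have h4 : (l n * h + 2 + 2 ^ J) / l n ≤ 2 * h + a + 1 := by
          rw [div_le_iff₀ hln]
          have : 2 ≤ l n := by rwa [div_le_one hln] at hsc2
          nlinarith
        have h5 : 0 ≤ dn J fun y => PP lam' J y ∧ ¬ PP lam' (Jn n) y := dn_nonneg _ _
        calc volume.real A2 ≤ (l n * h + 2 + 2 ^ J) / l n *
              dn J (fun y => PP lam' J y ∧ ¬ PP lam' (Jn n) y) := h1
          _ ≤ (2 * h + a + 1) * (b ^ Jn n / Real.sqrt lam') := mul_le_mul h4 h2 h5 (by positivity)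
          _ = B * b ^ Jn n := by rw [hB]; ring
          _ ≤ _ := mul_le_mul_of_nonneg_left h3 hB0
      · have : A2 = ∅ := by
          rw [Set.eq_empty_iff_forall_notMem]
          rintro x ⟨_, hx2, hx3⟩
          exact hx3 (PP_mono hJJ hx2)
        rw [this, measureReal_empty]
        positivity
    have hA1m : MeasurableSet A1 := measurableSet_Ico.inter (fl_meas _ _)
    have hA2m : MeasurableSet A2 := measurableSet_Ico.inter (fl_meas _ _)
    calc _ ≤ (volume.restrict (Set.Ico a (a + h))).real (A1 ∪ A2) :=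
          measureReal_mono hsub (measure_ne_top _ _)
      _ ≤ (volume.restrict (Set.Ico a (a + h))).real A1 + (volume.restrict (Set.Ico a (a + h))).real A2 :=
          measureReal_union_le _ _
      _ ≤ volume.real A1 + volume.real A2 := by
          rw [measureReal_restrict_apply hA1m, measureReal_restrict_apply hA2m]
          apply add_le_add
          · exact measureReal_mono Set.inter_subset_left (fin_I _)
          · exact measureReal_mono Set.inter_subset_left (fin_I _)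
      _ ≤ _ := add_le_add hv1 hv2)
  filter_upwards [hbc, ae_restrict_mem measurableSet_Ico] with x hx hxI
  filter_upwards [hx] with n hn hE
  by_contra hcon
  exact hn ⟨hxI, hE, hcon⟩

end Pool.Agent.K7.H13.KX
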