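import Pool.Agent.K7.H13.KX.Law

/-! The limit law for all levels. -/

set_option autoImplicit false

namespace Pool.Agent.K7.H13.KX

open Finset Filter Topology MeasureTheory Pool.Agent.Helper894.Collatz Pool.Agent.H828R3.Exc
  Pool.Agent.W36.SL

attribute [local irreducible] Jn

variable {l : ℕ → ℝ} {c : ℝ}

theorem s_left (K : ℕ) : ∀ lam : ℝ, Tendsto (s K) (𝓝[<] lam) (𝓝 (s K lam)) := by
  induction K with
  | zero =>
    intro lam
    by_cases h : 1 < lam
    · refine tendsto_const_nhds.congr' ?_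
      have h1 : ∀ᶠ y in 𝓝[<] lam, 1 < y := nhdsWithin_le_nhds (lt_mem_nhds h)
      filter_upwards [h1] with y hy
      simp only [s, if_pos h, if_pos hy]
    · refine tendsto_const_nhds.congr' ?_
      filter_upwards [self_mem_nhdsWithin] with y hy
      rw [s_zero_of_le 0 (not_lt.1 h), s_zero_of_le 0 (le_trans (le_of_lt hy) (not_lt.1 h))]
  | succ K ih =>
    intro lam
    by_cases h : 1 < lam
    · have h1 : ∀ᶠ y in 𝓝[<] lam, 1 < y := nhdsWithin_le_nhds (lt_mem_nhds h)
      have t1 : Tendsto (fun y : ℝ => 2 * y / 3) (𝓝[<] lam) (𝓝[<] (2 * lam / 3)) := by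
        apply tendsto_nhdsWithin_of_tendsto_nhds_of_eventually_within
        · exact ((continuous_const.mul continuous_id).div_const 3).continuousAt.tendsto.mono_left
            nhdsWithin_le_nhds
        · filter_upwards [self_mem_nhdsWithin] with y hy
          have : y < lam := hy
          change 2 * y / 3 < 2 * lam / 3
          linarith
      have t2 : Tendsto (fun y : ℝ => 2 * y) (𝓝[<] lam) (𝓝[<] (2 * lam)) := by
        apply tendsto_nhdsWithin_of_tendsto_nhds_of_eventually_within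
        · exact (continuous_const.mul continuous_id).continuousAt.tendsto.mono_left
            nhdsWithin_le_nhds
        · filter_upwards [self_mem_nhdsWithin] with y hy
          have : y < lam := hy
          change 2 * y < 2 * lam
          linarith
      have t3 := (((ih (2 * lam / 3)).comp t1).add ((ih (2 * lam)).comp t2)).div_const 2
      rw [s_succ K h]
      refine t3.congr' ?_
      filter_upwards [h1] with y hy
      rw [s_succ K hy]
      rfl
    · refine tendsto_const_nhds.congr' ?_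
      filter_upwards [self_mem_nhdsWithin] with y hy
      rw [s_zero_of_le _ (not_lt.1 h), s_zero_of_le _ (le_trans (le_of_lt hy) (not_lt.1 h))]

theorem q_left {lam : ℝ} (hlam : 0 < lam) : Tendsto q (𝓝[<] lam) (𝓝 (q lam)) := by
  rw [tendsto_order]
  constructor
  · intro a ha
    obtain ⟨d, hd⟩ : ∃ d, d = q lam - a := ⟨_, rfl⟩
    have hd0 : 0 < d := by linarith
    have hs2 : 0 < Real.sqrt (lam / 2) := Real.sqrt_pos.2 (by linarith)
    have hb : Tendsto (fun K : ℕ => b ^ K / Real.sqrt (lam / 2)) atTop (𝓝 (0 / Real.sqrt (lam / 2))) :=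
      (tendsto_pow_atTop_nhds_zero_of_lt_one b_pos.le b_lt_one).div_const _
    rw [zero_div] at hb
    obtain ⟨K, hK⟩ := (hb.eventually (gt_mem_nhds (show (0 : ℝ) < d / 2 by linarith))).exists
    have h1 := (s_left K lam).eventually (lt_mem_nhds (show s K lam - d / 2 < s K lam by linarith))
    have h2 : ∀ᶠ y in 𝓝[<] lam, lam / 2 < y := nhdsWithin_le_nhds (lt_mem_nhds (by linarith))
    filter_upwards [h1, h2] with y hy1 hy2
    have h3 := s_sub_q K y (by linarith)
    have h4 : b ^ K / Real.sqrt y ≤ b ^ K / Real.sqrt (lam / 2) := by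
      have := b_pos
      apply div_le_div_of_nonneg_left (by positivity) hs2
      exact Real.sqrt_le_sqrt hy2.le
    have h5 := q_le_s K lam
    linarith
  · intro a ha
    filter_upwards [self_mem_nhdsWithin] with y hy
    exact lt_of_le_of_lt (q_mono (le_of_lt hy)) ha

open Classical in
/-- the number of the `n < N` with the property `P` -/
noncomputable def cnt (P : ℕ → Prop) (N : ℕ) : ℝ := (((range N).filter P).card : ℝ)

theorem cnt_le {P Q : ℕ → Prop} (h : ∀ᶠ n in atTop, P n → Q n) {ε : ℝ} (hε : 0 < ε) :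
    ∀ᶠ N : ℕ in atTop, cnt P N / N ≤ cnt Q N / N + ε := by
  classical
  obtain ⟨n0, hn0⟩ := eventually_atTop.1 h
  obtain ⟨M, hM⟩ := exists_nat_gt ((n0 : ℝ) / ε)
  filter_upwards [eventually_ge_atTop (M + 1)] with N hN
  have hN0 : (0 : ℝ) < N := by exact_mod_cast (by omega : 0 < N)
  have h1 : (n0 : ℝ) ≤ ε * N := by
    have h2 : (M : ℝ) ≤ N := by exact_mod_cast (by omega : M ≤ N)
    rw [div_lt_iff₀ hε] at hM
    nlinarith
  have h3 : cnt P N ≤ cnt Q N + n0 := by
    unfold cnt
    have h4 : (range N).filter P ⊆ (range N).filter Q ∪ range n0 := by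
      intro n hn
      rw [mem_filter] at hn
      rw [mem_union, mem_filter]
      rcases Nat.lt_or_ge n n0 with h5 | h5
      · exact Or.inr (mem_range.2 h5)
      · exact Or.inl ⟨hn.1, hn0 n h5 hn.2⟩
    have h6 := (card_le_card h4).trans (card_union_le _ _)
    rw [card_range] at h6
    exact_mod_cast h6
  rw [← sub_nonneg]
  have e : cnt Q N / N + ε - cnt P N / N = (cnt Q N + ε * N - cnt P N) / N := by field_simp
  rw [e]
  apply div_nonneg _ hN0.le
  linarith

/-- squeeze -/
theorem sand {A B : ℕ → Prop} {D : ℕ → ℕ → Prop} {v : ℝ} {w : ℕ → ℝ}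
    (hA : Tendsto (fun N : ℕ => cnt A N / N) atTop (𝓝 v)) (hAB : ∀ᶠ n in atTop, A n → B n)
    (hD : ∀ i, Tendsto (fun N : ℕ => cnt (D i) N / N) atTop (𝓝 (w i)))
    (hBD : ∀ i, ∀ᶠ n in atTop, B n → D i n) (hw : Tendsto w atTop (𝓝 v)) :
    Tendsto (fun N : ℕ => cnt B N / N) atTop (𝓝 v) := by
  rw [tendsto_order]
  constructor
  · intro a ha
    obtain ⟨d, hd⟩ : ∃ d, d = v - a := ⟨_, rfl⟩
    filter_upwards [hA.eventually (lt_mem_nhds (show v - d / 2 < v by linarith)),
      cnt_le hAB (show 0 < d / 2 by linarith)] with N h1 h2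
    linarith
  · intro a ha
    obtain ⟨d, hd⟩ : ∃ d, d = a - v := ⟨_, rfl⟩
    obtain ⟨i, hi⟩ := (hw.eventually (gt_mem_nhds (show v < v + d / 3 by linarith))).exists
    filter_upwards [(hD i).eventually (gt_mem_nhds (show w i < w i + d / 3 by linarith)),
      cnt_le (hBD i) (show 0 < d / 3 by linarith)] with N h1 h2
    linarith

/-- the event -/
def ex (l : ℕ → ℝ) (lam θ α : ℝ) (n : ℕ) : Prop := Exc lam (((xn l α n : ℕ) : ℝ) ^ θ) (xn l α n)

theorem one_le_xn (hl : Lac l c) {α : ℝ} (hα : 0 < α) : ∀ᶠ n in atTop, 1 ≤ xn l α n := by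
  filter_upwards [hl.above hα (show (0 : ℝ) < 1 by norm_num)] with n hn
  exact hn.1

/-- the law at one level -/
theorem law_one (hl : Lac l c) {lam : ℝ} (hlam : 1 < lam) {a h : ℝ} (ha : 0 < a) (hh : 0 < h) :
    ∀ᵐ x ∂(volume.restrict (Set.Ico a (a + h))), ∀ θ : ℝ, 0 < θ → θ < 1 →
      Tendsto (fun N : ℕ => cnt (ex l lam θ x) N / N) atTop (𝓝 (p lam)) := by
  -- the levels below
  set la : ℕ → ℝ := fun i => lam * (1 - 1 / ((i : ℝ) + 2)) with hla
  have hi0 : ∀ i : ℕ, (0 : ℝ) < 1 / ((i : ℝ) + 2) ∧ 1 / ((i : ℝ) + 2) < 1 := by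
    intro i
    have : (0 : ℝ) ≤ i := Nat.cast_nonneg i
    refine ⟨by positivity, ?_⟩
    rw [div_lt_one (by positivity)]; linarith
  have hla0 : ∀ i, 0 < la i := fun i => mul_pos (by linarith) (by linarith [(hi0 i).2])
  have hla1 : ∀ i, la i < lam := fun i => by
    have := (hi0 i).1
    simp only [hla]
    nlinarith
  have hlat : Tendsto la atTop (𝓝[<] lam) := by
    apply tendsto_nhdsWithin_of_tendsto_nhds_of_eventually_within
    · have h1 : Tendsto (fun i : ℕ => lam * (1 - 1 / ((i : ℝ) + 2))) atTop (𝓝 (lam * (1 - 0))) := by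
        apply Tendsto.const_mul
        apply Tendsto.const_sub
        apply tendsto_const_nhds.div_atTop
        exact tendsto_atTop_add_const_right _ _ tendsto_natCast_atTop_atTop
      rwa [sub_zero, mul_one] at h1
    · exact Eventually.of_forall hla1
  have hpw : Tendsto (fun i => p (la i)) atTop (𝓝 (p lam)) := by
    unfold p
    exact ((q_left (show 0 < lam by linarith)).comp hlat).const_sub 1
  have h1 := freq hl ha.le hh lam
  have h2 : ∀ᵐ x ∂(volume.restrict (Set.Ico a (a + h))), ∀ i : ℕ,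
      Tendsto (fun N : ℕ => cnt (fun n => PP (la i) (Jn n) (xn l x n)) N / N) atTop (𝓝 (p (la i))) :=
    ae_all_iff.2 fun i => freq hl ha.le hh (la i)
  have h3 : ∀ᵐ x ∂(volume.restrict (Set.Ico a (a + h))), ∀ i k : ℕ, ∀ᶠ n in atTop,
      ex l lam (1 / ((k : ℝ) + 1)) x n → PP (la i) (Jn n) (xn l x n) :=
    ae_all_iff.2 fun i => ae_all_iff.2 fun k =>
      late_ae hl ha hh (by positivity) hlam.le (hla0 i) (hla1 i)
  filter_upwards [h1, h2, h3, ae_restrict_mem measurableSet_Ico] with x g1 g2 g3 gI θ hθ0 hθ1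
  have hx0 : 0 < x := lt_of_lt_of_le ha gI.1
  obtain ⟨k, hk⟩ := exists_nat_one_div_lt hθ0
  refine sand (A := fun n => PP lam (Jn n) (xn l x n)) (D := fun i n => PP (la i) (Jn n) (xn l x n))
    g1 ?_ g2 (fun i => ?_) hpw
  · filter_upwards [hl.above hx0 hθ1] with n hn hPP
    exact PP_Exc hlam hPP hn.2
  · filter_upwards [g3 i k, one_le_xn hl hx0] with n hn hn1 hE
    apply hn
    refine Exc_anti le_rfl ?_ hE
    exact Real.rpow_le_rpow_of_exponent_le (by exact_mod_cast hn1) hk.le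

/-- the law at all levels -/
theorem law_all (hl : Lac l c) {a h : ℝ} (ha : 0 < a) (hh : 0 < h) :
    ∀ᵐ x ∂(volume.restrict (Set.Ico a (a + h))), ∀ θ : ℝ, 0 < θ → θ < 1 → ∀ lam : ℝ, 1 < lam →
      Tendsto (fun N : ℕ => cnt (ex l lam θ x) N / N) atTop (𝓝 (p lam)) := by
  set S : Set ℝ := (Set.range ((↑) : ℚ → ℝ) ∪ {x | ¬ ContinuousAt q x}) ∩ Set.Ioi 1 with hS
  have hSc : S.Countable :=
    ((Set.countable_range _).union q_mono.countable_not_continuousAt).mono Set.inter_subset_left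
  have h1 : ∀ᵐ x ∂(volume.restrict (Set.Ico a (a + h))), ∀ lam ∈ S, ∀ θ : ℝ, 0 < θ → θ < 1 →
      Tendsto (fun N : ℕ => cnt (ex l lam θ x) N / N) atTop (𝓝 (p lam)) :=
    (ae_ball_iff hSc).2 fun lam hlam => law_one hl hlam.2 ha hh
  filter_upwards [h1] with x hx θ hθ0 hθ1 lam hlam
  by_cases hmem : lam ∈ S
  · exact hx lam hmem θ hθ0 hθ1
  have hcont : ContinuousAt q lam := by
    by_contra hcon
    exact hmem ⟨Or.inr hcon, hlam⟩
  have hpc : ContinuousAt p lam := by
    have : p = fun y => 1 - q y := rfl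
    rw [this]
    exact continuousAt_const.sub hcont
  rw [tendsto_order]
  constructor
  · intro v hv
    have h2 := hpc.tendsto.eventually (lt_mem_nhds hv)
    obtain ⟨δ, hδ, hball⟩ := Metric.eventually_nhds_iff.1 h2
    obtain ⟨r, hr1, hr2⟩ := exists_rat_btwn (show lam < lam + δ by linarith)
    have hpr : v < p r := hball (by rw [Real.dist_eq, abs_lt]; constructor <;> linarith)
    have h3 := hx r ⟨Or.inl ⟨r, rfl⟩, lt_trans hlam hr1⟩ θ hθ0 hθ1
    obtain ⟨d, hd⟩ : ∃ d, d = p r - v := ⟨_, rfl⟩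
    have h4 : ∀ᶠ n in atTop, ex l r θ x n → ex l lam θ x n :=
      Eventually.of_forall fun n hn => Exc_anti hr1.le le_rfl hn
    filter_upwards [h3.eventually (lt_mem_nhds (show p r - d / 2 < p r by linarith)),
      cnt_le h4 (show 0 < d / 2 by linarith)] with N g1 g2
    linarith
  · intro v hv
    have h2 := hpc.tendsto.eventually (gt_mem_nhds hv)
    obtain ⟨δ, hδ, hball⟩ := Metric.eventually_nhds_iff.1 h2
    obtain ⟨r, hr1, hr2⟩ := exists_rat_btwn (show max 1 (lam - δ) < lam from max_lt hlam (by linarith))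
    have hr3 : (1 : ℝ) < r := lt_of_le_of_lt (le_max_left _ _) hr1
    have hr4 : lam - δ < r := lt_of_le_of_lt (le_max_right _ _) hr1
    have hpr : p r < v := hball (by rw [Real.dist_eq, abs_lt]; constructor <;> linarith)
    have h3 := hx r ⟨Or.inl ⟨r, rfl⟩, hr3⟩ θ hθ0 hθ1
    obtain ⟨d, hd⟩ : ∃ d, d = v - p r := ⟨_, rfl⟩
    have h4 : ∀ᶠ n in atTop, ex l lam θ x n → ex l r θ x n :=
      Eventually.of_forall fun n hn => Exc_anti hr2.le le_rfl hn
    filter_upwards [h3.eventually (gt_mem_nhds (show p r < p r + d / 2 by linarith)),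
      cnt_le h4 (show 0 < d / 2 by linarith)] with N g1 g2
    linarith

/-- from the intervals to the half-line -/
theorem ae_pos {P : ℝ → Prop}
    (h : ∀ a h : ℝ, 0 < a → 0 < h → ∀ᵐ x ∂(volume.restrict (Set.Ico a (a + h))), P x) :
    ∀ᵐ x : ℝ, 0 < x → P x := by
  have h1 : ∀ᵐ x : ℝ, ∀ k : ℕ, x ∈ Set.Ico (1 / ((k : ℝ) + 1)) (1 / ((k : ℝ) + 1) + (k + 1)) → P x :=
    ae_all_iff.2 fun k => (ae_restrict_iff' measurableSet_Ico).1
      (h (1 / ((k : ℝ) + 1)) (k + 1) (by positivity) (by positivity))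
  filter_upwards [h1] with x hx hx0
  obtain ⟨k1, hk1⟩ := exists_nat_one_div_lt hx0
  obtain ⟨k2, hk2⟩ := exists_nat_gt x
  have h2 : (1 : ℝ) / ((max k1 k2 : ℕ) + 1) ≤ 1 / ((k1 : ℝ) + 1) := by
    apply one_div_le_one_div_of_le (by positivity)
    have : (k1 : ℝ) ≤ (max k1 k2 : ℕ) := by exact_mod_cast le_max_left _ _
    linarith
  have h3 : (k2 : ℝ) ≤ (max k1 k2 : ℕ) := by exact_mod_cast le_max_right _ _
  have h4 : (0 : ℝ) < 1 / ((max k1 k2 : ℕ) + 1) := by positivity
  exact hx (max k1 k2) ⟨by linarith, by linarith⟩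

end Pool.Agent.K7.H13.KX
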