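import Pool.Agent.K7.H13.KX.Per

/-! The measure of the set of the real numbers `α` of an interval for which the integer part of
`l * α` has a given property. -/

set_option autoImplicit false

namespace Pool.Agent.K7.H13.KX

open Finset MeasureTheory Pool.Agent.Helper894.Collatz Pool.Agent.H828R3.Exc Pool.Agent.W36.SL

/-- the `α` for which the integer part of `l * α` has the property `P` -/
def fl (l : ℝ) (P : ℕ → Prop) : Set ℝ := {α | P ⌊l * α⌋₊}

theorem fl_meas (l : ℝ) (P : ℕ → Prop) : MeasurableSet (fl l P) :=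
  (Nat.measurable_floor.comp (measurable_const_mul l)) (MeasurableSet.of_discrete (s := {n | P n}))

/-- the cell of `n` -/
def cell (l : ℝ) (n : ℕ) : Set ℝ := Set.Ico (n / l) (n / l + 1 / l)

theorem cell_meas (l : ℝ) (n : ℕ) : MeasurableSet (cell l n) := measurableSet_Ico

theorem vol_cell {l : ℝ} (hl : 0 < l) (n : ℕ) : volume.real (cell l n) = 1 / l := by
  unfold cell
  rw [Real.volume_real_Ico_of_le (by have : 0 < 1 / l := by positivity
                                     linarith)]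
  ring

theorem mem_cell {l : ℝ} (hl : 0 < l) {α : ℝ} (hα : 0 ≤ α) (n : ℕ) : α ∈ cell l n ↔ ⌊l * α⌋₊ = n := by
  rw [Nat.floor_eq_iff (by positivity)]
  unfold cell
  rw [Set.mem_Ico, ← add_div, div_le_iff₀ hl, lt_div_iff₀ hl, mul_comm l α]

theorem cell_disj {l : ℝ} (hl : 0 < l) {m n : ℕ} (h : m ≠ n) : Disjoint (cell l m) (cell l n) := by
  rw [Set.disjoint_left]
  intro x hx hx2
  have h0 : 0 ≤ x := le_trans (by positivity) hx.1
  exact h (((mem_cell hl h0 m).1 hx).symm.trans ((mem_cell hl h0 n).1 hx2))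

theorem cell_sub {l : ℝ} (hl : 0 < l) (n : ℕ) {P : ℕ → Prop} (h : P n) : cell l n ⊆ fl l P := by
  intro x hx
  have h0 : 0 ≤ x := le_trans (by positivity) hx.1
  have := (mem_cell hl h0 n).1 hx
  change P ⌊l * x⌋₊
  rwa [this]

open Classical in
/-- covering by cells -/
theorem cover {a h l : ℝ} (ha : 0 ≤ a) (hl : 0 < l) (hh : 0 < h) (P : ℕ → Prop) :
    ∃ n H : ℕ, (H : ℝ) ≤ l * h + 2 ∧
      Set.Ico a (a + h) ∩ fl l P ⊆ ⋃ m ∈ (Finset.Ico n (n + H)).filter P, cell l m := by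
  refine ⟨⌊l * a⌋₊, ⌊l * (a + h)⌋₊ - ⌊l * a⌋₊ + 1, ?_, ?_⟩
  · have hle : ⌊l * a⌋₊ ≤ ⌊l * (a + h)⌋₊ := by
      apply Nat.floor_le_floor
      apply mul_le_mul_of_nonneg_left _ hl.le
      linarith
    push_cast [Nat.cast_sub hle]
    have h1 := Nat.floor_le (show 0 ≤ l * (a + h) by positivity)
    have h2 := Nat.lt_floor_add_one (l * a)
    linarith
  · rintro x ⟨⟨hx1, hx2⟩, hx3⟩
    have h0 : 0 ≤ x := by linarith
    rw [Set.mem_iUnion₂]
    refine ⟨⌊l * x⌋₊, ?_, (mem_cell hl h0 _).2 rfl⟩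
    rw [mem_filter, mem_Ico]
    have h1 : ⌊l * a⌋₊ ≤ ⌊l * x⌋₊ := Nat.floor_le_floor (mul_le_mul_of_nonneg_left hx1 hl.le)
    have h2 : ⌊l * x⌋₊ ≤ ⌊l * (a + h)⌋₊ := Nat.floor_le_floor (mul_le_mul_of_nonneg_left hx2.le hl.le)
    exact ⟨⟨h1, by omega⟩, hx3⟩

theorem real_union_le {ι : Type} (s : Finset ι) (f : ι → Set ℝ) {X : ℝ} (h : ∀ i ∈ s, volume.real (f i) ≤ X) :
    volume.real (⋃ i ∈ s, f i) ≤ s.card * X := by
  refine (measureReal_biUnion_finset_le s f).trans ?_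
  refine (sum_le_sum h).trans ?_
  rw [sum_const, nsmul_eq_mul]

theorem up1 {a h l : ℝ} (ha : 0 ≤ a) (hh : 0 < h) (hl : 0 < l) {J : ℕ} {P : ℕ → Prop} (hP : Per J P) :
    volume.real (Set.Ico a (a + h) ∩ fl l P) ≤ (l * h + 2 + 2 ^ J) / l * dn J P := by
  classical
  obtain ⟨n, H, hH, hsub⟩ := cover ha hl hh P
  have h1 : volume.real (Set.Ico a (a + h) ∩ fl l P) ≤
      volume.real (⋃ m ∈ (Finset.Ico n (n + H)).filter P, cell l m) := by
    refine measureReal_mono hsub (ne_of_lt ?_)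
    refine (measure_biUnion_finset_le _ _).trans_lt ?_
    apply ENNReal.sum_lt_top.2
    intro i _
    unfold cell
    rw [Real.volume_Ico]
    exact ENNReal.ofReal_lt_top
  have h2 := real_union_le ((Finset.Ico n (n + H)).filter P) (cell l) (X := 1 / l)
    (fun i _ => (vol_cell hl i).le)
  have h3 := (cnt_int hP n H).1
  have hd := dn_nonneg J P
  calc _ ≤ (((Finset.Ico n (n + H)).filter P).card : ℝ) * (1 / l) := h1.trans h2
    _ ≤ ((H + 2 ^ J) * dn J P) * (1 / l) := by gcongr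
    _ ≤ ((l * h + 2 + 2 ^ J) * dn J P) * (1 / l) := by gcongr
    _ = _ := by ring

theorem lo1 {a h l : ℝ} (ha : 0 ≤ a) (hh : 0 < h) (hl : 0 < l) {J : ℕ} {P : ℕ → Prop} (hP : Per J P) :
    (l * h - 2 - 2 ^ J) / l * dn J P ≤ volume.real (Set.Ico a (a + h) ∩ fl l P) := by
  classical
  set n := ⌈l * a⌉₊ with hn
  set H := ⌊l * (a + h)⌋₊ - n with hH
  have hsub : (⋃ m ∈ (Finset.Ico n (n + H)).filter P, cell l m) ⊆ Set.Ico a (a + h) ∩ fl l P := by
    intro x hx
    rw [Set.mem_iUnion₂] at hx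
    obtain ⟨m, hm, hx⟩ := hx
    rw [mem_filter, mem_Ico] at hm
    refine ⟨?_, cell_sub hl m hm.2 hx⟩
    obtain ⟨hx1, hx2⟩ := hx
    have h1 : l * a ≤ m := (Nat.le_ceil _).trans (by exact_mod_cast hm.1.1)
    have h2 : (m : ℝ) + 1 ≤ l * (a + h) := by
      have : m + 1 ≤ ⌊l * (a + h)⌋₊ := by omega
      have h3 : ((m + 1 : ℕ) : ℝ) ≤ l * (a + h) := (Nat.le_floor_iff (by positivity)).1 this
      push_cast at h3
      exact h3
    constructor
    · refine le_trans ?_ hx1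
      rw [le_div_iff₀ hl]; linarith
    · refine hx2.trans_le ?_
      rw [← add_div, div_le_iff₀ hl]; linarith
  have hfin : volume (Set.Ico a (a + h) ∩ fl l P) ≠ ⊤ := by
    apply ne_of_lt
    refine (measure_mono Set.inter_subset_left).trans_lt ?_
    rw [Real.volume_Ico]
    exact ENNReal.ofReal_lt_top
  have h1 := measureReal_mono hsub hfin
  have h2 : volume.real (⋃ m ∈ (Finset.Ico n (n + H)).filter P, cell l m) =
      (((Finset.Ico n (n + H)).filter P).card : ℝ) * (1 / l) := by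
    rw [measureReal_biUnion_finset (fun i _ j _ hij => cell_disj hl hij) (fun i _ => cell_meas l i)
      (fun i _ => by unfold cell; rw [Real.volume_Ico]; exact ENNReal.ofReal_ne_top)]
    rw [sum_congr rfl (fun i _ => vol_cell hl i), sum_const, nsmul_eq_mul]
  rw [h2] at h1
  refine le_trans ?_ h1
  have h3 := (cnt_int hP n H).2
  have hd := dn_nonneg J P
  have hH2 : l * h - 2 ≤ H := by
    have h4 := Nat.lt_floor_add_one (l * (a + h))
    have h5 := Nat.ceil_lt_add_one (show 0 ≤ l * a by positivity)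
    have h6 : ((⌊l * (a + h)⌋₊ : ℕ) : ℝ) ≤ H + n := by
      have : ⌊l * (a + h)⌋₊ ≤ H + n := by omega
      exact_mod_cast this
    linarith
  calc (l * h - 2 - 2 ^ J) / l * dn J P = ((l * h - 2 - 2 ^ J) * dn J P) * (1 / l) := by ring
    _ ≤ ((H - 2 ^ J) * dn J P) * (1 / l) := by gcongr
    _ ≤ _ := by gcongr

theorem pair {a h l L : ℝ} (ha : 0 ≤ a) (hh : 0 < h) (hl : 0 < l) (hL : 0 < L) {J' J : ℕ}
    {P Q : ℕ → Prop} (hP : Per J' P) (hQ : Per J Q) :
    volume.real (Set.Ico a (a + h) ∩ fl l P ∩ fl L Q) ≤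
      (l * h + 2 + 2 ^ J') / l * dn J' P * ((1 + (2 + 2 ^ J) * l / L) * dn J Q) := by
  classical
  obtain ⟨n, H, hH, hsub⟩ := cover ha hl hh P
  have hsub2 : Set.Ico a (a + h) ∩ fl l P ∩ fl L Q ⊆
      ⋃ m ∈ (Finset.Ico n (n + H)).filter P, (cell l m ∩ fl L Q) := by
    rintro x ⟨hx, hx2⟩
    have := hsub hx
    rw [Set.mem_iUnion₂] at this ⊢
    obtain ⟨m, hm, hx3⟩ := this
    exact ⟨m, hm, hx3, hx2⟩
  have hdQ := dn_nonneg J Q
  have hdP := dn_nonneg J' P
  have hcell : ∀ m ∈ (Finset.Ico n (n + H)).filter P, volume.real (cell l m ∩ fl L Q) ≤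
      (1 / l) * ((1 + (2 + 2 ^ J) * l / L) * dn J Q) := by
    intro m _
    refine (up1 (a := m / l) (h := 1 / l) (l := L) (by positivity) (by positivity) hL hQ).trans
      (le_of_eq ?_)
    field_simp
    ring
  have h1 : volume.real (Set.Ico a (a + h) ∩ fl l P ∩ fl L Q) ≤
      volume.real (⋃ m ∈ (Finset.Ico n (n + H)).filter P, (cell l m ∩ fl L Q)) := by
    refine measureReal_mono hsub2 (ne_of_lt ?_)
    refine (measure_biUnion_finset_le _ _).trans_lt ?_
    apply ENNReal.sum_lt_top.2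
    intro i _
    refine (measure_mono Set.inter_subset_left).trans_lt ?_
    unfold cell
    rw [Real.volume_Ico]
    exact ENNReal.ofReal_lt_top
  have h2 := real_union_le _ _ hcell
  have h3 := (cnt_int hP n H).1
  have h0 : 0 ≤ (1 + (2 + 2 ^ J) * l / L) * dn J Q := by positivity
  calc _ ≤ (((Finset.Ico n (n + H)).filter P).card : ℝ) * ((1 / l) * ((1 + (2 + 2 ^ J) * l / L) * dn J Q)) :=
        h1.trans h2
    _ ≤ ((H + 2 ^ J') * dn J' P) * ((1 / l) * ((1 + (2 + 2 ^ J) * l / L) * dn J Q)) := by gcongr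
    _ ≤ ((l * h + 2 + 2 ^ J') * dn J' P) * ((1 / l) * ((1 + (2 + 2 ^ J) * l / L) * dn J Q)) := by gcongr
    _ = _ := by ring

theorem mod_per (k r : ℕ) : Per k (fun y => y % 2 ^ k = r) := by
  intro x c
  simp only [Nat.add_mul_mod_self_left]

theorem dn_single {k : ℕ} {P : ℕ → Prop} (h : ∀ x < 2 ^ k, ∀ y < 2 ^ k, P x → P y → x = y) :
    dn k P ≤ 1 / 2 ^ k := by
  classical
  unfold dn
  apply div_le_div_of_nonneg_right _ (by positivity)
  rw [Nat.cast_le_one]
  apply card_le_one.2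
  intro x hx y hy
  rw [mem_filter, mem_range] at hx hy
  exact h x hx.1 y hy.1 hx.2 hy.2

theorem dn_mod (k r : ℕ) : dn k (fun y => y % 2 ^ k = r) ≤ 1 / 2 ^ k := by
  apply dn_single
  intro x hx y hy h1 h2
  rw [Nat.mod_eq_of_lt hx] at h1
  rw [Nat.mod_eq_of_lt hy] at h2
  omega

theorem near {a h l L : ℝ} (ha : 0 ≤ a) (hh : 0 < h) (hl : 0 < l) {J' J k : ℕ} (hk : k ≤ J)
    (hkL : 2 ^ k * l ≤ L) {lam mu : ℝ} (hlam : 0 < lam) (hmu : 0 < mu) {D D2 : ℝ}
    (hD : (l * h + 2 + 2 ^ J') / l ≤ D) (hD2 : (L * h + 2 + 2 ^ J) / L ≤ D2) :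
    volume.real (Set.Ico a (a + h) ∩ fl l (PP lam J') ∩ fl L (PP mu J)) ≤
      4 * D / (lam * mu) + 2 * Real.sqrt (D * D2 / (lam * mu)) * b ^ k := by
  classical
  have h2k : (1 : ℝ) ≤ 2 ^ k := one_le_pow₀ (by norm_num)
  have hL : 0 < L := lt_of_lt_of_le (by positivity) hkL
  have hD0 : 0 < D := lt_of_lt_of_le (by positivity) hD
  have hD20 : 0 < D2 := lt_of_lt_of_le (by positivity) hD2
  set A := Set.Ico a (a + h) ∩ fl l (PP lam J') with hA
  have hsub : A ∩ fl L (PP mu J) ⊆ (A ∩ fl L (PP mu k)) ∪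
      ⋃ r ∈ range (2 ^ k), (A ∩ fl L (QR k r J mu)) := by
    rintro x ⟨hx, j, hj, hx2⟩
    rcases Nat.lt_or_ge j k with hjk | hjk
    · left
      exact ⟨hx, j, hjk.le, hx2⟩
    · right
      rw [Set.mem_iUnion₂]
      exact ⟨⌊L * x⌋₊ % 2 ^ k, mem_range.2 (Nat.mod_lt _ (by positivity)), hx, rfl, j, hj, hjk,
        (ge_iff _ _ _).1 hx2⟩
  have hfinA : ∀ S : Set ℝ, volume (A ∩ S) ≠ ⊤ := by
    intro S
    apply ne_of_lt
    refine (measure_mono (t := Set.Ico a (a + h)) (fun x hx => hx.1.1)).trans_lt ?_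
    rw [Real.volume_Ico]
    exact ENNReal.ofReal_lt_top
  have hfac : (2 + 2 ^ k) * l / L ≤ 3 := by
    rw [div_le_iff₀ hL]
    nlinarith
  have hdn : dn J' (PP lam J') ≤ 1 / lam := by
    rw [dn_PP]; exact one_sub_s_le J' hlam
  have hdn0 := dn_nonneg J' (PP lam J')
  have c1 : volume.real (A ∩ fl L (PP mu k)) ≤ 4 * D / (lam * mu) := by
    have h1 := pair ha hh hl hL (PP_per lam J') (PP_per mu k)
    have h2 : dn k (PP mu k) ≤ 1 / mu := by
      rw [dn_PP]; exact one_sub_s_le k hmu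
    have h20 := dn_nonneg k (PP mu k)
    calc _ ≤ _ := h1
      _ ≤ D * (1 / lam) * ((1 + 3) * (1 / mu)) := by gcongr
      _ = _ := by field_simp; ring
  have c2 : ∀ r ∈ range (2 ^ k), volume.real (A ∩ fl L (QR k r J mu)) ≤
      2 * Real.sqrt (D * D2 / (lam * mu)) * (1 / 2 ^ k) * Real.sqrt (MM k r) := by
    intro r _
    have hM := MM_pos k r
    have x1 : volume.real (A ∩ fl L (QR k r J mu)) ≤ D * (1 / lam) * (4 * (1 / 2 ^ k)) := by
      have h1 := pair ha hh hl hL (PP_per lam J') (mod_per k r)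
      have h2 := dn_mod k r
      have h20 := dn_nonneg k (fun y => y % 2 ^ k = r)
      have h3 : volume.real (A ∩ fl L (QR k r J mu)) ≤
          volume.real (Set.Ico a (a + h) ∩ fl l (PP lam J') ∩ fl L (fun y => y % 2 ^ k = r)) := by
        apply measureReal_mono _ (hfinA _)
        rintro x ⟨hx, hx2⟩
        exact ⟨hx, hx2.1⟩
      calc _ ≤ _ := h3.trans h1
        _ ≤ D * (1 / lam) * ((1 + 3) * (1 / 2 ^ k)) := by gcongr
        _ = _ := by ring
    have x2 : volume.real (A ∩ fl L (QR k r J mu)) ≤ D2 * ((1 / 2 ^ k) * (MM k r / mu)) := by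
      have h1 := up1 ha hh hL (QR_per (r := r) hk mu)
      have h2 := dn_QR (r := r) hk hmu
      have h20 := dn_nonneg J (QR k r J mu)
      have h3 : volume.real (A ∩ fl L (QR k r J mu)) ≤
          volume.real (Set.Ico a (a + h) ∩ fl L (QR k r J mu)) := by
        refine measureReal_mono (fun x (hx : x ∈ A ∩ fl L (QR k r J mu)) =>
          (⟨hx.1.1, hx.2⟩ : x ∈ Set.Ico a (a + h) ∩ fl L (QR k r J mu))) (ne_of_lt ?_)
        refine (measure_mono Set.inter_subset_left).trans_lt ?_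
        rw [Real.volume_Ico]
        exact ENNReal.ofReal_lt_top
      calc _ ≤ _ := h3.trans h1
        _ ≤ D2 * ((1 / 2 ^ k) * (MM k r / mu)) := by gcongr
    have h0 : 0 ≤ volume.real (A ∩ fl L (QR k r J mu)) := measureReal_nonneg
    have x3 : volume.real (A ∩ fl L (QR k r J mu)) ^ 2 ≤
        (D * (1 / lam) * (4 * (1 / 2 ^ k))) * (D2 * ((1 / 2 ^ k) * (MM k r / mu))) := by
      rw [sq]
      exact mul_le_mul x1 x2 h0 (by positivity)
    have x4 := Real.le_sqrt_of_sq_le x3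
    refine x4.trans (le_of_eq ?_)
    have e : (D * (1 / lam) * (4 * (1 / 2 ^ k))) * (D2 * ((1 / 2 ^ k) * (MM k r / mu))) =
        (2 * (1 / 2 ^ k)) ^ 2 * ((D * D2 / (lam * mu)) * MM k r) := by
      field_simp
      ring
    rw [e, Real.sqrt_mul (by positivity), Real.sqrt_sq (by positivity), Real.sqrt_mul (by positivity)]
    ring
  have c3 : volume.real (⋃ r ∈ range (2 ^ k), (A ∩ fl L (QR k r J mu))) ≤
      2 * Real.sqrt (D * D2 / (lam * mu)) * b ^ k := by
    refine (measureReal_biUnion_finset_le _ _).trans ((sum_le_sum c2).trans (le_of_eq ?_))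
    rw [← mul_sum, sum_sqrt]
    field_simp
  have hfin2 : volume ((A ∩ fl L (PP mu k)) ∪ ⋃ r ∈ range (2 ^ k), (A ∩ fl L (QR k r J mu))) ≠ ⊤ := by
    apply ne_of_lt
    refine (measure_mono (t := Set.Ico a (a + h)) ?_).trans_lt ?_
    · rintro x (hx | hx)
      · exact hx.1.1
      · rw [Set.mem_iUnion₂] at hx
        obtain ⟨r, _, hx⟩ := hx
        exact hx.1.1
    · rw [Real.volume_Ico]
      exact ENNReal.ofReal_lt_top
  calc _ ≤ _ := measureReal_mono hsub hfin2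
    _ ≤ _ := measureReal_union_le _ _
    _ ≤ _ := add_le_add c1 c3

end Pool.Agent.K7.H13.KX
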