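import Pool.Agent.K7.H13.KX.Div

/-! The covariance of the events, with varying levels. -/

set_option autoImplicit false

namespace Pool.Agent.K7.H13.KX

open Finset Filter Topology MeasureTheory Pool.Agent.Helper894.Collatz Pool.Agent.H828R3.Exc
  Pool.Agent.W36.SL

attribute [local irreducible] Jn

/-- a sharper form of `near` -/
theorem near2 {a h l L : ℝ} (ha : 0 ≤ a) (hh : 0 < h) (hl : 0 < l) {J' J k : ℕ} (hk : k ≤ J)
    (hkL : 4 ^ k * l ≤ L) {lam mu : ℝ} (hlam : 0 < lam) (hmu : 0 < mu) {D D2 : ℝ}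
    (hD : (l * h + 2 + 2 ^ J') / l ≤ D) (hD2 : (L * h + 2 + 2 ^ J) / L ≤ D2) :
    volume.real (Set.Ico a (a + h) ∩ fl l (PP lam J') ∩ fl L (PP mu J)) ≤
      (l * h + 2 + 2 ^ J') / l * dn J' (PP lam J') * ((1 + 3 * (1 / 2 ^ k)) * dn J (PP mu J)) +
      2 * Real.sqrt (D * D2 / (lam * mu)) * b ^ k := by
  classical
  have h2k : (1 : ℝ) ≤ 2 ^ k := one_le_pow₀ (by norm_num)
  have h4k : (4 : ℝ) ^ k = 2 ^ k * 2 ^ k := by rw [← mul_pow]; norm_num
  have hL : 0 < L := lt_of_lt_of_le (by positivity) hkL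
  have hD0 : 0 < D := lt_of_lt_of_le (by positivity) hD
  have hD20 : 0 < D2 := lt_of_lt_of_le (by positivity) hD2
  set A := Set.Ico a (a + h) ∩ fl l (PP lam J') with hA
  have hsub : A ∩ fl L (PP mu J) ⊆ (A ∩ fl L (PP mu k)) ∪
      ⋃ r ∈ range (2 ^ k), (A ∩ fl L (QR k r J mu)) := by
    rintro x ⟨hx, j, hj, hx2⟩
    rcases Nat.lt_or_ge j k with hjk | hjk
    · left
      exact ⟨hx, j, hjk.le, hx2⟩
    · right
      rw [Set.mem_iUnion₂]
      exact ⟨⌊L * x⌋₊ % 2 ^ k, mem_range.2 (Nat.mod_lt _ (by positivity)), hx, rfl, j, hj, hjk,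
        (ge_iff _ _ _).1 hx2⟩
  have hfinA : ∀ S : Set ℝ, volume (A ∩ S) ≠ ⊤ := by
    intro S
    apply ne_of_lt
    refine (measure_mono (t := Set.Ico a (a + h)) (fun x hx => hx.1.1)).trans_lt ?_
    rw [Real.volume_Ico]
    exact ENNReal.ofReal_lt_top
  have hfac0 : (2 + 2 ^ k) * l / L ≤ 3 * (1 / 2 ^ k) := by
    rw [div_le_iff₀ hL]
    have h5 : 3 * (1 / 2 ^ k) * (4 ^ k * l) ≤ 3 * (1 / 2 ^ k) * L :=
      mul_le_mul_of_nonneg_left hkL (by positivity)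
    refine le_trans ?_ h5
    rw [h4k]
    have e : 3 * (1 / 2 ^ k) * (2 ^ k * 2 ^ k * l) = 3 * 2 ^ k * l := by field_simp
    rw [e]
    apply mul_le_mul_of_nonneg_right _ hl.le
    linarith
  have hfac : (2 + 2 ^ k) * l / L ≤ 3 := by
    refine hfac0.trans ?_
    have : (1 : ℝ) / 2 ^ k ≤ 1 := by rw [div_le_one (by positivity)]; exact h2k
    linarith
  have hdn : dn J' (PP lam J') ≤ 1 / lam := by
    rw [dn_PP]; exact one_sub_s_le J' hlam
  have hdn0 := dn_nonneg J' (PP lam J')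
  have c1 : volume.real (A ∩ fl L (PP mu k)) ≤
      (l * h + 2 + 2 ^ J') / l * dn J' (PP lam J') * ((1 + 3 * (1 / 2 ^ k)) * dn J (PP mu J)) := by
    have h1 := pair ha hh hl hL (PP_per lam J') (PP_per mu k)
    have h2 : dn k (PP mu k) ≤ dn J (PP mu J) := by
      rw [dn_PP, dn_PP]
      have := s_antitone mu hk
      simp only at this
      linarith
    have h20 := dn_nonneg k (PP mu k)
    refine h1.trans ?_
    gcongr
  have c2 : ∀ r ∈ range (2 ^ k), volume.real (A ∩ fl L (QR k r J mu)) ≤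
      2 * Real.sqrt (D * D2 / (lam * mu)) * (1 / 2 ^ k) * Real.sqrt (MM k r) := by
    intro r _
    have hM := MM_pos k r
    have x1 : volume.real (A ∩ fl L (QR k r J mu)) ≤ D * (1 / lam) * (4 * (1 / 2 ^ k)) := by
      have h1 := pair ha hh hl hL (PP_per lam J') (mod_per k r)
      have h2 := dn_mod k r
      have h20 := dn_nonneg k (fun y => y % 2 ^ k = r)
      have h3 : volume.real (A ∩ fl L (QR k r J mu)) ≤
          volume.real (Set.Ico a (a + h) ∩ fl l (PP lam J') ∩ fl L (fun y => y % 2 ^ k = r)) := by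
        apply measureReal_mono _ (hfinA _)
        rintro x ⟨hx, hx2⟩
        exact ⟨hx, hx2.1⟩
      calc _ ≤ _ := h3.trans h1
        _ ≤ D * (1 / lam) * ((1 + 3) * (1 / 2 ^ k)) := by gcongr
        _ = _ := by ring
    have x2 : volume.real (A ∩ fl L (QR k r J mu)) ≤ D2 * ((1 / 2 ^ k) * (MM k r / mu)) := by
      have h1 := up1 ha hh hL (QR_per (r := r) hk mu)
      have h2 := dn_QR (r := r) hk hmu
      have h20 := dn_nonneg J (QR k r J mu)
      have h3 : volume.real (A ∩ fl L (QR k r J mu)) ≤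
          volume.real (Set.Ico a (a + h) ∩ fl L (QR k r J mu)) := by
        refine measureReal_mono (fun x (hx : x ∈ A ∩ fl L (QR k r J mu)) =>
          (⟨hx.1.1, hx.2⟩ : x ∈ Set.Ico a (a + h) ∩ fl L (QR k r J mu))) (ne_of_lt ?_)
        refine (measure_mono Set.inter_subset_left).trans_lt ?_
        rw [Real.volume_Ico]
        exact ENNReal.ofReal_lt_top
      calc _ ≤ _ := h3.trans h1
        _ ≤ D2 * ((1 / 2 ^ k) * (MM k r / mu)) := by gcongr
    have h0 : 0 ≤ volume.real (A ∩ fl L (QR k r J mu)) := measureReal_nonneg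
    have x3 : volume.real (A ∩ fl L (QR k r J mu)) ^ 2 ≤
        (D * (1 / lam) * (4 * (1 / 2 ^ k))) * (D2 * ((1 / 2 ^ k) * (MM k r / mu))) := by
      rw [sq]
      exact mul_le_mul x1 x2 h0 (by positivity)
    have x4 := Real.le_sqrt_of_sq_le x3
    refine x4.trans (le_of_eq ?_)
    have e : (D * (1 / lam) * (4 * (1 / 2 ^ k))) * (D2 * ((1 / 2 ^ k) * (MM k r / mu))) =
        (2 * (1 / 2 ^ k)) ^ 2 * ((D * D2 / (lam * mu)) * MM k r) := by
      field_simp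
      ring
    rw [e, Real.sqrt_mul (by positivity), Real.sqrt_sq (by positivity), Real.sqrt_mul (by positivity)]
    ring
  have c3 : volume.real (⋃ r ∈ range (2 ^ k), (A ∩ fl L (QR k r J mu))) ≤
      2 * Real.sqrt (D * D2 / (lam * mu)) * b ^ k := by
    refine (measureReal_biUnion_finset_le _ _).trans ((sum_le_sum c2).trans (le_of_eq ?_))
    rw [← mul_sum, sum_sqrt]
    field_simp
  have hfin2 : volume ((A ∩ fl L (PP mu k)) ∪ ⋃ r ∈ range (2 ^ k), (A ∩ fl L (QR k r J mu))) ≠ ⊤ := by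
    apply ne_of_lt
    refine (measure_mono (t := Set.Ico a (a + h)) ?_).trans_lt ?_
    · rintro x (hx | hx)
      · exact hx.1.1
      · rw [Set.mem_iUnion₂] at hx
        obtain ⟨r, _, hx⟩ := hx
        exact hx.1.1
    · rw [Real.volume_Ico]
      exact ENNReal.ofReal_lt_top
  calc _ ≤ _ := measureReal_mono hsub hfin2
    _ ≤ _ := measureReal_union_le _ _
    _ ≤ _ := add_le_add c1 c3

variable {l : ℕ → ℝ} {c : ℝ}

/-- the covariance -/
noncomputable def cw (l ψ : ℕ → ℝ) (I : Set ℝ) (m n : ℕ) : ℝ :=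
  volume.real (I ∩ (Ev l (ψ m) m ∩ Ev l (ψ n) n)) - pn (ψ m) m * volume.real (I ∩ Ev l (ψ n) n) -
    pn (ψ n) n * volume.real (I ∩ Ev l (ψ m) m) + pn (ψ m) m * pn (ψ n) n * volume.real I

theorem cw_comm (l ψ : ℕ → ℝ) (I : Set ℝ) (m n : ℕ) : cw l ψ I m n = cw l ψ I n m := by
  unfold cw
  rw [Set.inter_comm (Ev l (ψ m) m)]
  ring

theorem pn_le (lam : ℝ) (hlam : 0 < lam) (n : ℕ) : pn lam n ≤ 1 / lam := by
  unfold pn; exact one_sub_s_le _ hlam

theorem cw_triv (hl : Lac l c) {ψ : ℕ → ℝ} (hψ : ∀ n, 1 ≤ ψ n) {a h D : ℝ} (ha : 0 ≤ a) (hh : 0 < h)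
    (hD : ∀ n, dl l n ≤ D) (m n : ℕ) :
    cw l ψ (Set.Ico a (a + h)) m n ≤ (2 * h + D) * (1 / ψ n) := by
  unfold cw
  rw [vol_I hh]
  have hψn : 0 < ψ n := lt_of_lt_of_le one_pos (hψ n)
  have h1 : volume.real (Set.Ico a (a + h) ∩ (Ev l (ψ m) m ∩ Ev l (ψ n) n)) ≤ (h + D) * (1 / ψ n) := by
    have g1 : volume.real (Set.Ico a (a + h) ∩ (Ev l (ψ m) m ∩ Ev l (ψ n) n)) ≤
        volume.real (Set.Ico a (a + h) ∩ Ev l (ψ n) n) := by
      apply measureReal_mono _ (fin_I _)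
      rintro x ⟨hx1, _, hx2⟩
      exact ⟨hx1, hx2⟩
    have g2 := Ev_up hl ha hh (ψ n) n
    have g3 := pn_le (ψ n) hψn n
    have g4 := pn_nonneg (ψ n) n
    have g5 := hD n
    have g6 := hl.dl_pos n
    calc _ ≤ _ := g1.trans g2
      _ ≤ (h + D) * (1 / ψ n) := mul_le_mul (by linarith) g3 g4 (by linarith)
  have a1 := pn_nonneg (ψ m) m
  have a2 := pn_nonneg (ψ n) n
  have a3 := pn_le_one (ψ m) m
  have a4 := pn_le (ψ n) hψn n
  have h2 : pn (ψ m) m * pn (ψ n) n * h ≤ h * (1 / ψ n) := by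
    calc pn (ψ m) m * pn (ψ n) n * h ≤ 1 * (1 / ψ n) * h :=
          mul_le_mul_of_nonneg_right (mul_le_mul a3 a4 a2 zero_le_one) hh.le
      _ = _ := by ring
  have h3 : 0 ≤ pn (ψ m) m * volume.real (Set.Ico a (a + h) ∩ Ev l (ψ n) n) :=
    mul_nonneg a1 measureReal_nonneg
  have h4 : 0 ≤ pn (ψ n) n * volume.real (Set.Ico a (a + h) ∩ Ev l (ψ m) m) :=
    mul_nonneg a2 measureReal_nonneg
  linarith

theorem half_le_b : (1 : ℝ) / 2 ≤ b := by
  unfold b
  have h2 : 0 < Real.sqrt 2 := Real.sqrt_pos.2 (by norm_num)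
  have h3 : Real.sqrt 2 ≤ Real.sqrt 3 := Real.sqrt_le_sqrt (by norm_num)
  rw [div_le_div_iff₀ (by norm_num) (by positivity)]
  linarith

theorem cw_far (hl : Lac l c) {ψ : ℕ → ℝ} (hψ : ∀ n, 1 ≤ ψ n) {M : ℕ} (hM : 4 ≤ c ^ M) {a h : ℝ}
    (ha : 0 ≤ a) (hh : 0 < h) {m n : ℕ} (hmn : m < n) (hm : dl l m ≤ h) (hn : dl l n ≤ h) :
    cw l ψ (Set.Ico a (a + h)) m n ≤ 2 * (dl l m * (1 / ψ n) + dl l n * (1 / ψ m)) +
      8 * h * ((1 / ψ m + 1 / ψ n) * (1 / ((n : ℝ) + 2) ^ 3 + b ^ ((n - m) / M))) := by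
  have hc : 0 < c := by linarith [hl.one]
  have hb := b_pos
  have hb1 := b_lt_one
  have hlm := hl.lpos m
  have hln := hl.lpos n
  have hψm : 0 < ψ m := lt_of_lt_of_le one_pos (hψ m)
  have hψn : 0 < ψ n := lt_of_lt_of_le one_pos (hψ n)
  set k := min (Jn n) ((n - m) / M) with hk
  have hkL : 4 ^ k * l m ≤ l n := by
    have h1 : (4 : ℝ) ^ k ≤ c ^ (n - m) := by
      calc (4 : ℝ) ^ k ≤ (c ^ M) ^ k := pow_le_pow_left₀ (by norm_num) hM k
        _ = c ^ (M * k) := (pow_mul c M k).symm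
        _ ≤ c ^ (n - m) := by
            apply pow_le_pow_right₀ hl.one.le
            calc M * k ≤ M * ((n - m) / M) := Nat.mul_le_mul_left _ (min_le_right _ _)
              _ ≤ n - m := Nat.mul_div_le _ _
    have h2 := hl.ge m (n - m)
    rw [Nat.add_sub_cancel' hmn.le] at h2
    exact (mul_le_mul_of_nonneg_right h1 hlm.le).trans h2
  have hDe : ∀ i, (l i * h + 2 + 2 ^ Jn i) / l i = h + dl l i := by
    intro i
    have := hl.lpos i
    unfold dl
    field_simp; ring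
  have hD : ∀ i, dl l i ≤ h → (l i * h + 2 + 2 ^ Jn i) / l i ≤ 2 * h := by
    intro i hi
    rw [hDe]; linarith
  have h1 := near2 ha hh hlm (min_le_left (Jn n) ((n - m) / M)) hkL hψm hψn (hD m hm) (hD n hn)
  rw [pn_eq, pn_eq, hDe, ← hk] at h1
  have h2 : b ^ k ≤ 1 / ((n : ℝ) + 2) ^ 3 + b ^ ((n - m) / M) := by
    have h3 := b_Jn n
    have p1 : 0 < b ^ ((n - m) / M) := by positivity
    have p2 : (0 : ℝ) < 1 / ((n : ℝ) + 2) ^ 3 := by positivity
    rcases min_choice (Jn n) ((n - m) / M) with h4 | h4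
    · rw [hk, h4]; linarith
    · rw [hk, h4]; linarith
  have h3 : Real.sqrt (2 * h * (2 * h) / (ψ m * ψ n)) ≤ h * (1 / ψ m + 1 / ψ n) := by
    rw [Real.sqrt_le_left (by positivity)]
    have e : 2 * h * (2 * h) / (ψ m * ψ n) = h ^ 2 * (4 * (1 / ψ m) * (1 / ψ n)) := by field_simp; ring
    rw [e, mul_pow]
    apply mul_le_mul_of_nonneg_left _ (by positivity)
    nlinarith [sq_nonneg (1 / ψ m - 1 / ψ n)]
  have h4 : (1 : ℝ) / 2 ^ k ≤ b ^ k := by
    rw [← one_div_pow]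
    exact pow_le_pow_left₀ (by norm_num) half_le_b k
  have h5 := Ev_lo hl ha hh (ψ n) n
  have h6 := Ev_lo hl ha hh (ψ m) m
  unfold cw
  rw [vol_I hh, ← Set.inter_assoc]
  change volume.real (Set.Ico a (a + h) ∩ Ev l (ψ m) m ∩ Ev l (ψ n) n) ≤ _ at h1
  obtain ⟨P, hP⟩ : ∃ P, P = pn (ψ m) m := ⟨_, rfl⟩
  obtain ⟨Q, hQ⟩ : ∃ Q, Q = pn (ψ n) n := ⟨_, rfl⟩
  have a1 : 0 ≤ P := by rw [hP]; exact pn_nonneg _ _
  have a2 : 0 ≤ Q := by rw [hQ]; exact pn_nonneg _ _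
  have a3 : P ≤ 1 := by rw [hP]; exact pn_le_one _ _
  have a4 : Q ≤ 1 := by rw [hQ]; exact pn_le_one _ _
  have a5 : P ≤ 1 / ψ m := by rw [hP]; exact pn_le _ hψm _
  have a6 : Q ≤ 1 / ψ n := by rw [hQ]; exact pn_le _ hψn _
  rw [← hP, ← hQ] at h1 ⊢
  rw [← hQ] at h5
  rw [← hP] at h6
  have d1 := hl.dl_pos m
  have d2 := hl.dl_pos n
  have h7 := mul_le_mul_of_nonneg_left h5 a1
  have h8 := mul_le_mul_of_nonneg_left h6 a2
  obtain ⟨W, hW⟩ : ∃ W, W = 1 / ψ m + 1 / ψ n := ⟨_, rfl⟩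
  obtain ⟨G, hG⟩ : ∃ G, G = 1 / ((n : ℝ) + 2) ^ 3 + b ^ ((n - m) / M) := ⟨_, rfl⟩
  rw [← hG] at h2 ⊢
  rw [← hW] at h3 ⊢
  have hG0 : 0 ≤ G := by rw [hG]; positivity
  have hW0 : 0 ≤ W := by rw [hW]; positivity
  have hbk : 0 < b ^ k := by positivity
  have h9 : 2 * Real.sqrt (2 * h * (2 * h) / (ψ m * ψ n)) * b ^ k ≤ 2 * (h * W) * G :=
    mul_le_mul (mul_le_mul_of_nonneg_left h3 (by norm_num)) h2 hbk.le (by positivity)
  have hPQ : P * Q ≤ 1 / ψ n := by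
    calc P * Q ≤ 1 * (1 / ψ n) := mul_le_mul a3 a6 a2 zero_le_one
      _ = _ := one_mul _
  have hPQ2 : P * Q ≤ 1 / ψ m := by
    calc P * Q ≤ (1 / ψ m) * 1 := mul_le_mul a5 a4 a2 (by positivity)
      _ = _ := mul_one _
  have hPQ0 : 0 ≤ P * Q := mul_nonneg a1 a2
  have hPQW : P * Q ≤ W := by
    rw [hW]
    have : 0 < 1 / ψ m := by positivity
    linarith
  have h10 : (h + dl l m) * P * ((1 + 3 * (1 / 2 ^ k)) * Q) - P * ((h - dl l n) * Q) -
      Q * ((h - dl l m) * P) + P * Q * h ≤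
      2 * (dl l m * (1 / ψ n) + dl l n * (1 / ψ m)) + 6 * h * (W * G) := by
    have e : (h + dl l m) * P * ((1 + 3 * (1 / 2 ^ k)) * Q) - P * ((h - dl l n) * Q) -
      Q * ((h - dl l m) * P) + P * Q * h = 2 * dl l m * (P * Q) + dl l n * (P * Q) +
      3 * ((h + dl l m) * ((P * Q) * (1 / 2 ^ k))) := by ring
    rw [e]
    have i1 : dl l m * (P * Q) ≤ dl l m * (1 / ψ n) := mul_le_mul_of_nonneg_left hPQ d1.le
    have i2 : dl l n * (P * Q) ≤ dl l n * (1 / ψ m) := mul_le_mul_of_nonneg_left hPQ2 d2.le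
    have i3 : (P * Q) * (1 / 2 ^ k) ≤ W * G :=
      mul_le_mul hPQW (h4.trans h2) (by positivity) hW0
    have i4 : (h + dl l m) * ((P * Q) * (1 / 2 ^ k)) ≤ (2 * h) * (W * G) :=
      mul_le_mul (by linarith) i3 (by positivity) (by positivity)
    have i5 : 0 ≤ dl l n * (1 / ψ m) := by positivity
    linarith
  linarith

/-- the variance is bounded by the sum of the weights -/
theorem cw_sum (hl : Lac l c) {ψ : ℕ → ℝ} (hψ : ∀ n, 1 ≤ ψ n) {a h : ℝ} (ha : 0 ≤ a) (hh : 0 < h) :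
    ∃ K : ℝ, 0 < K ∧ ∀ N : ℕ, ∑ m ∈ range N, ∑ n ∈ range N, cw l ψ (Set.Ico a (a + h)) m n ≤
      K * ∑ n ∈ range N, 1 / ψ n := by
  obtain ⟨D, hD⟩ := hl.dl_tendsto.bddAbove_range
  have hD' : ∀ n, dl l n ≤ D := fun n => hD ⟨n, rfl⟩
  have hD0 : 0 < D := (hl.dl_pos 0).trans_le (hD' 0)
  obtain ⟨T0, hT0⟩ : ∃ T0, T0 = ∑' n, dl l n := ⟨_, rfl⟩
  have hsum : ∀ N, ∑ n ∈ range N, dl l n ≤ T0 := by
    intro N
    rw [hT0]
    exact hl.dl_summable.sum_le_tsum _ fun n _ => (hl.dl_pos n).le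
  have hT00 : 0 ≤ T0 := by have := hsum 0; simpa using this
  obtain ⟨M, hM⟩ := pow_unbounded_of_one_lt 4 hl.one
  have hM0 : 0 < M := by
    rcases Nat.eq_zero_or_pos M with h | h
    · rw [h, pow_zero] at hM; norm_num at hM
    · exact h
  obtain ⟨B, hB0, hB⟩ := corr_sum hM0
  obtain ⟨Z, hZ0, hZ⟩ := cube_sum
  have hb := b_pos
  have hψ0 : ∀ n, 0 < 1 / ψ n := fun n => one_div_pos.2 (lt_of_lt_of_le one_pos (hψ n))
  set K1 : ℝ := 2 + (2 * h + D) / h with hK1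
  set K2 : ℝ := 8 * h + D with hK2
  have hK10 : 0 < K1 := by positivity
  have hK20 : 0 < K2 := by positivity
  refine ⟨2 * (K1 * T0) + 2 * (K2 * (Z + B)), by positivity, fun N => ?_⟩
  set A := ∑ n ∈ range N, 1 / ψ n with hA
  have hlt : ∀ m n : ℕ, m < n → cw l ψ (Set.Ico a (a + h)) m n ≤
      K1 * (dl l m * (1 / ψ n) + dl l n * (1 / ψ m)) + K2 * ((1 / ψ m + 1 / ψ n) *
        (1 / (((max m n : ℕ) : ℝ) + 2) ^ 3 + b ^ ((max m n - min m n) / M))) := by
    intro m n hmn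
    rw [max_eq_right hmn.le, min_eq_left hmn.le]
    have d1 := hl.dl_pos m
    have d2 := hl.dl_pos n
    have w1 := hψ0 m
    have w2 := hψ0 n
    have g1 : 0 ≤ (1 / ψ m + 1 / ψ n) * (1 / ((n : ℝ) + 2) ^ 3 + b ^ ((n - m) / M)) := by positivity
    have g2 : 0 ≤ dl l m * (1 / ψ n) := by positivity
    have g3 : 0 ≤ dl l n * (1 / ψ m) := by positivity
    have g4 : 0 < (2 * h + D) / h := by positivity
    have hbig : ∀ i : ℕ, h < dl l i → ∀ w : ℝ, 0 ≤ w → (2 * h + D) * w ≤ (2 * h + D) / h * (dl l i * w) := by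
      intro i hi w hw
      calc (2 * h + D) * w = (2 * h + D) / h * (h * w) := by field_simp
        _ ≤ _ := by
          apply mul_le_mul_of_nonneg_left _ g4.le
          exact mul_le_mul_of_nonneg_right hi.le hw
    by_cases h1 : dl l m ≤ h
    · by_cases h2 : dl l n ≤ h
      · have h3 := cw_far hl hψ hM.le ha hh hmn h1 h2
        refine h3.trans ?_
        have g5 : 0 ≤ (2 * h + D) / h * (dl l m * (1 / ψ n) + dl l n * (1 / ψ m)) := by positivity
        have g6 : 0 ≤ D * ((1 / ψ m + 1 / ψ n) * (1 / ((n : ℝ) + 2) ^ 3 + b ^ ((n - m) / M))) := by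
          positivity
        rw [hK1, hK2, add_mul, add_mul]
        linarith
      · have h3 := cw_triv hl hψ ha hh hD' n m
        rw [cw_comm] at h3
        have h4 := hbig n (not_le.1 h2) _ w1.le
        have g5 : 0 ≤ K2 * ((1 / ψ m + 1 / ψ n) * (1 / ((n : ℝ) + 2) ^ 3 + b ^ ((n - m) / M))) := by
          positivity
        have g6 : (2 * h + D) / h * (dl l n * (1 / ψ m)) ≤ K1 * (dl l n * (1 / ψ m)) :=
          mul_le_mul_of_nonneg_right (by rw [hK1]; linarith) g3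
        have g7 : 0 ≤ K1 * (dl l m * (1 / ψ n)) := by positivity
        rw [mul_add K1]
        linarith
    · have h3 := cw_triv hl hψ ha hh hD' m n
      have h4 := hbig m (not_le.1 h1) _ w2.le
      have g5 : 0 ≤ K2 * ((1 / ψ m + 1 / ψ n) * (1 / ((n : ℝ) + 2) ^ 3 + b ^ ((n - m) / M))) := by
        positivity
      have g6 : (2 * h + D) / h * (dl l m * (1 / ψ n)) ≤ K1 * (dl l m * (1 / ψ n)) :=
        mul_le_mul_of_nonneg_right (by rw [hK1]; linarith) g2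
      have g7 : 0 ≤ K1 * (dl l n * (1 / ψ m)) := by positivity
      rw [mul_add K1]
      linarith
  have hall : ∀ m n : ℕ, cw l ψ (Set.Ico a (a + h)) m n ≤
      K1 * (dl l m * (1 / ψ n) + dl l n * (1 / ψ m)) + K2 * ((1 / ψ m + 1 / ψ n) *
        (1 / (((max m n : ℕ) : ℝ) + 2) ^ 3 + b ^ ((max m n - min m n) / M))) := by
    intro m n
    rcases lt_trichotomy m n with hmn | hmn | hmn
    · exact hlt m n hmn
    · subst hmn
      rw [max_self, min_self, Nat.sub_self, Nat.zero_div, pow_zero]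
      have h3 := cw_triv hl hψ ha hh hD' m m
      have w1 := hψ0 m
      have d1 := hl.dl_pos m
      have g1 : 0 ≤ K1 * (dl l m * (1 / ψ m) + dl l m * (1 / ψ m)) := by positivity
      have g2 : 0 ≤ K2 * ((1 / ψ m + 1 / ψ m) * (1 / ((m : ℝ) + 2) ^ 3)) := by positivity
      have g3 : (2 * h + D) * (1 / ψ m) ≤ K2 * ((1 / ψ m + 1 / ψ m) * 1) := by
        rw [hK2]
        nlinarith
      rw [mul_add (1 / ψ m + 1 / ψ m), mul_add K2]
      linarith
    · rw [cw_comm, max_comm, min_comm]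
      refine (hlt n m hmn).trans (le_of_eq ?_)
      ring
  have hG : ∀ m, ∑ n ∈ range N, (1 / (((max m n : ℕ) : ℝ) + 2) ^ 3 + b ^ ((max m n - min m n) / M)) ≤
      Z + B := by
    intro m
    rw [sum_add_distrib]
    exact add_le_add (hZ m _) (hB m _)
  have hS1 : ∑ m ∈ range N, ∑ n ∈ range N, 1 / ψ m *
      (1 / (((max m n : ℕ) : ℝ) + 2) ^ 3 + b ^ ((max m n - min m n) / M)) ≤ (Z + B) * A := by
    rw [hA, mul_sum]
    apply sum_le_sum
    intro m _
    rw [← mul_sum, mul_comm]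
    exact mul_le_mul_of_nonneg_right (hG m) (hψ0 m).le
  have hS2 : ∑ m ∈ range N, ∑ n ∈ range N, 1 / ψ n *
      (1 / (((max m n : ℕ) : ℝ) + 2) ^ 3 + b ^ ((max m n - min m n) / M)) ≤ (Z + B) * A := by
    rw [sum_comm]
    refine le_trans (le_of_eq ?_) hS1
    refine sum_congr rfl fun m _ => sum_congr rfl fun n _ => ?_
    rw [max_comm, min_comm]
  have hA0 : 0 ≤ A := sum_nonneg fun n _ => (hψ0 n).le
  have hS3 : ∑ m ∈ range N, ∑ n ∈ range N, dl l m * (1 / ψ n) ≤ T0 * A := by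
    rw [← sum_mul_sum]
    exact mul_le_mul_of_nonneg_right (hsum N) hA0
  have hS4 : ∑ m ∈ range N, ∑ n ∈ range N, dl l n * (1 / ψ m) ≤ T0 * A := by
    rw [sum_comm]; exact hS3
  calc ∑ m ∈ range N, ∑ n ∈ range N, cw l ψ (Set.Ico a (a + h)) m n
      ≤ ∑ m ∈ range N, ∑ n ∈ range N, (K1 * (dl l m * (1 / ψ n) + dl l n * (1 / ψ m)) +
        K2 * ((1 / ψ m + 1 / ψ n) *
        (1 / (((max m n : ℕ) : ℝ) + 2) ^ 3 + b ^ ((max m n - min m n) / M)))) :=
        sum_le_sum fun m _ => sum_le_sum fun n _ => hall m n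
    _ = K1 * (∑ m ∈ range N, ∑ n ∈ range N, dl l m * (1 / ψ n) +
        ∑ m ∈ range N, ∑ n ∈ range N, dl l n * (1 / ψ m)) +
        K2 * (∑ m ∈ range N, ∑ n ∈ range N, 1 / ψ m *
          (1 / (((max m n : ℕ) : ℝ) + 2) ^ 3 + b ^ ((max m n - min m n) / M)) +
        ∑ m ∈ range N, ∑ n ∈ range N, 1 / ψ n *
          (1 / (((max m n : ℕ) : ℝ) + 2) ^ 3 + b ^ ((max m n - min m n) / M))) := by
        simp only [mul_sum, ← sum_add_distrib]
        refine sum_congr rfl fun m _ => sum_congr rfl fun n _ => ?_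
        ring
    _ ≤ K1 * (T0 * A + T0 * A) + K2 * ((Z + B) * A + (Z + B) * A) := by
        apply add_le_add
        · exact mul_le_mul_of_nonneg_left (add_le_add hS3 hS4) hK10.le
        · exact mul_le_mul_of_nonneg_left (add_le_add hS1 hS2) hK20.le
    _ = _ := by ring

end Pool.Agent.K7.H13.KX
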