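import Pool.Agent.W36.SL.Uni2

/-! Periodic sets of natural numbers: counting in intervals, and the residues with a large factor
after a given residue. -/

set_option autoImplicit false

namespace Pool.Agent.K7.H13.KX

open Finset Pool.Agent.Helper894.Collatz Pool.Agent.H828R3.Exc Pool.Agent.W36.SL

/-- `P` is periodic modulo `2 ^ J` -/
def Per (J : ℕ) (P : ℕ → Prop) : Prop := ∀ x c, P (x + 2 ^ J * c) ↔ P x

open Classical in
/-- the proportion of a periodic set -/
noncomputable def dn (J : ℕ) (P : ℕ → Prop) : ℝ := (((range (2 ^ J)).filter P).card : ℝ) / 2 ^ J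

theorem dn_nonneg (J : ℕ) (P : ℕ → Prop) : 0 ≤ dn J P := by unfold dn; positivity

theorem dn_le_one (J : ℕ) (P : ℕ → Prop) : dn J P ≤ 1 := by
  classical
  unfold dn
  rw [div_le_one (by positivity)]
  have := card_filter_le (range (2 ^ J)) P
  rw [card_range] at this
  exact_mod_cast this

theorem Per.mono {J K : ℕ} (h : J ≤ K) {P : ℕ → Prop} (hP : Per J P) : Per K P := by
  intro x c
  obtain ⟨d, rfl⟩ := Nat.exists_eq_add_of_le h
  rw [pow_add, mul_assoc]
  exact hP x _

open Classical in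
theorem cnt_blocks {J : ℕ} {P : ℕ → Prop} (hP : Per J P) (n : ℕ) : ∀ a : ℕ,
    ((Ico n (n + 2 ^ J * a)).filter P).card = a * ((range (2 ^ J)).filter P).card := by
  intro a
  induction a with
  | zero => simp
  | succ a ih =>
    have h1 : Ico n (n + 2 ^ J * (a + 1)) =
        Ico n (n + 2 ^ J * a) ∪ Ico (n + 2 ^ J * a) (n + 2 ^ J * a + 2 ^ J) := by
      rw [Ico_union_Ico_eq_Ico (Nat.le_add_right _ _) (Nat.le_add_right _ _)]
      congr 1
      ring
    rw [h1, filter_union, card_union_of_disjoint, ih]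
    · have h2 := Nat.filter_Ico_card_eq_of_periodic (n + 2 ^ J * a) (2 ^ J) P (by
        intro x
        have := hP x 1
        rw [mul_one] at this
        exact propext this)
      rw [h2, Nat.count_eq_card_filter_range]
      ring
    · apply disjoint_filter_filter
      rw [disjoint_left]
      intro x hx hx2
      rw [mem_Ico] at hx hx2
      omega

open Classical in
theorem cnt_int {J : ℕ} {P : ℕ → Prop} (hP : Per J P) (n H : ℕ) :
    (((Ico n (n + H)).filter P).card : ℝ) ≤ (H + 2 ^ J) * dn J P ∧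
    ((H : ℝ) - 2 ^ J) * dn J P ≤ (((Ico n (n + H)).filter P).card : ℝ) := by
  have hM : 0 < 2 ^ J := by positivity
  have hdm := Nat.div_add_mod H (2 ^ J)
  have hml := Nat.mod_lt H hM
  set a := H / 2 ^ J with ha
  have hsub1 : (Ico n (n + 2 ^ J * a)).filter P ⊆ (Ico n (n + H)).filter P :=
    filter_subset_filter _ (Ico_subset_Ico_right (by omega))
  have hsub2 : (Ico n (n + H)).filter P ⊆ (Ico n (n + 2 ^ J * (a + 1))).filter P :=
    filter_subset_filter _ (Ico_subset_Ico_right (by rw [mul_add, mul_one]; omega))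
  have h1 := card_le_card hsub1
  have h2 := card_le_card hsub2
  rw [cnt_blocks hP] at h1 h2
  have h1' : (a : ℝ) * (((range (2 ^ J)).filter P).card : ℝ) ≤
      (((Ico n (n + H)).filter P).card : ℝ) := by exact_mod_cast h1
  have h2' : (((Ico n (n + H)).filter P).card : ℝ) ≤
      ((a : ℝ) + 1) * (((range (2 ^ J)).filter P).card : ℝ) := by exact_mod_cast h2
  have hMR : (0 : ℝ) < 2 ^ J := by positivity
  have hc0 : (0 : ℝ) ≤ (((range (2 ^ J)).filter P).card : ℝ) := Nat.cast_nonneg _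
  have ha1 : (a : ℝ) * 2 ^ J ≤ H := by
    have : a * 2 ^ J ≤ H := by rw [mul_comm]; omega
    exact_mod_cast this
  have ha2 : (H : ℝ) ≤ (a + 1) * 2 ^ J := by
    have : H ≤ (a + 1) * 2 ^ J := by rw [add_mul, one_mul, mul_comm a]; omega
    exact_mod_cast this
  have hd : (((range (2 ^ J)).filter P).card : ℝ) = 2 ^ J * dn J P := by
    unfold dn; field_simp
  have hd0 := dn_nonneg J P
  rw [hd] at h1' h2'
  constructor
  · refine h2'.trans ?_
    rw [← mul_assoc]
    apply mul_le_mul_of_nonneg_right _ hd0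
    linarith
  · refine le_trans ?_ h1'
    rw [← mul_assoc]
    apply mul_le_mul_of_nonneg_right _ hd0
    linarith

theorem perm (N A B : ℕ) (hB : Nat.Coprime B 2) (f : ℕ → ℝ) (hf : ∀ x, f (x % 2 ^ N) = f x) :
    ∑ m ∈ range (2 ^ N), f (A + B * m) = ∑ m ∈ range (2 ^ N), f m := by
  classical
  have hN : 0 < 2 ^ N := by positivity
  have hinj : Set.InjOn (fun m => (A + B * m) % 2 ^ N) (range (2 ^ N) : Set ℕ) := by
    intro a ha c hc h
    rw [mem_coe, mem_range] at ha hc
    have h1 : A + B * a ≡ A + B * c [MOD 2 ^ N] := h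
    have h2 : B * a ≡ B * c [MOD 2 ^ N] := Nat.ModEq.add_left_cancel' A h1
    have h3 : a ≡ c [MOD 2 ^ N] :=
      Nat.ModEq.cancel_left_of_coprime (Nat.Coprime.pow_left _ hB.symm) h2
    rwa [Nat.ModEq, Nat.mod_eq_of_lt ha, Nat.mod_eq_of_lt hc] at h3
  have himg : (range (2 ^ N)).image (fun m => (A + B * m) % 2 ^ N) = range (2 ^ N) := by
    apply eq_of_subset_of_card_le
    · intro y hy
      rw [mem_image] at hy
      obtain ⟨m, _, rfl⟩ := hy
      exact mem_range.2 (Nat.mod_lt _ hN)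
    · rw [card_image_of_injOn hinj]
  calc ∑ m ∈ range (2 ^ N), f (A + B * m)
      = ∑ m ∈ range (2 ^ N), f ((A + B * m) % 2 ^ N) := sum_congr rfl fun m _ => (hf _).symm
    _ = ∑ y ∈ (range (2 ^ N)).image (fun m => (A + B * m) % 2 ^ N), f y := by
        rw [sum_image hinj]
    _ = _ := by rw [himg]

theorem PP_per (lam : ℝ) (J : ℕ) : Per J (PP lam J) := fun x c => PP_shift lam J x c

theorem dn_PP (lam : ℝ) (J : ℕ) : dn J (PP lam J) = 1 - s J lam := by
  classical
  unfold dn
  have h := card_PP J lam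
  rw [div_eq_iff (by positivity), mul_comm, ← h]

theorem one_sub_s_le (J : ℕ) {lam : ℝ} (h : 0 < lam) : 1 - s J lam ≤ 1 / lam := by
  have := s_ge J lam h
  linarith

/-- the residues `r` modulo `2 ^ k` followed by a value `≥ mu` of the factor -/
def QR (k r J : ℕ) (mu : ℝ) (y : ℕ) : Prop := y % 2 ^ k = r ∧ ∃ j ≤ J, k ≤ j ∧ mu ≤ MM j y

theorem QR_per {k r J : ℕ} (hk : k ≤ J) (mu : ℝ) : Per J (QR k r J mu) := by
  intro x c
  unfold QR
  have h1 : (x + 2 ^ J * c) % 2 ^ k = x % 2 ^ k := by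
    obtain ⟨d, rfl⟩ := Nat.exists_eq_add_of_le hk
    rw [pow_add, mul_assoc, Nat.add_mul_mod_self_left]
  rw [h1]
  apply and_congr Iff.rfl
  constructor
  · rintro ⟨j, hj, hkj, h⟩
    exact ⟨j, hj, hkj, by rwa [MM_shift hj] at h⟩
  · rintro ⟨j, hj, hkj, h⟩
    exact ⟨j, hj, hkj, by rwa [MM_shift hj]⟩

theorem MM_add (k j r z : ℕ) : MM (k + j) (r + 2 ^ k * z) =
    MM k r * MM j (T^[k] r + 3 ^ od k r * z) := by
  unfold MM
  obtain ⟨h1, h2, _⟩ := period k r z
  rw [od_add, h1, h2, pow_add, pow_add]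
  field_simp

open Classical in
theorem dn_QR {k r J : ℕ} (hk : k ≤ J) {mu : ℝ} (hmu : 0 < mu) :
    dn J (QR k r J mu) ≤ (1 / 2 ^ k) * (MM k r / mu) := by
  obtain ⟨d, rfl⟩ := Nat.exists_eq_add_of_le hk
  have hM := MM_pos k r
  set nu : ℝ := mu / MM k r with hnu
  have hnu0 : 0 < nu := by positivity
  have h1 : ((range (2 ^ (k + d))).filter (QR k r (k + d) mu)).card ≤
      ((range (2 ^ d)).filter (fun z => PP nu d (T^[k] r + 3 ^ od k r * z))).card := by
    apply card_le_card_of_injOn (fun y => y / 2 ^ k)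
    · intro y hy
      rw [mem_coe, mem_filter, mem_range] at hy
      obtain ⟨hy1, hy2, j, hj, hkj, hy3⟩ := hy
      have e1 : y = r + 2 ^ k * (y / 2 ^ k) := by rw [← hy2, Nat.mod_add_div]
      rw [mem_coe, mem_filter, mem_range]
      refine ⟨Nat.div_lt_of_lt_mul (by rwa [← pow_add]), ?_⟩
      obtain ⟨i, rfl⟩ := Nat.exists_eq_add_of_le hkj
      refine ⟨i, by omega, ?_⟩
      rw [ge_iff]
      rw [e1, MM_add] at hy3
      rw [hnu, div_le_iff₀ hM, mul_comm]
      exact hy3
    · intro y hy y' hy' h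
      rw [mem_coe, mem_filter] at hy hy'
      have e1 : y = r + 2 ^ k * (y / 2 ^ k) := by
        conv_lhs => rw [← Nat.mod_add_div y (2 ^ k), hy.2.1]
      have e2 : y' = r + 2 ^ k * (y' / 2 ^ k) := by
        conv_lhs => rw [← Nat.mod_add_div y' (2 ^ k), hy'.2.1]
      simp only at h
      rw [e1, e2, h]
  have h2 : (((range (2 ^ d)).filter (fun z => PP nu d (T^[k] r + 3 ^ od k r * z))).card : ℝ) =
      2 ^ d * (1 - s d nu) := by
    rw [← card_PP d nu]
    have e : ∀ P : ℕ → Prop, (((range (2 ^ d)).filter P).card : ℝ) =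
        ∑ z ∈ range (2 ^ d), if P z then (1 : ℝ) else 0 := by
      intro P
      rw [sum_ite, sum_const_zero, add_zero, sum_const, nsmul_eq_mul, mul_one]
    rw [e, e]
    exact perm d (T^[k] r) (3 ^ od k r) (Nat.Coprime.pow_left _ (by norm_num))
      (fun z => if PP nu d z then (1 : ℝ) else 0) (fun x => by simp only [PP_mod])
  have h3 := one_sub_s_le d hnu0
  unfold dn
  rw [div_le_iff₀ (by positivity)]
  calc (((range (2 ^ (k + d))).filter (QR k r (k + d) mu)).card : ℝ)
      ≤ 2 ^ d * (1 - s d nu) := by rw [← h2]; exact_mod_cast h1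
    _ ≤ 2 ^ d * (1 / nu) := by gcongr
    _ = _ := by rw [hnu, pow_add]; field_simp

end Pool.Agent.K7.H13.KX
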