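import Pool.Agent.K7.H13.KX.Mea

/-! Periodic sets at two levels. -/

set_option autoImplicit false

namespace Pool.Agent.K7.H13.KX

open Finset Pool.Agent.Helper894.Collatz Pool.Agent.H828R3.Exc Pool.Agent.W36.SL

theorem dn_level {J J' : ℕ} (h : J ≤ J') {P : ℕ → Prop} (hP : Per J P) : dn J' P = dn J P := by
  classical
  obtain ⟨d, rfl⟩ := Nat.exists_eq_add_of_le h
  have h1 := cnt_blocks hP 0 (2 ^ d)
  rw [zero_add, ← pow_add, ← range_eq_Ico] at h1
  unfold dn
  rw [h1, pow_add]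
  push_cast
  field_simp

theorem Per.and {J : ℕ} {P Q : ℕ → Prop} (hP : Per J P) (hQ : Per J Q) : Per J fun y => P y ∧ Q y :=
  fun x c => and_congr (hP x c) (hQ x c)

theorem Per.not {J : ℕ} {P : ℕ → Prop} (hP : Per J P) : Per J fun y => ¬ P y :=
  fun x c => not_congr (hP x c)

theorem PP_mono {lam : ℝ} {J J' : ℕ} (h : J ≤ J') {y : ℕ} (hy : PP lam J y) : PP lam J' y := by
  obtain ⟨j, hj, hy⟩ := hy
  exact ⟨j, hj.trans h, hy⟩

theorem dn_diff' {J : ℕ} {P Q R : ℕ → Prop} (h : ∀ y, Q y → P y) (hR : ∀ y, R y ↔ P y ∧ ¬ Q y) :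
    dn J R = dn J P - dn J Q := by
  classical
  unfold dn
  have h1 : ((range (2 ^ J)).filter R).card + ((range (2 ^ J)).filter Q).card =
      ((range (2 ^ J)).filter P).card := by
    rw [← card_union_of_disjoint]
    · congr 1
      ext y
      simp only [mem_union, mem_filter, hR]
      constructor
      · rintro (⟨h1, h2, _⟩ | ⟨h1, h2⟩)
        · exact ⟨h1, h2⟩
        · exact ⟨h1, h y h2⟩
      · rintro ⟨h1, h2⟩
        by_cases hq : Q y
        · exact Or.inr ⟨h1, hq⟩
        · exact Or.inl ⟨h1, h2, hq⟩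
    · rw [disjoint_left]
      intro y hy hy2
      rw [mem_filter, hR] at hy
      rw [mem_filter] at hy2
      exact hy.2.2 hy2.2
  rw [← sub_div]
  congr 1
  have h2 : (((range (2 ^ J)).filter R).card : ℝ) +
      (((range (2 ^ J)).filter Q).card : ℝ) = (((range (2 ^ J)).filter P).card : ℝ) := by
    exact_mod_cast h1
  linarith

theorem dn_diff {J : ℕ} {P Q : ℕ → Prop} (h : ∀ y, Q y → P y) :
    dn J (fun y => P y ∧ ¬ Q y) = dn J P - dn J Q := dn_diff' h fun _ => Iff.rfl

/-- the residues for which a value `≥ lam` of the factor occurs late -/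
theorem dn_mid {J J' : ℕ} (h : J ≤ J') {lam : ℝ} (hlam : 0 < lam) :
    dn J' (fun y => PP lam J' y ∧ ¬ PP lam J y) ≤ b ^ J / Real.sqrt lam := by
  rw [dn_diff fun y hy => PP_mono h hy, dn_level h (PP_per lam J), dn_PP, dn_PP]
  have h1 := s_sub_q J lam hlam
  have h2 := q_le_s J' lam
  linarith

end Pool.Agent.K7.H13.KX
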