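import Pool.Agent.K7.H13.KX.Near
import Pool.Agent.K7.H13.KX.Gen3

/-! The number of large excursions along a lacunary sequence. -/

set_option autoImplicit false

namespace Pool.Agent.K7.H13.KX

open Finset Filter Topology MeasureTheory Pool.Agent.Helper894.Collatz Pool.Agent.H828R3.Exc
  Pool.Agent.W36.SL

attribute [local irreducible] Jn

variable {l : ℕ → ℝ} {c : ℝ}

/-- weighted averages -/
theorem wavg {w t : ℕ → ℝ} (hw : ∀ n, 0 < w n) (hns : ¬ Summable w) {v : ℝ}
    (ht : Tendsto t atTop (𝓝 v)) :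
    Tendsto (fun N => (∑ n ∈ range N, t n * w n) / ∑ n ∈ range N, w n) atTop (𝓝 v) := by
  have hWt : Tendsto (fun N => ∑ n ∈ range N, w n) atTop atTop :=
    (not_summable_iff_tendsto_nat_atTop_of_nonneg fun n => (hw n).le).1 hns
  have h1 : Tendsto (fun N => (∑ n ∈ range N, (t n - v) * w n) / ∑ n ∈ range N, w n) atTop (𝓝 0) := by
    rw [Metric.tendsto_atTop]
    intro ε hε
    have h2 : ∀ᶠ n in atTop, |t n - v| < ε / 2 := by
      have := (Metric.tendsto_atTop.1 ht) (ε / 2) (by linarith)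
      obtain ⟨N, hN⟩ := this
      filter_upwards [eventually_ge_atTop N] with n hn
      have := hN n hn
      rwa [Real.dist_eq] at this
    obtain ⟨n0, hn0⟩ := eventually_atTop.1 h2
    set B : ℝ := ∑ n ∈ range n0, |t n - v| * w n with hB
    have hB0 : 0 ≤ B := sum_nonneg fun n _ => mul_nonneg (abs_nonneg _) (hw n).le
    obtain ⟨N1, hN1⟩ := eventually_atTop.1 (hWt.eventually_gt_atTop (2 * B / ε))
    refine ⟨max N1 (n0 + 1), fun N hN => ?_⟩
    have hWN := hN1 N ((le_max_left _ _).trans hN)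
    have hNn : n0 ≤ N := by have := (le_max_right N1 (n0 + 1)).trans hN; omega
    have hW0 : 0 < ∑ n ∈ range N, w n := lt_of_le_of_lt (by positivity) hWN
    rw [Real.dist_eq, sub_zero, abs_div, abs_of_pos hW0, div_lt_iff₀ hW0]
    rw [div_lt_iff₀ hε] at hWN
    have h3 : |∑ n ∈ range N, (t n - v) * w n| ≤ B + ε / 2 * ∑ n ∈ range N, w n := by
      calc |∑ n ∈ range N, (t n - v) * w n| ≤ ∑ n ∈ range N, |(t n - v) * w n| := abs_sum_le_sum_abs _ _
        _ = ∑ n ∈ range N, |t n - v| * w n := sum_congr rfl fun n _ => by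
            rw [abs_mul, abs_of_pos (hw n)]
        _ = B + ∑ n ∈ Ico n0 N, |t n - v| * w n := by
            rw [hB, range_eq_Ico, range_eq_Ico, sum_Ico_consecutive _ (Nat.zero_le _) hNn]
        _ ≤ B + ∑ n ∈ Ico n0 N, ε / 2 * w n := by
            apply add_le_add le_rfl
            apply sum_le_sum
            intro n hn
            exact mul_le_mul_of_nonneg_right (hn0 n (mem_Ico.1 hn).1).le (hw n).le
        _ ≤ B + ε / 2 * ∑ n ∈ range N, w n := by
            rw [mul_sum]
            apply add_le_add le_rfl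
            apply sum_le_sum_of_subset_of_nonneg
            · intro n hn
              exact mem_range.2 (mem_Ico.1 hn).2
            · intro n _ _
              have := hw n
              positivity
    linarith
  have h2 := h1.add_const v
  rw [zero_add] at h2
  refine h2.congr' ?_
  filter_upwards [hWt.eventually_gt_atTop 0] with N hN
  simp only [sub_mul, sum_sub_distrib, ← mul_sum]
  field_simp
  ring

/-- the law for the events of growing depth -/
theorem quantPP (hl : Lac l c) {ψ : ℕ → ℝ} (hψ : ∀ n, 1 ≤ ψ n) (hψt : Tendsto ψ atTop atTop)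
    (hψu : ∀ n, ψ n ≤ ((n : ℝ) + 2) ^ 2) (hs : ¬ Summable fun n => 1 / ψ n) {a h : ℝ} (ha : 0 ≤ a)
    (hh : 0 < h) : ∀ᵐ x ∂(volume.restrict (Set.Ico a (a + h))),
      Tendsto (fun N : ℕ => cnt (fun n => PP (ψ n) (Jn n) (xn l x n)) N / ∑ n ∈ range N, 1 / ψ n) atTop
        (𝓝 C) := by
  classical
  have := fin_rest a h
  obtain ⟨K, hK0, hK⟩ := cw_sum hl hψ ha hh
  have hψ0 : ∀ n, 0 < ψ n := fun n => lt_of_lt_of_le one_pos (hψ n)
  have hr : ∀ S : Set ℝ, MeasurableSet S →
      (volume.restrict (Set.Ico a (a + h))).real S = volume.real (Set.Ico a (a + h) ∩ S) := by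
    intro S hS
    rw [measureReal_restrict_apply hS, Set.inter_comm]
  have hq : Tendsto (fun n => pn (ψ n) n * ψ n) atTop (𝓝 C) := by
    have h1 : Tendsto (fun n => ψ n * p (ψ n)) atTop (𝓝 C) := p_tendsto.comp hψt
    have h2 : Tendsto (fun n : ℕ => 1 / ((n : ℝ) + 2)) atTop (𝓝 0) :=
      tendsto_const_nhds.div_atTop (tendsto_atTop_add_const_right _ _ tendsto_natCast_atTop_atTop)
    have h3 := h1.sub h2
    rw [sub_zero] at h3
    refine tendsto_of_tendsto_of_tendsto_of_le_of_le h3 h1 (fun n => ?_) (fun n => ?_)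
    · have h4 := s_sub_q (Jn n) (ψ n) (hψ0 n)
      have h5 := b_Jn n
      have hs : 0 < Real.sqrt (ψ n) := Real.sqrt_pos.2 (hψ0 n)
      have hn0 : (1 : ℝ) ≤ (n : ℝ) + 2 := by
        have : (0 : ℝ) ≤ n := Nat.cast_nonneg n
        linarith
      have hs2 : Real.sqrt (ψ n) ≤ (n : ℝ) + 2 := by
        rw [Real.sqrt_le_left (by positivity)]; exact hψu n
      have h6 : b ^ Jn n / Real.sqrt (ψ n) * ψ n ≤ 1 / ((n : ℝ) + 2) := by
        have e : b ^ Jn n / Real.sqrt (ψ n) * ψ n = b ^ Jn n * Real.sqrt (ψ n) := by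
          rw [div_mul_eq_mul_div, div_eq_iff hs.ne', mul_assoc, Real.mul_self_sqrt (hψ0 n).le]
        rw [e]
        calc b ^ Jn n * Real.sqrt (ψ n) ≤ (1 / ((n : ℝ) + 2) ^ 3) * ((n : ℝ) + 2) :=
              mul_le_mul h5 hs2 hs.le (by positivity)
          _ = 1 / ((n : ℝ) + 2) ^ 2 := by field_simp
          _ ≤ _ := by
              apply one_div_le_one_div_of_le (by positivity)
              nlinarith
      have h7 : (s (Jn n) (ψ n) - q (ψ n)) * ψ n ≤ 1 / ((n : ℝ) + 2) :=
        (mul_le_mul_of_nonneg_right h4 (hψ0 n).le).trans h6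
      simp only
      unfold pn p
      linarith
    · have h4 := q_le_s (Jn n) (ψ n)
      simp only
      unfold pn p
      rw [mul_comm]
      exact mul_le_mul_of_nonneg_left (by linarith) (hψ0 n).le
  have hPW : Tendsto (fun N => (∑ n ∈ range N, pn (ψ n) n) / ∑ n ∈ range N, 1 / ψ n) atTop (𝓝 C) := by
    have h1 := wavg (fun n => one_div_pos.2 (hψ0 n)) hs hq
    refine h1.congr fun N => ?_
    congr 1
    refine sum_congr rfl fun n _ => ?_
    have := (hψ0 n).ne'
    field_simp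
  have h1 := qbc (μ := volume.restrict (Set.Ico a (a + h))) (E := fun n => Ev l (ψ n) n)
    (fun n => Ev_meas _ _ _) (p := fun n => pn (ψ n) n) (w := fun n => 1 / ψ n)
    (fun n => ⟨pn_nonneg _ n, pn_le_one _ n⟩)
    (fun n => ⟨(one_div_pos.2 (hψ0 n)).le, by rw [div_le_one (hψ0 n)]; exact hψ n⟩) hs hK0 (by
      intro N
      refine le_trans (le_of_eq ?_) (hK N)
      refine sum_congr rfl fun m _ => sum_congr rfl fun n _ => ?_
      unfold cw
      rw [hr _ ((Ev_meas l _ m).inter (Ev_meas l _ n)), hr _ (Ev_meas l _ m),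
        hr _ (Ev_meas l _ n), hr _ MeasurableSet.univ, Set.inter_univ]) hPW
  filter_upwards [h1] with x hx
  refine hx.congr fun N => ?_
  congr 1
  unfold cnt
  rw [card_filter]
  push_cast
  refine sum_congr rfl fun n _ => ?_
  rw [Set.indicator_apply]
  rfl

/-- almost surely the excursions are visible in the first steps, eventually; varying levels -/
theorem late_seq (hl : Lac l c) {ψ : ℕ → ℝ} (hψ : ∀ n, 1 ≤ ψ n) {a h θ e : ℝ} (ha : 0 < a)
    (hh : 0 < h) (hθ : 0 < θ) (he : 0 < e) :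
    ∀ᵐ x ∂(volume.restrict (Set.Ico a (a + h))), ∀ᶠ n in atTop,
      ex l (ψ n) θ x n → PP (ψ n / (1 + e)) (Jn n) (xn l x n) := by
  classical
  have := fin_rest a h
  obtain ⟨ε, hε, hlate⟩ := late_asym (show 0 < θ / 2 by linarith) he
  have hX : Tendsto (fun n => l n * (a + h)) atTop atTop := hl.l_tendsto.atTop_mul_const (by linarith)
  set B : ℝ := (2 * h + a + 1) / Real.sqrt (1 / (1 + e)) with hB
  have hs : 0 < Real.sqrt (1 / (1 + e)) := Real.sqrt_pos.2 (by positivity)
  have hlam0 : ∀ n, 0 < ψ n / (1 + e) := fun n => div_pos (lt_of_lt_of_le one_pos (hψ n)) (by linarith)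
  have hsn : ∀ n, Real.sqrt (1 / (1 + e)) ≤ Real.sqrt (ψ n / (1 + e)) := fun n =>
    Real.sqrt_le_sqrt (div_le_div_of_nonneg_right (hψ n) (by linarith))
  have hu : Summable fun n : ℕ => (a + h) * ((a + h) ^ (-ε) * (l n) ^ (-ε)) + B * (1 / ((n : ℝ) + 2) ^ 3) := by
    apply Summable.add
    · exact ((hl.rpow_summable hε).mul_left _).mul_left _
    · apply Summable.mul_left
      have h1 : Summable fun n : ℕ => 1 / (n : ℝ) ^ 3 := Real.summable_one_div_nat_pow.2 (by norm_num)
      refine ((summable_nat_add_iff 2).2 h1).congr fun n => ?_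
      push_cast; rfl
  have hbc := bc (μ := volume.restrict (Set.Ico a (a + h)))
    (S := fun n => {x | x ∈ Set.Ico a (a + h) ∧ ex l (ψ n) θ x n ∧
      ¬ PP (ψ n / (1 + e)) (Jn n) (xn l x n)}) hu (by
    filter_upwards [hX.eventually hlate, scale hl ha hh hθ] with n hn hsc
    obtain ⟨J, hJ, hcnt⟩ := hn
    obtain ⟨hsc1, hsc2, hsc3⟩ := hsc
    have hln := hl.lpos n
    have hX0 : 0 < l n * (a + h) := by positivity
    set Y0 : ℝ := (l n * (a + h)) ^ (θ / 2) with hY0
    have hc1 := hcnt Y0 (ψ n) le_rfl (hψ n)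
    set lam' : ℝ := ψ n / (1 + e) with hlam'
    set A1 := Set.Ico a (a + h) ∩ fl (l n) (fun y => Exc (ψ n) Y0 y ∧ ¬ PP lam' J y) with hA1
    set A2 := Set.Ico a (a + h) ∩ fl (l n) (fun y => PP lam' J y ∧ ¬ PP lam' (Jn n) y) with hA2
    have hsub : {x | x ∈ Set.Ico a (a + h) ∧ ex l (ψ n) θ x n ∧
        ¬ PP lam' (Jn n) (xn l x n)} ⊆ A1 ∪ A2 := by
      rintro x ⟨hx1, hx2, hx3⟩
      by_cases hPP : PP lam' J (xn l x n)
      · right; exact ⟨hx1, hPP, hx3⟩
      · left; exact ⟨hx1, Exc_anti le_rfl (hsc3 x hx1).2.2 hx2, hPP⟩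
    have hv1 : volume.real A1 ≤ (a + h) * ((a + h) ^ (-ε) * (l n) ^ (-ε)) := by
      refine (vol_cnt hln hsc1 _).trans ?_
      rw [div_le_iff₀ hln]
      refine le_trans ?_ (hc1.trans (le_of_eq ?_))
      · apply le_of_eq
        congr!
      · rw [Real.mul_rpow hln.le (by positivity)]; ring
    have hv2 : volume.real A2 ≤ B * (1 / ((n : ℝ) + 2) ^ 3) := by
      have hB0 : 0 ≤ B := by positivity
      rcases Nat.lt_or_ge (Jn n) J with hJJ | hJJ
      · have h1 := up1 ha.le hh hln (((PP_per lam' J)).and ((PP_per lam' (Jn n)).mono hJJ.le).not)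
        have h2 := dn_mid hJJ.le (hlam0 n)
        have h3 := b_Jn n
        have hb := b_pos
        have h4 : (l n * h + 2 + 2 ^ J) / l n ≤ 2 * h + a + 1 := by
          rw [div_le_iff₀ hln]
          have : 2 ≤ l n := by rwa [div_le_one hln] at hsc2
          nlinarith
        have h5 : 0 ≤ dn J fun y => PP lam' J y ∧ ¬ PP lam' (Jn n) y := dn_nonneg _ _
        have h6 : b ^ Jn n / Real.sqrt lam' ≤ b ^ Jn n / Real.sqrt (1 / (1 + e)) :=
          div_le_div_of_nonneg_left (by positivity) hs (hsn n)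
        calc volume.real A2 ≤ (l n * h + 2 + 2 ^ J) / l n *
              dn J (fun y => PP lam' J y ∧ ¬ PP lam' (Jn n) y) := h1
          _ ≤ (2 * h + a + 1) * (b ^ Jn n / Real.sqrt (1 / (1 + e))) :=
              mul_le_mul h4 (h2.trans h6) h5 (by positivity)
          _ = B * b ^ Jn n := by rw [hB]; ring
          _ ≤ _ := mul_le_mul_of_nonneg_left h3 hB0
      · have : A2 = ∅ := by
          rw [Set.eq_empty_iff_forall_notMem]
          rintro x ⟨_, hx2, hx3⟩
          exact hx3 (PP_mono hJJ hx2)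
        rw [this, measureReal_empty]
        positivity
    have hA1m : MeasurableSet A1 := measurableSet_Ico.inter (fl_meas _ _)
    have hA2m : MeasurableSet A2 := measurableSet_Ico.inter (fl_meas _ _)
    calc _ ≤ (volume.restrict (Set.Ico a (a + h))).real (A1 ∪ A2) :=
          measureReal_mono hsub (measure_ne_top _ _)
      _ ≤ (volume.restrict (Set.Ico a (a + h))).real A1 + (volume.restrict (Set.Ico a (a + h))).real A2 :=
          measureReal_union_le _ _
      _ ≤ volume.real A1 + volume.real A2 := by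
          rw [measureReal_restrict_apply hA1m, measureReal_restrict_apply hA2m]
          apply add_le_add
          · exact measureReal_mono Set.inter_subset_left (fin_I _)
          · exact measureReal_mono Set.inter_subset_left (fin_I _)
      _ ≤ _ := add_le_add hv1 hv2)
  filter_upwards [hbc, ae_restrict_mem measurableSet_Ico] with x hx hxI
  filter_upwards [hx] with n hn hE
  by_contra hcon
  exact hn ⟨hxI, hE, hcon⟩

theorem cnt_leW {W : ℕ → ℝ} (hW : Tendsto W atTop atTop) {P Q : ℕ → Prop}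
    (h : ∀ᶠ n in atTop, P n → Q n) {ε : ℝ} (hε : 0 < ε) :
    ∀ᶠ N : ℕ in atTop, cnt P N / W N ≤ cnt Q N / W N + ε := by
  classical
  obtain ⟨n0, hn0⟩ := eventually_atTop.1 h
  filter_upwards [hW.eventually_gt_atTop ((n0 : ℝ) / ε)] with N hN
  have hN0 : (0 : ℝ) < W N := lt_of_le_of_lt (by positivity) hN
  have h1 : (n0 : ℝ) ≤ ε * W N := by
    rw [div_lt_iff₀ hε] at hN
    linarith
  have h3 : cnt P N ≤ cnt Q N + n0 := by
    unfold cnt
    have h4 : (range N).filter P ⊆ (range N).filter Q ∪ range n0 := by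
      intro n hn
      rw [mem_filter] at hn
      rw [mem_union, mem_filter]
      rcases Nat.lt_or_ge n n0 with h5 | h5
      · exact Or.inr (mem_range.2 h5)
      · exact Or.inl ⟨hn.1, hn0 n h5 hn.2⟩
    have h6 := (card_le_card h4).trans (card_union_le _ _)
    rw [card_range] at h6
    exact_mod_cast h6
  rw [← sub_nonneg]
  have e : cnt Q N / W N + ε - cnt P N / W N = (cnt Q N + ε * W N - cnt P N) / W N := by field_simp
  rw [e]
  apply div_nonneg _ hN0.le
  linarith

/-- squeeze -/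
theorem sandW {W : ℕ → ℝ} (hW : Tendsto W atTop atTop) {A B : ℕ → Prop} {D : ℕ → ℕ → Prop} {v : ℝ}
    {w : ℕ → ℝ} (hA : Tendsto (fun N : ℕ => cnt A N / W N) atTop (𝓝 v))
    (hAB : ∀ᶠ n in atTop, A n → B n)
    (hD : ∀ i, Tendsto (fun N : ℕ => cnt (D i) N / W N) atTop (𝓝 (w i)))
    (hBD : ∀ i, ∀ᶠ n in atTop, B n → D i n) (hw : Tendsto w atTop (𝓝 v)) :
    Tendsto (fun N : ℕ => cnt B N / W N) atTop (𝓝 v) := by
  rw [tendsto_order]
  constructor
  · intro a ha
    obtain ⟨d, hd⟩ : ∃ d, d = v - a := ⟨_, rfl⟩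
    filter_upwards [hA.eventually (lt_mem_nhds (show v - d / 2 < v by linarith)),
      cnt_leW hW hAB (show 0 < d / 2 by linarith)] with N h1 h2
    linarith
  · intro a ha
    obtain ⟨d, hd⟩ : ∃ d, d = a - v := ⟨_, rfl⟩
    obtain ⟨i, hi⟩ := (hw.eventually (gt_mem_nhds (show v < v + d / 3 by linarith))).exists
    filter_upwards [(hD i).eventually (gt_mem_nhds (show w i < w i + d / 3 by linarith)),
      cnt_leW hW (hBD i) (show 0 < d / 3 by linarith)] with N h1 h2
    linarith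

theorem W_tendsto {ψ : ℕ → ℝ} (hψ : ∀ n, 1 ≤ ψ n) (hs : ¬ Summable fun n => 1 / ψ n) :
    Tendsto (fun N => ∑ n ∈ range N, 1 / ψ n) atTop atTop :=
  (not_summable_iff_tendsto_nat_atTop_of_nonneg fun n =>
    (one_div_pos.2 (lt_of_lt_of_le one_pos (hψ n))).le).1 hs

/-- the law for moderate levels -/
theorem quant_mod (hl : Lac l c) {ψ : ℕ → ℝ} (hψ : ∀ n, 1 ≤ ψ n) (hψt : Tendsto ψ atTop atTop)
    (hψu : ∀ n, ψ n ≤ ((n : ℝ) + 2) ^ 2) (hs : ¬ Summable fun n => 1 / ψ n) {a h : ℝ} (ha : 0 < a)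
    (hh : 0 < h) : ∀ᵐ x ∂(volume.restrict (Set.Ico a (a + h))), ∀ θ : ℝ, 0 < θ → θ < 1 →
      Tendsto (fun N : ℕ => cnt (fun n => ex l (ψ n) θ x n) N / ∑ n ∈ range N, 1 / ψ n) atTop (𝓝 C) := by
  have hψ0 : ∀ n, 0 < ψ n := fun n => lt_of_lt_of_le one_pos (hψ n)
  have hWt := W_tendsto hψ hs
  set e : ℕ → ℝ := fun i => 1 / ((i : ℝ) + 1) with he
  have he0 : ∀ i, 0 < e i := fun i => by simp only [he]; positivity
  set ψi : ℕ → ℕ → ℝ := fun i n => max (ψ n / (1 + e i)) 1 with hψi
  have hdiv : ∀ i, Tendsto (fun n => ψ n / (1 + e i)) atTop atTop := fun i =>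
    hψt.atTop_div_const (by have := he0 i; linarith)
  have hψi1 : ∀ i n, 1 ≤ ψi i n := fun i n => le_max_right _ _
  have hψit : ∀ i, Tendsto (ψi i) atTop atTop := fun i =>
    tendsto_atTop_mono (fun n => le_max_left _ _) (hdiv i)
  have hψile : ∀ i n, ψi i n ≤ ψ n := by
    intro i n
    apply max_le _ (hψ n)
    exact div_le_self (hψ0 n).le (by have := he0 i; linarith)
  have hψis : ∀ i, ¬ Summable fun n => 1 / ψi i n := by
    intro i hcon
    apply hs
    refine Summable.of_nonneg_of_le (fun n => (one_div_pos.2 (hψ0 n)).le) (fun n => ?_) hcon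
    exact one_div_le_one_div_of_le (lt_of_lt_of_le one_pos (hψi1 i n)) (hψile i n)
  have hrat : ∀ i, Tendsto (fun N => (∑ n ∈ range N, 1 / ψi i n) / ∑ n ∈ range N, 1 / ψ n) atTop
      (𝓝 (1 + e i)) := by
    intro i
    have ht : Tendsto (fun n => ψ n / ψi i n) atTop (𝓝 (1 + e i)) := by
      refine tendsto_const_nhds.congr' ?_
      filter_upwards [(hdiv i).eventually_ge_atTop 1] with n hn
      have h1 : ψi i n = ψ n / (1 + e i) := max_eq_left hn
      have h2 := he0 i
      rw [h1, div_div_cancel₀ (hψ0 n).ne']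
    refine (wavg (fun n => one_div_pos.2 (hψ0 n)) hs ht).congr fun N => ?_
    congr 1
    refine sum_congr rfl fun n _ => ?_
    have := (hψ0 n).ne'
    field_simp
  have h1 := quantPP hl hψ hψt hψu hs ha.le hh
  have h2 : ∀ᵐ x ∂(volume.restrict (Set.Ico a (a + h))), ∀ i : ℕ,
      Tendsto (fun N : ℕ => cnt (fun n => PP (ψi i n) (Jn n) (xn l x n)) N /
        ∑ n ∈ range N, 1 / ψi i n) atTop (𝓝 C) :=
    ae_all_iff.2 fun i => quantPP hl (hψi1 i) (hψit i) (fun n => (hψile i n).trans (hψu n))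
      (hψis i) ha.le hh
  have h3 : ∀ᵐ x ∂(volume.restrict (Set.Ico a (a + h))), ∀ i k : ℕ, ∀ᶠ n in atTop,
      ex l (ψ n) (1 / ((k : ℝ) + 1)) x n → PP (ψ n / (1 + e i)) (Jn n) (xn l x n) :=
    ae_all_iff.2 fun i => ae_all_iff.2 fun k => late_seq hl hψ ha hh (by positivity) (he0 i)
  filter_upwards [h1, h2, h3, ae_restrict_mem measurableSet_Ico] with x g1 g2 g3 gI θ hθ0 hθ1
  have hx0 : 0 < x := lt_of_lt_of_le ha gI.1
  obtain ⟨k, hk⟩ := exists_nat_one_div_lt hθ0
  refine sandW hWt (A := fun n => PP (ψ n) (Jn n) (xn l x n))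
    (D := fun i n => PP (ψi i n) (Jn n) (xn l x n)) (w := fun i => C * (1 + e i))
    g1 ?_ (fun i => ?_) (fun i => ?_) ?_
  · filter_upwards [hl.above hx0 hθ1, hψt.eventually_gt_atTop 1] with n hn hn2 hPP
    exact PP_Exc hn2 hPP hn.2
  · refine ((g2 i).mul (hrat i)).congr' ?_
    filter_upwards [(W_tendsto (hψi1 i) (hψis i)).eventually_gt_atTop 0] with N hN
    field_simp
  · filter_upwards [g3 i k, one_le_xn hl hx0, (hdiv i).eventually_ge_atTop 1] with n hn hn1 hn2 hE
    have h4 : ψi i n = ψ n / (1 + e i) := max_eq_left hn2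
    rw [h4]
    apply hn
    refine Exc_anti le_rfl ?_ hE
    exact Real.rpow_le_rpow_of_exponent_le (by exact_mod_cast hn1) hk.le
  · have h4 : Tendsto e atTop (𝓝 0) := tendsto_one_div_add_atTop_nhds_zero_nat
    have h5 := (h4.const_add 1).const_mul C
    rwa [add_zero, mul_one] at h5

end Pool.Agent.K7.H13.KX
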