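import Pool.Agent.K7.H13.KX.Quant
import Pool.Agent.K7.H13.KX.Conv

/-! The number of large excursions along a lacunary sequence: conclusion. -/

set_option autoImplicit false

namespace Pool.Agent.K7.H13.KX

open Finset Filter Topology MeasureTheory Pool.Agent.Helper894.Collatz Pool.Agent.H828R3.Exc
  Pool.Agent.W36.SL

attribute [local irreducible] Jn

variable {l : ℕ → ℝ} {c : ℝ}

theorem sq_summable : Summable fun n : ℕ => 1 / ((n : ℝ) + 2) ^ 2 := by
  have h2 : Summable fun n : ℕ => 1 / (n : ℝ) ^ 2 := Real.summable_one_div_nat_pow.2 (by norm_num)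
  refine ((summable_nat_add_iff 2).2 h2).congr fun n => ?_
  push_cast; rfl

theorem quant (hl : Lac l c) {ψ : ℕ → ℝ} (hψ : ∀ n, 1 ≤ ψ n) (hψt : Tendsto ψ atTop atTop)
    (hs : ¬ Summable fun n => 1 / ψ n) : ∀ᵐ x : ℝ, 0 < x → ∀ θ : ℝ, 0 < θ → θ < 1 →
      Tendsto (fun N : ℕ => cnt (fun n => ex l (ψ n) θ x n) N / ∑ n ∈ range N, 1 / ψ n) atTop (𝓝 C) := by
  have hψ0 : ∀ n, 0 < ψ n := fun n => lt_of_lt_of_le one_pos (hψ n)
  set φ : ℕ → ℝ := fun n => min (ψ n) (((n : ℝ) + 2) ^ 2) with hφ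
  have hsq1 : ∀ n : ℕ, (1 : ℝ) ≤ ((n : ℝ) + 2) ^ 2 := fun n => one_le_pow₀ (by
    have : (0 : ℝ) ≤ n := Nat.cast_nonneg n
    linarith)
  have hφ1 : ∀ n, 1 ≤ φ n := fun n => le_min (hψ n) (hsq1 n)
  have hφ0 : ∀ n, 0 < φ n := fun n => lt_of_lt_of_le one_pos (hφ1 n)
  have hφle : ∀ n, φ n ≤ ψ n := fun n => min_le_left _ _
  have hsqt : Tendsto (fun n : ℕ => ((n : ℝ) + 2) ^ 2) atTop atTop :=
    (tendsto_pow_atTop (by norm_num)).comp (tendsto_atTop_add_const_right _ _ tendsto_natCast_atTop_atTop)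
  have hφt : Tendsto φ atTop atTop := by
    rw [tendsto_atTop]
    intro B
    filter_upwards [hψt.eventually_ge_atTop B, hsqt.eventually_ge_atTop B] with n h1 h2
    exact le_min h1 h2
  have hφs : ¬ Summable fun n => 1 / φ n := by
    intro hcon
    apply hs
    refine Summable.of_nonneg_of_le (fun n => (one_div_pos.2 (hψ0 n)).le) (fun n => ?_) hcon
    exact one_div_le_one_div_of_le (hφ0 n) (hφle n)
  have hWt := W_tendsto hψ hs
  set Z : ℝ := ∑' n : ℕ, 1 / ((n : ℝ) + 2) ^ 2 with hZ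
  have hdiff : ∀ N, ∑ n ∈ range N, 1 / ψ n ≤ ∑ n ∈ range N, 1 / φ n ∧
      ∑ n ∈ range N, 1 / φ n ≤ ∑ n ∈ range N, 1 / ψ n + Z := by
    intro N
    constructor
    · exact sum_le_sum fun n _ => one_div_le_one_div_of_le (hφ0 n) (hφle n)
    · calc ∑ n ∈ range N, 1 / φ n ≤ ∑ n ∈ range N, (1 / ψ n + 1 / ((n : ℝ) + 2) ^ 2) := by
            apply sum_le_sum
            intro n _
            have h1 : 0 < 1 / ψ n := one_div_pos.2 (hψ0 n)
            have h2 : (0 : ℝ) < 1 / ((n : ℝ) + 2) ^ 2 := by positivity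
            rcases min_choice (ψ n) (((n : ℝ) + 2) ^ 2) with h3 | h3
            · simp only [hφ]; rw [h3]; linarith
            · simp only [hφ]; rw [h3]; linarith
        _ = ∑ n ∈ range N, 1 / ψ n + ∑ n ∈ range N, 1 / ((n : ℝ) + 2) ^ 2 := sum_add_distrib
        _ ≤ _ := by
            apply add_le_add le_rfl
            exact sq_summable.sum_le_tsum _ fun n _ => by positivity
  have hrat : Tendsto (fun N => (∑ n ∈ range N, 1 / φ n) / ∑ n ∈ range N, 1 / ψ n) atTop (𝓝 1) := by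
    have h1 : Tendsto (fun N => 1 + Z / ∑ n ∈ range N, 1 / ψ n) atTop (𝓝 (1 + 0)) :=
      (tendsto_const_nhds.div_atTop hWt).const_add 1
    rw [add_zero] at h1
    refine tendsto_of_tendsto_of_tendsto_of_le_of_le' tendsto_const_nhds h1 ?_ ?_
    · filter_upwards [hWt.eventually_gt_atTop 0] with N hN
      rw [le_div_iff₀ hN, one_mul]
      exact (hdiff N).1
    · filter_upwards [hWt.eventually_gt_atTop 0] with N hN
      rw [div_le_iff₀ hN, add_mul, one_mul, div_mul_cancel₀ _ hN.ne']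
      exact (hdiff N).2
  have h1 := ae_pos fun a h ha hh => quant_mod hl hφ1 hφt (fun n => min_le_right _ _) hφs ha hh
  have h2 := conv hl hsq1 sq_summable
  filter_upwards [h1, h2] with x g1 g2 hx0 θ hθ0 hθ1
  have h3 := g1 hx0 θ hθ0 hθ1
  have h4 := g2 hx0 θ hθ0
  have hφW := W_tendsto hφ1 hφs
  have h5 : Tendsto (fun N : ℕ => cnt (fun n => ex l (ψ n) θ x n) N / ∑ n ∈ range N, 1 / φ n) atTop
      (𝓝 C) := by
    refine sandW hφW (A := fun n => ex l (φ n) θ x n) (D := fun _ n => ex l (φ n) θ x n)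
      (w := fun _ => C) h3 ?_ (fun _ => h3) (fun _ => ?_) tendsto_const_nhds
    · filter_upwards [h4] with n hn hE
      rcases min_choice (ψ n) (((n : ℝ) + 2) ^ 2) with h6 | h6
      · simp only [hφ] at hE
        rwa [h6] at hE
      · simp only [hφ] at hE
        rw [h6] at hE
        exact absurd hE hn
    · exact Eventually.of_forall fun n hE => Exc_anti (hφle n) le_rfl hE
  have h6 := h5.mul hrat
  rw [mul_one] at h6
  refine h6.congr' ?_
  filter_upwards [hφW.eventually_gt_atTop 0] with N hN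
  field_simp

end Pool.Agent.K7.H13.KX
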