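import Pool.Agent.K7.H13.KX.Per2

/-! The depths, and the growth of a lacunary sequence. -/

set_option autoImplicit false

namespace Pool.Agent.K7.H13.KX

open Finset Filter Topology Pool.Agent.Helper894.Collatz Pool.Agent.H828R3.Exc Pool.Agent.W36.SL

/-- the depth used for the `n`-th term -/
def Jn (n : ℕ) : ℕ := 60 * (Nat.log 2 (n + 2) + 1)

theorem Jn_lower (n : ℕ) : ((n : ℝ) + 2) ^ 60 ≤ 2 ^ Jn n := by
  unfold Jn
  have h : n + 2 < 2 ^ (Nat.log 2 (n + 2) + 1) := Nat.lt_pow_succ_log_self (by norm_num) _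
  have h2 : (n : ℝ) + 2 ≤ 2 ^ (Nat.log 2 (n + 2) + 1) := by exact_mod_cast h.le
  rw [mul_comm 60, pow_mul]
  exact pow_le_pow_left₀ (by positivity) h2 60

theorem Jn_upper (n : ℕ) : (2 : ℝ) ^ Jn n ≤ (2 * ((n : ℝ) + 2)) ^ 60 := by
  unfold Jn
  have h : 2 ^ Nat.log 2 (n + 2) ≤ n + 2 := Nat.pow_log_le_self 2 (by omega)
  have h2 : (2 : ℝ) ^ (Nat.log 2 (n + 2) + 1) ≤ 2 * ((n : ℝ) + 2) := by
    rw [pow_succ]
    have : (2 : ℝ) ^ Nat.log 2 (n + 2) ≤ (n : ℝ) + 2 := by exact_mod_cast h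
    linarith
  rw [mul_comm 60, pow_mul]
  exact pow_le_pow_left₀ (by positivity) h2 60

theorem b_Jn (n : ℕ) : b ^ Jn n ≤ 1 / ((n : ℝ) + 2) ^ 3 := by
  unfold Jn
  have h : n + 2 < 2 ^ (Nat.log 2 (n + 2) + 1) := Nat.lt_pow_succ_log_self (by norm_num) _
  have h2 : (n : ℝ) + 2 ≤ 2 ^ (Nat.log 2 (n + 2) + 1) := by exact_mod_cast h.le
  have e : 60 * (Nat.log 2 (n + 2) + 1) = 20 * ((Nat.log 2 (n + 2) + 1) * 3) := by ring
  rw [e, pow_mul b]
  have h3 : (b ^ 20) ^ ((Nat.log 2 (n + 2) + 1) * 3) ≤ (1 / 2) ^ ((Nat.log 2 (n + 2) + 1) * 3) :=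
    pow_le_pow_left₀ (by have := b_pos; positivity) b_pow _
  refine h3.trans ?_
  rw [pow_mul, one_div_pow, ← one_div_pow ((n : ℝ) + 2)]
  apply pow_le_pow_left₀ (by positivity)
  exact one_div_le_one_div_of_le (by positivity) h2

/-- a lacunary sequence of positive real numbers -/
structure Lac (l : ℕ → ℝ) (c : ℝ) : Prop where
  pos : 0 < l 0
  one : 1 < c
  step : ∀ n, c * l n ≤ l (n + 1)

variable {l : ℕ → ℝ} {c : ℝ}

theorem Lac.ge (h : Lac l c) (m d : ℕ) : c ^ d * l m ≤ l (m + d) := by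
  have hc : 0 < c := by linarith [h.one]
  induction d with
  | zero => simp
  | succ d ih =>
    calc c ^ (d + 1) * l m = c * (c ^ d * l m) := by ring
      _ ≤ c * l (m + d) := mul_le_mul_of_nonneg_left ih hc.le
      _ ≤ _ := h.step _

theorem Lac.ge0 (h : Lac l c) (n : ℕ) : c ^ n * l 0 ≤ l n := by
  have := h.ge 0 n
  rwa [zero_add] at this

theorem Lac.lpos (h : Lac l c) (n : ℕ) : 0 < l n := by
  have hc : 0 < c := by linarith [h.one]
  have h0 := h.pos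
  exact lt_of_lt_of_le (by positivity) (h.ge0 n)

theorem Lac.ratio (h : Lac l c) {m n : ℕ} (hmn : m ≤ n) : l m / l n ≤ (1 / c) ^ (n - m) := by
  have hc : 0 < c := by linarith [h.one]
  obtain ⟨d, rfl⟩ := Nat.exists_eq_add_of_le hmn
  rw [Nat.add_sub_cancel_left, div_le_iff₀ (h.lpos _), one_div_pow, div_mul_eq_mul_div, one_mul,
    le_div_iff₀ (by positivity), mul_comm]
  exact h.ge m d

/-- the relative error at the `n`-th term -/
noncomputable def dl (l : ℕ → ℝ) (n : ℕ) : ℝ := (2 + 2 ^ Jn n) / l n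

theorem two_Jn (n : ℕ) : (2 : ℝ) + 2 ^ Jn n ≤ 3 * (2 * ((n : ℝ) + 2)) ^ 60 := by
  have h1 := Jn_upper n
  have h2 : (1 : ℝ) ≤ (2 * ((n : ℝ) + 2)) ^ 60 :=
    one_le_pow₀ (by have : (0 : ℝ) ≤ n := Nat.cast_nonneg n
                    linarith)
  linarith

theorem Lac.dl_pos (h : Lac l c) (n : ℕ) : 0 < dl l n := by
  unfold dl
  have := h.lpos n
  positivity

theorem Lac.dl_summable (h : Lac l c) : Summable (dl l) := by
  have hc : 0 < c := by linarith [h.one]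
  have h0 := h.pos
  have hr : ‖(1 / c : ℝ)‖ < 1 := by
    rw [Real.norm_of_nonneg (by positivity), div_lt_one hc]; exact h.one
  have h1 := summable_pow_mul_geometric_of_norm_lt_one 60 hr
  have h2 := (summable_nat_add_iff 2).2 h1
  have h3 := h2.mul_left (3 * 2 ^ 60 * c ^ 2 / l 0)
  refine Summable.of_nonneg_of_le (fun n => (h.dl_pos n).le) (fun n => ?_) h3
  unfold dl
  rw [div_le_iff₀ (h.lpos n)]
  have h4 := two_Jn n
  have h5 := h.ge0 n
  calc (2 : ℝ) + 2 ^ Jn n ≤ 3 * (2 * ((n : ℝ) + 2)) ^ 60 := h4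
    _ = (3 * 2 ^ 60 * c ^ 2 / l 0 * ((((n + 2 : ℕ) : ℝ)) ^ 60 * (1 / c) ^ (n + 2))) * (c ^ n * l 0) := by
        push_cast
        rw [one_div_pow, mul_pow, pow_add]
        field_simp
    _ ≤ _ := by
        apply mul_le_mul_of_nonneg_left h5
        positivity

theorem Lac.dl_tendsto (h : Lac l c) : Tendsto (dl l) atTop (𝓝 0) := h.dl_summable.tendsto_atTop_zero

theorem Lac.l_tendsto (h : Lac l c) : Tendsto l atTop atTop := by
  have h1 : Tendsto (fun n => c ^ n * l 0) atTop atTop :=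
    (tendsto_pow_atTop_atTop_of_one_lt h.one).atTop_mul_const h.pos
  exact tendsto_atTop_mono h.ge0 h1

theorem Lac.rpow_summable (h : Lac l c) {e : ℝ} (he : 0 < e) : Summable fun n => (l n) ^ (-e) := by
  have hc : 0 < c := by linarith [h.one]
  have h0 := h.pos
  have hr0 : 0 ≤ c ^ (-e) := by positivity
  have hr1 : c ^ (-e) < 1 := Real.rpow_lt_one_of_one_lt_of_neg h.one (by linarith)
  have h1 := (summable_geometric_of_lt_one hr0 hr1).mul_left ((l 0) ^ (-e))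
  refine Summable.of_nonneg_of_le (fun n => by have := h.lpos n; positivity) (fun n => ?_) h1
  calc (l n) ^ (-e) ≤ (c ^ n * l 0) ^ (-e) :=
        Real.rpow_le_rpow_of_nonpos (by positivity) (h.ge0 n) (by linarith)
    _ = (l 0) ^ (-e) * (c ^ (-e)) ^ n := by
        rw [Real.mul_rpow (by positivity) h0.le, ← Real.rpow_natCast, ← Real.rpow_natCast,
          ← Real.rpow_mul hc.le, ← Real.rpow_mul hc.le, mul_comm]
        congr 2
        ring

/-- the ratio at distance `k ^ 2` -/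
theorem Lac.far (h : Lac l c) : ∀ᶠ k : ℕ in atTop, ∀ m n : ℕ, n < k ^ 4 → m + k ^ 2 ≤ n →
    (2 + 2 ^ Jn n) * l m / l n ≤ 1 / (k : ℝ) ^ 2 := by
  have hc : 0 < c := by linarith [h.one]
  have hr : |(1 / c : ℝ)| < 1 := by
    rw [abs_of_pos (by positivity), div_lt_one hc]; exact h.one
  have h1 := tendsto_pow_const_mul_const_pow_of_abs_lt_one 242 hr
  have h2 : Tendsto (fun k : ℕ => 3 * 6 ^ 60 * ((k : ℝ) ^ 242 * (1 / c) ^ k)) atTop (𝓝 (3 * 6 ^ 60 * 0)) :=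
    h1.const_mul _
  rw [mul_zero] at h2
  filter_upwards [h2.eventually (gt_mem_nhds zero_lt_one), eventually_ge_atTop 1] with k hk hk1 m n hn hmn
  have hkR : (1 : ℝ) ≤ k := by exact_mod_cast hk1
  have hn1 : (n : ℝ) ≤ (k : ℝ) ^ 4 := by exact_mod_cast hn.le
  have h3 : (2 : ℝ) + 2 ^ Jn n ≤ 3 * 6 ^ 60 * (k : ℝ) ^ 240 := by
    refine (two_Jn n).trans ?_
    have h4 : 2 * ((n : ℝ) + 2) ≤ 6 * (k : ℝ) ^ 4 := by
      have : (1 : ℝ) ≤ (k : ℝ) ^ 4 := one_le_pow₀ hkR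
      linarith
    calc 3 * (2 * ((n : ℝ) + 2)) ^ 60 ≤ 3 * (6 * (k : ℝ) ^ 4) ^ 60 := by gcongr
      _ = _ := by ring
  have h5 : l m / l n ≤ (1 / c) ^ k := by
    refine (h.ratio (by omega)).trans ?_
    apply pow_le_pow_of_le_one (by positivity) (by rw [div_le_one hc]; exact h.one.le)
    have : k ≤ k ^ 2 := Nat.le_self_pow (by norm_num) k
    omega
  rw [mul_div_assoc, le_div_iff₀ (by positivity)]
  calc (2 + 2 ^ Jn n) * (l m / l n) * (k : ℝ) ^ 2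
      ≤ (3 * 6 ^ 60 * (k : ℝ) ^ 240) * (1 / c) ^ k * (k : ℝ) ^ 2 := by
        have h6 : 0 ≤ l m / l n := div_nonneg (h.lpos m).le (h.lpos n).le
        gcongr
    _ = 3 * 6 ^ 60 * ((k : ℝ) ^ 242 * (1 / c) ^ k) := by ring
    _ ≤ 1 := hk.le

/-- the iterates up to the depth stay above a power of the starting value -/
theorem Lac.above (h : Lac l c) {α θ : ℝ} (hα : 0 < α) (hθ : θ < 1) : ∀ᶠ n in atTop,
    1 ≤ ⌊l n * α⌋₊ ∧ 2 ^ Jn n * ((⌊l n * α⌋₊ : ℕ) : ℝ) ^ θ < ((⌊l n * α⌋₊ : ℕ) : ℝ) := by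
  have hc : 0 < c := by linarith [h.one]
  have h0 := h.pos
  have hs : 0 < 1 - θ := by linarith
  have hr1 : c ^ (-(1 - θ)) < 1 := Real.rpow_lt_one_of_one_lt_of_neg h.one (by linarith)
  have hr : |c ^ (-(1 - θ))| < 1 := by rwa [abs_of_pos (by positivity)]
  have h1 := tendsto_pow_const_mul_const_pow_of_abs_lt_one 60 hr
  have h2 : Tendsto (fun n : ℕ => 6 ^ 60 * (l 0 * α / 2) ^ (-(1 - θ)) *
      ((n : ℝ) ^ 60 * (c ^ (-(1 - θ))) ^ n)) atTop (𝓝 (6 ^ 60 * (l 0 * α / 2) ^ (-(1 - θ)) * 0)) :=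
    h1.const_mul _
  rw [mul_zero] at h2
  filter_upwards [h2.eventually (gt_mem_nhds zero_lt_one), eventually_ge_atTop 1,
    h.l_tendsto.eventually_ge_atTop (2 / α)] with n hn hn1 hl
  have hlα : 2 ≤ l n * α := by rwa [div_le_iff₀ hα] at hl
  have hx1 : l n * α / 2 ≤ ((⌊l n * α⌋₊ : ℕ) : ℝ) := by
    have := Nat.lt_floor_add_one (l n * α)
    linarith
  have hfl : 1 ≤ ⌊l n * α⌋₊ := (Nat.one_le_floor_iff _).2 (by linarith)
  refine ⟨hfl, ?_⟩
  set x : ℝ := ((⌊l n * α⌋₊ : ℕ) : ℝ) with hx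
  have hx0 : 0 < x := by linarith
  have hnR : (1 : ℝ) ≤ n := by exact_mod_cast hn1
  have h3 : (2 : ℝ) ^ Jn n ≤ 6 ^ 60 * (n : ℝ) ^ 60 := by
    refine (Jn_upper n).trans ?_
    rw [← mul_pow]
    exact pow_le_pow_left₀ (by positivity) (by linarith) 60
  have h4 : x ^ (-(1 - θ)) ≤ (l 0 * α / 2) ^ (-(1 - θ)) * (c ^ (-(1 - θ))) ^ n := by
    have h5 : (l 0 * α / 2) * c ^ n ≤ x := by
      have := mul_le_mul_of_nonneg_right (h.ge0 n) hα.le
      linarith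
    calc x ^ (-(1 - θ)) ≤ ((l 0 * α / 2) * c ^ n) ^ (-(1 - θ)) :=
          Real.rpow_le_rpow_of_nonpos (by positivity) h5 (by linarith)
      _ = _ := by
          rw [Real.mul_rpow (by positivity) (by positivity), ← Real.rpow_natCast,
            ← Real.rpow_natCast, ← Real.rpow_mul hc.le, ← Real.rpow_mul hc.le]
          congr 2
          ring
  have h6 : (2 : ℝ) ^ Jn n * x ^ (-(1 - θ)) < 1 := by
    calc (2 : ℝ) ^ Jn n * x ^ (-(1 - θ))
        ≤ (6 ^ 60 * (n : ℝ) ^ 60) * ((l 0 * α / 2) ^ (-(1 - θ)) * (c ^ (-(1 - θ))) ^ n) := by gcongr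
      _ = 6 ^ 60 * (l 0 * α / 2) ^ (-(1 - θ)) * ((n : ℝ) ^ 60 * (c ^ (-(1 - θ))) ^ n) := by ring
      _ < 1 := hn
  have h7 : x ^ θ = x ^ (-(1 - θ)) * x := by
    conv_rhs => rw [← Real.rpow_add_one hx0.ne']
    congr 1; ring
  rw [h7, ← mul_assoc]
  calc (2 : ℝ) ^ Jn n * x ^ (-(1 - θ)) * x < 1 * x := mul_lt_mul_of_pos_right h6 hx0
    _ = x := one_mul x

end Pool.Agent.K7.H13.KX
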